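import Pool.Agent.Lib.K5P.QPath

/-!
# K5P.RId : identification of a solution curve by convexity

`C` is a set of admissible points that satisfy the equations `pM = 0` and `pNet 1 = 0`; every point of `C` is a limit of
points of `C` with smaller `px` and with `pD`, `pA` not larger.  Then the values of the branches, of
the rooted 3-connected graphs and of the networks are the values at the points.
-/

set_option autoImplicit false

namespace K5P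

open K5N K5S K5C
open scoped ENNReal Topology

namespace RIdAux

open QPosAux

theorem exs_conv {a b u : ℝ} (hu : 0 ≤ u) (hu1 : u ≤ 1) :
    Real.exp ((1 - u) * a + u * b) - 1 - ((1 - u) * a + u * b) ≤
      (1 - u) * (Real.exp a - 1 - a) + u * (Real.exp b - 1 - b) := by
  have h := convexOn_exp.2 (Set.mem_univ a) (Set.mem_univ b) (sub_nonneg.2 hu1) hu
    (sub_add_cancel 1 u)
  simp only [smul_eq_mul] at h
  nlinarith [h]

theorem exs_nonneg (a : ℝ) : 0 ≤ Real.exp a - 1 - a := by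
  have := Real.add_one_le_exp a
  linarith

/-- the real form of a point between two points -/
theorem exists_u {a b c : ℝ} (hab : a < b) (hac : a ≤ c) (hcb : c ≤ b) :
    ∃ u : ℝ, 0 ≤ u ∧ u ≤ 1 ∧ c = (1 - u) * a + u * b := by
  have h : 0 < b - a := by linarith
  refine ⟨(c - a) / (b - a), div_nonneg (by linarith) h.le, (div_le_one h).2 (by linarith), ?_⟩
  field_simp
  ring

end RIdAux

open RIdAux QPosAux

/-- Identification of the branches. -/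
theorem br_id (S : Sys2) {x1 z1 a1 : ℝ} (hx1 : 0 < x1) (hz1 : 0 ≤ z1) (ha1 : 0 ≤ a1)
    (h1 : ser S.ac (.ofReal x1) (.ofReal z1) (.ofReal (1 + z1))
      (.ofReal (Real.exp a1 - 1 - a1)) = .ofReal a1)
    (hc : ∀ ε > 0, ∃ x z a : ℝ, 0 < x ∧ x < x1 ∧ z ≤ z1 ∧ a1 - ε < a ∧ a ≤ a1 ∧
      ser S.ac (.ofReal x) (.ofReal z) (.ofReal (1 + z)) (.ofReal (Real.exp a - 1 - a)) =
        .ofReal a) :
    ser2 S.rc (.ofReal x1) (.ofReal z1) = .ofReal a1 := by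
  have hle : ser2 S.rc (.ofReal x1) (.ofReal z1) ≤ .ofReal a1 :=
    S.hBrU x1 z1 (Real.exp a1 - 1 - a1) a1 hx1.le hz1 ha1 h1.le le_rfl
  have hfin : ser2 S.rc (.ofReal x1) (.ofReal z1) ≠ ∞ :=
    ne_top_of_le_ne_top ENNReal.ofReal_ne_top hle
  obtain ⟨a', ha', he⟩ : ∃ a' : ℝ, 0 ≤ a' ∧
      ser2 S.rc (.ofReal x1) (.ofReal z1) = .ofReal a' :=
    ⟨_, ENNReal.toReal_nonneg, (ENNReal.ofReal_toReal hfin).symm⟩
  rw [he] at hle ⊢
  have hle' : a' ≤ a1 := (ENNReal.ofReal_le_ofReal_iff ha1).1 hle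
  congr 1
  by_contra hne
  have hlt : a' < a1 := lt_of_le_of_ne hle' hne
  obtain ⟨x, z, a, hx, hxx, hzz, ha, haa, hE⟩ := hc (a1 - a') (by linarith)
  have ha'a : a' < a := by linarith
  have ha0 : 0 < a := lt_of_le_of_lt ha' ha'a
  obtain ⟨u, hu, hu1, hau⟩ := exists_u hlt ha'a.le haa
  have hconv := ser_conv S.ac (x := x1) (z0 := z1) (z1 := z1) (zu := z1)
    (T0 := Real.exp a' - 1 - a') (T1 := Real.exp a1 - 1 - a1) (Tu := Real.exp a - 1 - a)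
    hx1.le hz1 le_rfl (exs_nonneg a') (exs_mono ha' hlt.le) hu hu1 (by
      have : (1 - u) * z1 + u * z1 = z1 := by ring
      rw [this]) (by rw [hau]; exact exs_conv hu hu1) (by rw [h1]; exact ENNReal.ofReal_ne_top)
  rw [S.hBrE x1 z1 a' hx1.le hz1 ha' he, h1, ENNReal.toReal_ofReal ha',
    ENNReal.toReal_ofReal ha1, ← hau] at hconv
  have hfin1 : ser S.ac (.ofReal x1) (.ofReal z1) (.ofReal (1 + z1))
      (.ofReal (Real.exp a - 1 - a)) ≠ ∞ := by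
    refine ne_top_of_le_ne_top (b := ENNReal.ofReal a1) ENNReal.ofReal_ne_top ?_
    rw [← h1]
    exact ser_mono S.ac le_rfl le_rfl le_rfl (ENNReal.ofReal_le_ofReal (exs_mono ha0.le haa))
  have hsc := ser_scale S.ac S.hac0 (x := ENNReal.ofReal x) (z := ENNReal.ofReal z)
    (w := ENNReal.ofReal (1 + z)) (t := ENNReal.ofReal (Real.exp a - 1 - a))
    (x1 := ENNReal.ofReal x1) (z1 := ENNReal.ofReal z1) (w1 := ENNReal.ofReal (1 + z1))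
    (t1 := ENNReal.ofReal (Real.exp a - 1 - a)) (ENNReal.ofReal_le_ofReal hxx.le)
    (ENNReal.ofReal_le_ofReal hzz) (ENNReal.ofReal_le_ofReal (by linarith)) le_rfl
  rw [hE] at hsc
  have hsc' := ENNReal.toReal_mono (ENNReal.mul_ne_top ENNReal.ofReal_ne_top hfin1) hsc
  rw [ENNReal.toReal_mul, ENNReal.toReal_mul, ENNReal.toReal_ofReal hx1.le,
    ENNReal.toReal_ofReal ha0.le, ENNReal.toReal_ofReal hx.le] at hsc'
  have h2 : x * (ser S.ac (.ofReal x1) (.ofReal z1) (.ofReal (1 + z1))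
      (.ofReal (Real.exp a - 1 - a))).toReal ≤ x * a := mul_le_mul_of_nonneg_left hconv hx.le
  have h3 : x * a < x1 * a := mul_lt_mul_of_pos_right hxx ha0
  linarith

namespace RIdAux

theorem s_conv {x z0 z1 zu u : ℝ} (hx : 0 < x) (h0 : 0 ≤ z0) (h1 : 0 ≤ z1) (hu : 0 ≤ u)
    (hu1 : u ≤ 1) (hz : zu = (1 - u) * z0 + u * z1) :
    x * zu ^ 2 / (1 + x * zu) ≤
      (1 - u) * (x * z0 ^ 2 / (1 + x * z0)) + u * (x * z1 ^ 2 / (1 + x * z1)) := by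
  have hu' : 0 ≤ 1 - u := by linarith
  have hzu : 0 ≤ zu := by rw [hz]; positivity
  have p0 : 0 < 1 + x * z0 := by positivity
  have p1 : 0 < 1 + x * z1 := by positivity
  have pu : 0 < 1 + x * zu := by positivity
  have key : (1 - u) * (x * z0 ^ 2 / (1 + x * z0)) + u * (x * z1 ^ 2 / (1 + x * z1)) -
      x * zu ^ 2 / (1 + x * zu) =
      (1 - u) * u * (x * (z1 - z0) ^ 2) / ((1 + x * z0) * (1 + x * z1) * (1 + x * zu)) := by
    subst hz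
    have pu' : (1 + x * ((1 - u) * z0 + u * z1)) ≠ 0 := pu.ne'
    field_simp
    ring
  have : 0 ≤ (1 - u) * u * (x * (z1 - z0) ^ 2) / ((1 + x * z0) * (1 + x * z1) * (1 + x * zu)) := by
    positivity
  linarith

theorem s_lt {x x1 z : ℝ} (hx : 0 < x) (hxx : x < x1) (hz : 0 < z) :
    x * z ^ 2 / (1 + x * z) < x1 * z ^ 2 / (1 + x1 * z) := by
  have p0 : 0 < 1 + x * z := by positivity
  have p1 : 0 < 1 + x1 * z := by
    have : 0 < x1 := hx.trans hxx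
    positivity
  rw [div_lt_div_iff₀ p0 p1]
  have : x * z ^ 2 < x1 * z ^ 2 := mul_lt_mul_of_pos_right hxx (by positivity)
  nlinarith [this]

/-- `ser2` as a series in four variables -/
theorem ser2_conv (c : ℕ → ℕ → ℝ≥0∞) {x z0 z1 zu u : ℝ} (hx : 0 ≤ x)
    (h0 : 0 ≤ z0) (h01 : z0 ≤ z1) (hu : 0 ≤ u) (hu1 : u ≤ 1)
    (hz : zu ≤ (1 - u) * z0 + u * z1)
    (hfin : ser2 c (.ofReal x) (.ofReal z1) ≠ ∞) :
    (ser2 c (.ofReal x) (.ofReal zu)).toReal ≤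
      (1 - u) * (ser2 c (.ofReal x) (.ofReal z0)).toReal +
      u * (ser2 c (.ofReal x) (.ofReal z1)).toReal := by
  set c' : ℕ → ℕ → ℕ → ℕ → ℝ≥0∞ := fun i j k l => if k = 0 ∧ l = 0 then c i j else 0 with hc'
  have key : ∀ x z w t : ℝ≥0∞, ser c' x z w t = ser2 c x z := by
    intro x z w t
    unfold ser ser2
    symm
    have hinj : Function.Injective (fun m : ℕ × ℕ => (m.1, m.2, (0 : ℕ), (0 : ℕ))) := by
      intro a b h
      simp only [Prod.mk.injEq] at h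
      exact Prod.ext h.1 h.2.1
    have h := hinj.tsum_eq (f := fun m : ℕ × ℕ × ℕ × ℕ =>
      c' m.1 m.2.1 m.2.2.1 m.2.2.2 * x ^ m.1 * z ^ m.2.1 * w ^ m.2.2.1 * t ^ m.2.2.2) (by
        intro m hm
        rw [Function.mem_support] at hm
        by_cases h : m.2.2.1 = 0 ∧ m.2.2.2 = 0
        · exact ⟨(m.1, m.2.1), by
            obtain ⟨i, j, k, l⟩ := m
            simp only at h
            simp [h.1, h.2]⟩
        · exfalso
          apply hm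
          simp only [hc', if_neg h, zero_mul])
    rw [← h]
    refine tsum_congr fun m => ?_
    simp [hc']
  have h := ser_conv c' (x := x) (z0 := z0) (z1 := z1) (zu := zu) (T0 := 0) (T1 := 0) (Tu := 0)
    (u := u) hx h0 h01 le_rfl le_rfl hu hu1 hz (by simp) (by rw [key]; exact hfin)
  rwa [key, key, key] at h

end RIdAux

/-- Identification of the networks. -/
theorem net_id (S : Sys2) {x1 z1 : ℝ} (hx1 : 0 < x1) (hz1 : 1 ≤ z1)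
    (hfin : ser2 S.tc (.ofReal x1) (.ofReal z1) ≠ ∞)
    (h1 : Real.log ((1 + z1) / (1 + 1)) = x1 * z1 ^ 2 / (1 + x1 * z1) + T0r S x1 z1)
    (hc : ∀ ε > 0, ∃ x z : ℝ, 0 < x ∧ x < x1 ∧ 0 < z ∧ z1 - ε < z ∧ z ≤ z1 ∧
      Real.log ((1 + z) / (1 + 1)) = x * z ^ 2 / (1 + x * z) + T0r S x z) :
    S.Dg (.ofReal x1) = .ofReal z1 := by
  have hz0 : 0 ≤ z1 := by linarith
  have hle : S.Dg (.ofReal x1) ≤ .ofReal z1 :=
    S.hNU x1 z1 (K5P.T0r S x1 z1) hx1 hz1 ENNReal.toReal_nonneg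
      (ENNReal.ofReal_toReal hfin).symm.le (by rw [← h1, one_add_one_eq_two])
  have hfinD : S.Dg (.ofReal x1) ≠ ∞ := ne_top_of_le_ne_top ENNReal.ofReal_ne_top hle
  obtain ⟨k1, k2, k3, k4⟩ := Dr_spec S hx1 hfinD
  rw [k2] at hle ⊢
  have hle' : Dr S x1 ≤ z1 := (ENNReal.ofReal_le_ofReal_iff hz0).1 hle
  congr 1
  by_contra hne
  have hlt : Dr S x1 < z1 := lt_of_le_of_ne hle' hne
  set z' := Dr S x1 with hz'
  obtain ⟨x, z, hx, hxx, hz, hzz, hzz1, hE⟩ := hc (z1 - z') (by linarith)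
  have hz'z : z' < z := by linarith
  obtain ⟨u, hu, hu1, hzu⟩ := exists_u hlt hz'z.le hzz1
  have hu' : 0 ≤ 1 - u := by linarith
  have c1 := ser2_conv S.tc (x := x1) (z0 := z') (z1 := z1) (zu := z) hx1.le (by linarith) hlt.le
    hu hu1 hzu.le hfin
  have c2 := s_conv (x := x1) (z0 := z') (z1 := z1) (zu := z) hx1 (by linarith) hz0 hu hu1 hzu
  have c3 : (1 - u) * Real.log ((1 + z') / (1 + 1)) + u * Real.log ((1 + z1) / (1 + 1)) ≤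
      Real.log ((1 + z) / (1 + 1)) := by
    have h := strictConcaveOn_log_Ioi.concaveOn.2
      (x := (1 + z') / (1 + 1)) (y := (1 + z1) / (1 + 1))
      (Set.mem_Ioi.2 (by positivity)) (Set.mem_Ioi.2 (by positivity)) hu' hu
      (sub_add_cancel 1 u)
    simp only [smul_eq_mul] at h
    refine h.trans (le_of_eq ?_)
    congr 1
    rw [hzu]; ring
  have hmono : T0r S x z ≤ T0r S x1 z := by
    have hf : ser2 S.tc (.ofReal x1) (.ofReal z) ≠ ∞ :=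
      ne_top_of_le_ne_top hfin (ser2_mono _ le_rfl (ENNReal.ofReal_le_ofReal hzz1))
    exact ENNReal.toReal_mono hf (ser2_mono _ (ENNReal.ofReal_le_ofReal hxx.le) le_rfl)
  have hs := s_lt hx hxx hz
  have d1 : Real.log ((1 + z') / (1 + 1)) = x1 * z' ^ 2 / (1 + x1 * z') + T0r S x1 z' := by
    linarith
  rw [d1, h1] at c3
  have c1' : T0r S x1 z ≤ (1 - u) * T0r S x1 z' + u * T0r S x1 z1 := c1
  nlinarith [c1', c2, c3, hs, hmono, hE]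

/-- The value of the rooted 3-connected graphs. -/
theorem T0_id (S : Sys2) {x z a K : ℝ} (hx : 0 ≤ x) (hz : 0 ≤ z) (ha : 0 ≤ a) (hK0 : 0 ≤ K)
    (hr : ser2 S.rc (.ofReal x) (.ofReal z) = .ofReal a)
    (hK : ser S.kc (.ofReal x) (.ofReal z) (.ofReal (1 + z)) (.ofReal (Real.exp a - 1 - a)) =
      .ofReal K) :
    ser2 S.tc (.ofReal x) (.ofReal z) ≠ ∞ ∧
      T0r S x z = cT0 x (Real.exp a - 1 - a) z K a := by
  have hE := S.hT0E x z a hx hz ha hr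
  rw [hK] at hE
  have hf : ser2 S.tc (.ofReal x) (.ofReal z) ≠ ∞ := by
    intro h
    rw [h, top_add, top_add] at hE
    exact ENNReal.add_ne_top.2 ⟨ENNReal.ofReal_ne_top, ENNReal.ofReal_ne_top⟩ hE
  have hr' : ser2 S.rc (.ofReal x) (.ofReal z) ≠ ∞ := by rw [hr]; exact ENNReal.ofReal_ne_top
  have har : ar S x z = a := by
    unfold ar; rw [hr, ENNReal.toReal_ofReal ha]
  obtain ⟨-, h2⟩ := kc_fin S hx hz hr' hf
  have hKK : KK S.toSys (qp S x z) = K := by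
    unfold KK qp tr
    simp only [har]
    rw [hK, ENNReal.toReal_ofReal hK0]
  refine ⟨hf, ?_⟩
  rw [har, hKK] at h2
  unfold cT0 cG
  linarith [h2, (by ring : x * (1 + z) ^ 2 * (Real.exp a - 1 - a - a ^ 2 / 2 -
    a * (Real.exp a - 1 - a)) = - (x * (1 + z) ^ 2 * ((a - 1) * Real.exp a + 1 - a ^ 2 / 2)))]

/-- Identification of a solution curve. -/
theorem ident (S : Sys2) (C : Set (ℝ × ℝ × ℝ × ℝ))
    (hG : ∀ p ∈ C, Good p.1 p.2.1 p.2.2.1 p.2.2.2)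
    (hM : ∀ p ∈ C, pM p.1 p.2.1 p.2.2.1 p.2.2.2 = 0)
    (hN : ∀ p ∈ C, pNet 1 p.1 p.2.1 p.2.2.1 p.2.2.2 = 0)
    (hD : ∀ p ∈ C, 1 ≤ pD p.1 p.2.1 p.2.2.1 p.2.2.2)
    (hC : ∀ p ∈ C, ∀ ε > 0, ∃ p' ∈ C,
      px p'.1 p'.2.1 p'.2.2.1 p'.2.2.2 < px p.1 p.2.1 p.2.2.1 p.2.2.2 ∧
      pD p'.1 p'.2.1 p'.2.2.1 p'.2.2.2 ≤ pD p.1 p.2.1 p.2.2.1 p.2.2.2 ∧
      pD p.1 p.2.1 p.2.2.1 p.2.2.2 - ε < pD p'.1 p'.2.1 p'.2.2.1 p'.2.2.2 ∧
      pA p'.1 p'.2.1 p'.2.2.1 p'.2.2.2 ≤ pA p.1 p.2.1 p.2.2.1 p.2.2.2 ∧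
      pA p.1 p.2.1 p.2.2.1 p.2.2.2 - ε < pA p'.1 p'.2.1 p'.2.2.1 p'.2.2.2) :
    ∀ p ∈ C,
      ser2 S.rc (.ofReal (px p.1 p.2.1 p.2.2.1 p.2.2.2)) (.ofReal (pD p.1 p.2.1 p.2.2.1 p.2.2.2)) =
        .ofReal (pA p.1 p.2.1 p.2.2.1 p.2.2.2) ∧
      ser2 S.tc (.ofReal (px p.1 p.2.1 p.2.2.1 p.2.2.2)) (.ofReal (pD p.1 p.2.1 p.2.2.1 p.2.2.2)) =
        .ofReal (pT0 p.1 p.2.1 p.2.2.1 p.2.2.2) ∧
      S.Dg (.ofReal (px p.1 p.2.1 p.2.2.1 p.2.2.2)) = .ofReal (pD p.1 p.2.1 p.2.2.1 p.2.2.2) := by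
  -- the values of the core series
  have hV : ∀ p ∈ C, 0 ≤ pK p.1 p.2.1 p.2.2.1 p.2.2.2 ∧ 0 ≤ pA p.1 p.2.1 p.2.2.1 p.2.2.2 ∧
      pT p.1 p.2.1 p.2.2.1 p.2.2.2 = Real.exp (pA p.1 p.2.1 p.2.2.1 p.2.2.2) - 1 -
        pA p.1 p.2.1 p.2.2.1 p.2.2.2 ∧
      ser S.kc (.ofReal (px p.1 p.2.1 p.2.2.1 p.2.2.2)) (.ofReal (pD p.1 p.2.1 p.2.2.1 p.2.2.2))
        (.ofReal (1 + pD p.1 p.2.1 p.2.2.1 p.2.2.2))
        (.ofReal (Real.exp (pA p.1 p.2.1 p.2.2.1 p.2.2.2) - 1 - pA p.1 p.2.1 p.2.2.1 p.2.2.2)) =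
        .ofReal (pK p.1 p.2.1 p.2.2.1 p.2.2.2) ∧
      ser S.ac (.ofReal (px p.1 p.2.1 p.2.2.1 p.2.2.2)) (.ofReal (pD p.1 p.2.1 p.2.2.1 p.2.2.2))
        (.ofReal (1 + pD p.1 p.2.1 p.2.2.1 p.2.2.2))
        (.ofReal (Real.exp (pA p.1 p.2.1 p.2.2.1 p.2.2.2) - 1 - pA p.1 p.2.1 p.2.2.1 p.2.2.2)) =
        .ofReal (pA p.1 p.2.1 p.2.2.1 p.2.2.2) := by
    intro p hp
    obtain ⟨v1, v2, v3, v4, v5⟩ := S.toSys.vals (hG p hp) (by linarith [hD p hp])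
    have hT : pT p.1 p.2.1 p.2.2.1 p.2.2.2 = Real.exp (pA p.1 p.2.1 p.2.2.1 p.2.2.2) - 1 -
        pA p.1 p.2.1 p.2.2.1 p.2.2.2 := by
      have := hM p hp
      unfold pM at this
      linarith
    rw [hT] at v4 v5
    exact ⟨v2, v3, hT, v4, v5⟩
  have hBr : ∀ p ∈ C, ser2 S.rc (.ofReal (px p.1 p.2.1 p.2.2.1 p.2.2.2))
      (.ofReal (pD p.1 p.2.1 p.2.2.1 p.2.2.2)) = .ofReal (pA p.1 p.2.1 p.2.2.1 p.2.2.2) := by
    intro p hp
    obtain ⟨v2, v3, hT, v4, v5⟩ := hV p hp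
    refine br_id S (hG p hp).x_pos (by linarith [hD p hp]) v3 v5 ?_
    intro ε hε
    obtain ⟨p', hp', c1, c2, c3, c4, c5⟩ := hC p hp ε hε
    obtain ⟨w2, w3, wT, w4, w5⟩ := hV p' hp'
    exact ⟨_, _, _, (hG p' hp').x_pos, c1, c2, c5, c4, w5⟩
  have hT0 : ∀ p ∈ C, ser2 S.tc (.ofReal (px p.1 p.2.1 p.2.2.1 p.2.2.2))
      (.ofReal (pD p.1 p.2.1 p.2.2.1 p.2.2.2)) ≠ ∞ ∧
      T0r S (px p.1 p.2.1 p.2.2.1 p.2.2.2) (pD p.1 p.2.1 p.2.2.1 p.2.2.2) =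
        pT0 p.1 p.2.1 p.2.2.1 p.2.2.2 := by
    intro p hp
    obtain ⟨v2, v3, hT, v4, v5⟩ := hV p hp
    obtain ⟨t1, t2⟩ := T0_id S (hG p hp).x_pos.le (by linarith [hD p hp]) v3 v2 (hBr p hp) v4
    refine ⟨t1, ?_⟩
    rw [t2]
    unfold pT0
    rw [hT]
  have hNet : ∀ p ∈ C, Real.log ((1 + pD p.1 p.2.1 p.2.2.1 p.2.2.2) / (1 + 1)) =
      px p.1 p.2.1 p.2.2.1 p.2.2.2 * pD p.1 p.2.1 p.2.2.1 p.2.2.2 ^ 2 /
        (1 + px p.1 p.2.1 p.2.2.1 p.2.2.2 * pD p.1 p.2.1 p.2.2.1 p.2.2.2) +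
      T0r S (px p.1 p.2.1 p.2.2.1 p.2.2.2) (pD p.1 p.2.1 p.2.2.1 p.2.2.2) := by
    intro p hp
    have h := hN p hp
    unfold pNet at h
    rw [(hT0 p hp).2]
    linarith
  intro p hp
  refine ⟨hBr p hp, ?_, ?_⟩
  · rw [← (hT0 p hp).2]
    exact (ENNReal.ofReal_toReal (hT0 p hp).1).symm
  · refine net_id S (hG p hp).x_pos (hD p hp) (hT0 p hp).1 (hNet p hp) ?_
    intro ε hε
    obtain ⟨p', hp', c1, c2, c3, c4, c5⟩ := hC p hp ε hε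
    exact ⟨_, _, (hG p' hp').x_pos, c1, by linarith [hD p' hp'], c3, c2, hNet p' hp'⟩

/-- A subcritical point of the curve is the point `PX`. -/
theorem ident_PX (S : Sys2) {p : ℝ × ℝ × ℝ × ℝ} (hp : SubP p)
    (hM : pM p.1 p.2.1 p.2.2.1 p.2.2.2 = 0)
    (hr : ser2 S.rc (.ofReal (px p.1 p.2.1 p.2.2.1 p.2.2.2))
      (.ofReal (pD p.1 p.2.1 p.2.2.1 p.2.2.2)) = .ofReal (pA p.1 p.2.1 p.2.2.1 p.2.2.2))
    (hDg : S.Dg (.ofReal (px p.1 p.2.1 p.2.2.1 p.2.2.2)) =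
      .ofReal (pD p.1 p.2.1 p.2.2.1 p.2.2.2)) :
    Dr S (px p.1 p.2.1 p.2.2.1 p.2.2.2) = pD p.1 p.2.1 p.2.2.1 p.2.2.2 ∧
    PX S (px p.1 p.2.1 p.2.2.1 p.2.2.2) (pD p.1 p.2.1 p.2.2.1 p.2.2.2) = p := by
  have hDpos := pD_pos S.toSys hp.toGood hp.y_pos
  obtain ⟨v1, v2, v3, v4, v5⟩ := S.toSys.vals hp.toGood hDpos.le
  have har : ar S (px p.1 p.2.1 p.2.2.1 p.2.2.2) (pD p.1 p.2.1 p.2.2.1 p.2.2.2) =
      pA p.1 p.2.1 p.2.2.1 p.2.2.2 := by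
    unfold ar
    rw [hr, ENNReal.toReal_ofReal v3]
  refine ⟨?_, ?_⟩
  · unfold Dr
    rw [hDg, ENNReal.toReal_ofReal hDpos.le]
  · unfold PX
    refine PP_eq S.toSys hp ?_
    unfold Th qp tr
    rw [har]
    have : pT p.1 p.2.1 p.2.2.1 p.2.2.2 = Real.exp (pA p.1 p.2.1 p.2.2.1 p.2.2.2) - 1 -
        pA p.1 p.2.1 p.2.2.1 p.2.2.2 := by
      unfold pM at hM
      linarith
    rw [this]

end K5P
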