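import Pool.Agent.Lib.K5N.CL

/-!
# K5P.Op : the parametrisation `(r, s, y, t) ↦ (x, D, T)` is a local diffeomorphism

At a strictly subcritical point `P0` of `{pb = 1}` whose image `(x, D, T)` is an interior point of
the region where the core series are finite, the map `(px, pb, pD, pT)` has an invertible
derivative: the curve in `{px = x, pb = 1}` in the direction of a kernel vector consists of
admissible points, and on them `(y, t)` is a differentiable function of `(pD, pT)`.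
-/

namespace K5P

open scoped ENNReal Topology
open K5N K5N.CL

noncomputable section

/-- the space of the parameters `(r, s, y, t)` -/
abbrev E4 := ℝ × ℝ × ℝ × ℝ

/-- `px, pb, pD, pT` -/
def psi (p : E4) : E4 :=
  (px p.1 p.2.1 p.2.2.1 p.2.2.2, pb p.1 p.2.1 p.2.2.1 p.2.2.2, pD p.1 p.2.1 p.2.2.1 p.2.2.2,
    pT p.1 p.2.1 p.2.2.1 p.2.2.2)

/-- `px, pb, y, t` -/
def Psi (p : E4) : E4 :=
  (px p.1 p.2.1 p.2.2.1 p.2.2.2, pb p.1 p.2.1 p.2.2.1 p.2.2.2, p.2.2.1, p.2.2.2)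

/-- `Good` for a point -/
abbrev GoodP (p : E4) : Prop := Good p.1 p.2.1 p.2.2.1 p.2.2.2

/-- strictly subcritical, with positive weights -/
structure Int (p : E4) : Prop where
  good : GoodP p
  y_pos : 0 < p.2.2.1
  t_pos : 0 < p.2.2.2
  j_pos : 0 < pj p.1 p.2.1 p.2.2.1 p.2.2.2
  str : 4 * p.1 * p.2.1 * (p.2.2.1 + 3 * p.2.2.2 * (p.1 + p.2.1)) ^ 2 <
    pj p.1 p.2.1 p.2.2.1 p.2.2.2 ^ 2

/-- Inverse function theorem in finite dimension, from injectivity of the derivative. -/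
theorem exists_inv {E : Type*} [NormedAddCommGroup E] [NormedSpace ℝ E] [FiniteDimensional ℝ E]
    {f : E → E} {a : E} {n : WithTop ℕ∞} (hf : ContDiffAt ℝ n f a) (hn : n ≠ 0)
    (hinj : ∀ v, fderiv ℝ f a v = 0 → v = 0) :
    ∃ g : E → E, ContDiffAt ℝ n g (f a) ∧ g (f a) = a ∧ (∀ᶠ q in 𝓝 (f a), f (g q) = q) ∧
      (∀ᶠ p in 𝓝 a, g (f p) = p) := by
  have : CompleteSpace E := FiniteDimensional.complete ℝ E
  have hi : Function.Injective (fderiv ℝ f a).toLinearMap := by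
    intro u v huv
    have : fderiv ℝ f a (u - v) = 0 := by
      rw [map_sub, sub_eq_zero]; exact huv
    exact sub_eq_zero.1 (hinj _ this)
  set e := (LinearEquiv.ofInjectiveEndo (fderiv ℝ f a).toLinearMap hi).toContinuousLinearEquiv
  have he : (e : E →L[ℝ] E) = fderiv ℝ f a := by
    ext v; rfl
  have hd : HasFDerivAt f (e : E →L[ℝ] E) a := by
    rw [he]; exact (hf.differentiableAt (by
      intro h; exact hn (by simpa using h))).hasFDerivAt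
  refine ⟨hf.localInverse hd hn, hf.to_localInverse hd hn, hf.localInverse_apply_image hd hn,
    ?_, ?_⟩
  · exact (hf.hasStrictFDerivAt' hd hn).eventually_right_inverse
  · exact (hf.hasStrictFDerivAt' hd hn).eventually_left_inverse

/-! ### Smoothness -/

section smooth

variable {n : WithTop ℕ∞}

theorem cd_px : ContDiff ℝ n (fun p : E4 => px p.1 p.2.1 p.2.2.1 p.2.2.2) := by
  unfold px; fun_prop
theorem cd_pb : ContDiff ℝ n (fun p : E4 => pb p.1 p.2.1 p.2.2.1 p.2.2.2) := by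
  unfold pb; fun_prop
theorem cd_pj : ContDiff ℝ n (fun p : E4 => pj p.1 p.2.1 p.2.2.1 p.2.2.2) := by
  unfold pj; fun_prop
theorem cd_pw1 : ContDiff ℝ n (fun p : E4 => pw1 p.1 p.2.1 p.2.2.1 p.2.2.2) := by
  unfold pw1; fun_prop
theorem cd_pw2 : ContDiff ℝ n (fun p : E4 => pw2 p.1 p.2.1 p.2.2.1 p.2.2.2) := by
  unfold pw2; fun_prop
theorem cd_pw3 : ContDiff ℝ n (fun p : E4 => pw3 p.1 p.2.1 p.2.2.1 p.2.2.2) := by
  unfold pw3; fun_prop

variable {p : E4}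

theorem cd_pkap (hx : px p.1 p.2.1 p.2.2.1 p.2.2.2 ≠ 0) :
    ContDiffAt ℝ n (fun p : E4 => pkap p.1 p.2.1 p.2.2.1 p.2.2.2) p := by
  unfold pkap
  exact (cd_pw1.contDiffAt).div (cd_px.contDiffAt) hx

theorem cd_pT (hx : px p.1 p.2.1 p.2.2.1 p.2.2.2 ≠ 0) :
    ContDiffAt ℝ n (fun p : E4 => pT p.1 p.2.1 p.2.2.1 p.2.2.2) p := by
  unfold pT
  exact ContDiffAt.mul (by fun_prop) ((cd_pkap hx).pow 3)

theorem cd_pD (hx : px p.1 p.2.1 p.2.2.1 p.2.2.2 ≠ 0) (hk : pkap p.1 p.2.1 p.2.2.1 p.2.2.2 ≠ 0) :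
    ContDiffAt ℝ n (fun p : E4 => pD p.1 p.2.1 p.2.2.1 p.2.2.2) p := by
  unfold pD
  exact (((cd_pw2.contDiffAt).div ((cd_pkap hx).pow 2) (pow_ne_zero _ hk)).sub
    (cd_px.contDiffAt)).div ((cd_px.contDiffAt).pow 2) (pow_ne_zero _ hx) |>.sub contDiffAt_const

theorem cd_psi (hx : px p.1 p.2.1 p.2.2.1 p.2.2.2 ≠ 0) (hk : pkap p.1 p.2.1 p.2.2.1 p.2.2.2 ≠ 0) :
    ContDiffAt ℝ n psi p := by
  unfold psi
  exact (cd_px.contDiffAt).prodMk ((cd_pb.contDiffAt).prodMk ((cd_pD hx hk).prodMk (cd_pT hx)))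

theorem cd_Psi : ContDiff ℝ n Psi := by
  unfold Psi
  exact cd_px.prodMk (cd_pb.prodMk (by fun_prop))

end smooth

/-! ### The first two components -/

theorem line {f : E4 → ℝ} {p : E4} (h : DifferentiableAt ℝ f p) (v : E4) :
    HasDerivAt (fun τ : ℝ => f (p + τ • v)) (fderiv ℝ f p v) 0 := by
  have h1 : HasDerivAt (fun τ : ℝ => p + τ • v) v 0 := by
    have := ((hasDerivAt_id (0 : ℝ)).smul_const v).const_add p
    simpa using this
  have h2 : HasFDerivAt f (fderiv ℝ f p) (p + (0 : ℝ) • v) := by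
    rw [zero_smul, add_zero]
    exact h.hasFDerivAt
  exact h2.comp_hasDerivAt 0 h1

theorem lines (p v : E4) : HasDerivAt (fun τ : ℝ => (p + τ • v).1) v.1 0 ∧
    HasDerivAt (fun τ : ℝ => (p + τ • v).2.1) v.2.1 0 ∧
    HasDerivAt (fun τ : ℝ => (p + τ • v).2.2.1) v.2.2.1 0 ∧
    HasDerivAt (fun τ : ℝ => (p + τ • v).2.2.2) v.2.2.2 0 := by
  refine ⟨?_, ?_, ?_, ?_⟩
  · have := ((hasDerivAt_id (0 : ℝ)).mul_const v.1).const_add p.1
    simpa using this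
  · have := ((hasDerivAt_id (0 : ℝ)).mul_const v.2.1).const_add p.2.1
    simpa using this
  · have := ((hasDerivAt_id (0 : ℝ)).mul_const v.2.2.1).const_add p.2.2.1
    simpa using this
  · have := ((hasDerivAt_id (0 : ℝ)).mul_const v.2.2.2).const_add p.2.2.2
    simpa using this

theorem fd_px (p v : E4) :
    fderiv ℝ (fun p : E4 => px p.1 p.2.1 p.2.2.1 p.2.2.2) p v =
      pj p.1 p.2.1 p.2.2.1 p.2.2.2 * v.1
        - 2 * p.1 * (p.2.2.1 + 3 * p.2.2.2 * (p.1 + p.2.1)) * v.2.1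
        + (- (p.1 * (p.1 + 2 * p.2.1))) * v.2.2.1
        + (- (p.1 * (p.1 ^ 2 + 6 * p.1 * p.2.1 + 3 * p.2.1 ^ 2))) * v.2.2.2 := by
  have hl := line ((cd_px (n := 1)).differentiable (by simp) p) v
  obtain ⟨a1, a2, a3, a4⟩ := lines p v
  have h := (a1.sub ((a3.mul a1).mul (a1.add (a2.const_mul 2)))).sub
    ((a4.mul a1).mul (((a1.pow 2).add ((a1.const_mul 6).mul a2)).add ((a2.pow 2).const_mul 3)))
  refine hl.unique (h.congr_deriv ?_)
  simp only [zero_smul, add_zero, pj]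
  simp
  ring

theorem fd_pb (p v : E4) :
    fderiv ℝ (fun p : E4 => pb p.1 p.2.1 p.2.2.1 p.2.2.2) p v =
      pj p.1 p.2.1 p.2.2.1 p.2.2.2 * v.2.1
        - 2 * p.2.1 * (p.2.2.1 + 3 * p.2.2.2 * (p.1 + p.2.1)) * v.1
        + (- (p.2.1 * (p.2.1 + 2 * p.1))) * v.2.2.1
        + (- (p.2.1 * (p.2.1 ^ 2 + 6 * p.1 * p.2.1 + 3 * p.1 ^ 2))) * v.2.2.2 := by
  have hl := line ((cd_pb (n := 1)).differentiable (by simp) p) v
  obtain ⟨a1, a2, a3, a4⟩ := lines p v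
  have h := (a2.sub ((a3.mul a2).mul (a2.add (a1.const_mul 2)))).sub
    ((a4.mul a2).mul (((a2.pow 2).add ((a1.const_mul 6).mul a2)).add ((a1.pow 2).const_mul 3)))
  refine hl.unique (h.congr_deriv ?_)
  simp only [zero_smul, add_zero, pj]
  simp
  ring

theorem fd_Psi (p v : E4) : fderiv ℝ Psi p v =
    (fderiv ℝ (fun p : E4 => px p.1 p.2.1 p.2.2.1 p.2.2.2) p v,
      fderiv ℝ (fun p : E4 => pb p.1 p.2.1 p.2.2.1 p.2.2.2) p v, v.2.2.1, v.2.2.2) := by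
  have h1 := ((cd_px (n := 1)).differentiable (by simp) p).hasFDerivAt
  have h2 := ((cd_pb (n := 1)).differentiable (by simp) p).hasFDerivAt
  have h3 : HasFDerivAt (fun p : E4 => p.2.2.1)
      ((ContinuousLinearMap.fst ℝ ℝ ℝ).comp ((ContinuousLinearMap.snd ℝ ℝ (ℝ × ℝ)).comp
        (ContinuousLinearMap.snd ℝ ℝ (ℝ × ℝ × ℝ)))) p :=
    ((ContinuousLinearMap.fst ℝ ℝ ℝ).comp ((ContinuousLinearMap.snd ℝ ℝ (ℝ × ℝ)).comp
        (ContinuousLinearMap.snd ℝ ℝ (ℝ × ℝ × ℝ)))).hasFDerivAt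
  have h4 : HasFDerivAt (fun p : E4 => p.2.2.2)
      ((ContinuousLinearMap.snd ℝ ℝ ℝ).comp ((ContinuousLinearMap.snd ℝ ℝ (ℝ × ℝ)).comp
        (ContinuousLinearMap.snd ℝ ℝ (ℝ × ℝ × ℝ)))) p :=
    ((ContinuousLinearMap.snd ℝ ℝ ℝ).comp ((ContinuousLinearMap.snd ℝ ℝ (ℝ × ℝ)).comp
        (ContinuousLinearMap.snd ℝ ℝ (ℝ × ℝ × ℝ)))).hasFDerivAt
  have h := h1.prodMk (h2.prodMk (h3.prodMk h4))
  have e : fderiv ℝ Psi p = _ := HasFDerivAt.fderiv h
  rw [e]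
  rfl

/-- `D (px, pb, y, t)` is injective where `Δ ≠ 0`. -/
theorem Psi_inj {p : E4} (hd : 4 * p.1 * p.2.1 * (p.2.2.1 + 3 * p.2.2.2 * (p.1 + p.2.1)) ^ 2 <
    pj p.1 p.2.1 p.2.2.1 p.2.2.2 ^ 2) (v : E4) (h : fderiv ℝ Psi p v = 0) : v = 0 := by
  rw [fd_Psi, Prod.mk_eq_zero, Prod.mk_eq_zero, Prod.mk_eq_zero] at h
  obtain ⟨h1, h2, h3, h4⟩ := h
  rw [fd_px, h3, h4] at h1
  rw [fd_pb, h3, h4] at h2
  set c := p.2.2.1 + 3 * p.2.2.2 * (p.1 + p.2.1)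
  set j := pj p.1 p.2.1 p.2.2.1 p.2.2.2
  have hd' : j ^ 2 - 4 * p.1 * p.2.1 * c ^ 2 ≠ 0 := by
    intro h0; linarith
  have e1 : (j ^ 2 - 4 * p.1 * p.2.1 * c ^ 2) * v.1 = 0 := by
    linear_combination j * h1 + 2 * p.1 * c * h2
  have e2 : (j ^ 2 - 4 * p.1 * p.2.1 * c ^ 2) * v.2.1 = 0 := by
    linear_combination j * h2 + 2 * p.2.1 * c * h1
  have f1 : v.1 = 0 := (mul_eq_zero.1 e1).resolve_left hd'
  have f2 : v.2.1 = 0 := (mul_eq_zero.1 e2).resolve_left hd'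
  ext <;> simp_all

/-! ### The inverse on the admissible points -/

theorem pkap_eq {r s y t : ℝ} (hx : px r s y t ≠ 0) (hk : pkap r s y t ≠ 0)
    (hb : pb r s y t = 1) :
    pkap r s y t = 1 + (pY r s y t - 2 * pT r s y t) * (1 + px r s y t * (1 + pD r s y t)) +
      pT r s y t * (1 + 3 * px r s y t * (1 + pD r s y t) + px r s y t ^ 2 * pN r s y t) := by
  have e1 : pw1 r s y t = px r s y t * pb r s y t + y * pw2 r s y t + t * pw3 r s y t := by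
    unfold pw1 px pb pw2 pw3; ring
  rw [hb, mul_one] at e1
  have e2 : pkap r s y t * px r s y t = px r s y t + y * pw2 r s y t + t * pw3 r s y t := by
    rw [← e1]; unfold pkap; field_simp
  have e3 : pw2 r s y t = pkap r s y t ^ 2 * (px r s y t + px r s y t ^ 2 * (1 + pD r s y t)) := by
    unfold pD; field_simp; ring
  have e4 : pw3 r s y t = pkap r s y t ^ 3 * (px r s y t + 3 * px r s y t ^ 2 * (1 + pD r s y t) +
      px r s y t ^ 3 * pN r s y t) := by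
    unfold pN; field_simp; ring
  have e5 : pY r s y t - 2 * pT r s y t = y * pkap r s y t ^ 2 := by unfold pY; ring
  have e6 : pT r s y t = t * pkap r s y t ^ 3 := rfl
  rw [e5, e6]
  have h : pkap r s y t * px r s y t = (1 + y * pkap r s y t ^ 2 * (1 + px r s y t * (1 + pD r s y t))
      + t * pkap r s y t ^ 3 * (1 + 3 * px r s y t * (1 + pD r s y t) + px r s y t ^ 2 * pN r s y t))
      * px r s y t := by
    rw [e2, e3, e4]; ring
  exact mul_right_cancel₀ hx h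

theorem of_good (S : Sys) {r s y t : ℝ} (h : Good r s y t) (hD : 0 ≤ pD r s y t) :
    Yf S (px r s y t) (pD r s y t, pT r s y t) = pY r s y t ∧
    kf S (px r s y t) (pD r s y t, pT r s y t) = pkap r s y t ∧
    yf S (px r s y t) (pD r s y t, pT r s y t) = y ∧
    tf S (px r s y t) (pD r s y t, pT r s y t) = t := by
  obtain ⟨hk, h1, h2⟩ := S.hAS r s y t h
  obtain ⟨e1, e2⟩ := on_curve h.x_pos (pY_nonneg h hk) (pT_nonneg h hk) hD h1 h2
    (pkap_eq h.x_pos.ne' hk.ne' h.b_eq)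
  refine ⟨e1, e2, ?_, ?_⟩
  · unfold yf
    rw [e1, e2]
    simp only [pY]
    field_simp
    ring
  · unfold tf
    rw [e2]
    simp only [pT]
    field_simp

/-- Strictly subcritical points: an open condition on `{px > 0, pb = 1}`. -/
theorem Int.near {p0 : E4} (h : Int p0) :
    ∀ᶠ p in 𝓝 p0, pb p.1 p.2.1 p.2.2.1 p.2.2.2 = 1 → Int p := by
  have c1 : ∀ᶠ p : E4 in 𝓝 p0, 0 < p.1 :=
    continuous_fst.continuousAt.eventually (lt_mem_nhds h.good.r_pos)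
  have c2 : ∀ᶠ p : E4 in 𝓝 p0, 0 < p.2.1 :=
    (by fun_prop : Continuous fun p : E4 => p.2.1).continuousAt.eventually
      (lt_mem_nhds h.good.s_pos)
  have c3 : ∀ᶠ p : E4 in 𝓝 p0, 0 < p.2.2.1 :=
    (by fun_prop : Continuous fun p : E4 => p.2.2.1).continuousAt.eventually
      (lt_mem_nhds h.y_pos)
  have c4 : ∀ᶠ p : E4 in 𝓝 p0, 0 < p.2.2.2 :=
    (by fun_prop : Continuous fun p : E4 => p.2.2.2).continuousAt.eventually
      (lt_mem_nhds h.t_pos)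
  have c5 : ∀ᶠ p : E4 in 𝓝 p0, 0 < px p.1 p.2.1 p.2.2.1 p.2.2.2 :=
    (cd_px (n := 0)).continuous.continuousAt.eventually (lt_mem_nhds h.good.x_pos)
  have c6 : ∀ᶠ p : E4 in 𝓝 p0, 0 < pj p.1 p.2.1 p.2.2.1 p.2.2.2 :=
    (cd_pj (n := 0)).continuous.continuousAt.eventually (lt_mem_nhds h.j_pos)
  have c7 : ∀ᶠ p : E4 in 𝓝 p0, 0 < pj p.1 p.2.1 p.2.2.1 p.2.2.2 ^ 2 -
      4 * p.1 * p.2.1 * (p.2.2.1 + 3 * p.2.2.2 * (p.1 + p.2.1)) ^ 2 := by
    have hc : Continuous fun p : E4 => pj p.1 p.2.1 p.2.2.1 p.2.2.2 ^ 2 -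
      4 * p.1 * p.2.1 * (p.2.2.1 + 3 * p.2.2.2 * (p.1 + p.2.1)) ^ 2 :=
      ((cd_pj (n := 0)).continuous.pow 2).sub (by fun_prop)
    exact hc.continuousAt.eventually (lt_mem_nhds (sub_pos.2 h.str))
  filter_upwards [c1, c2, c3, c4, c5, c6, c7] with p h1 h2 h3 h4 h5 h6 h7 hb
  exact ⟨⟨h1, h2, h3.le, h4.le, h5, hb, h6.le, (sub_pos.1 h7).le⟩, h3, h4, h6, sub_pos.1 h7⟩

/-- Injectivity of the derivative of `psi`. -/
theorem psi_inj (S : Sys) {p : E4} (h : Int p) (hD : 0 < pD p.1 p.2.1 p.2.2.1 p.2.2.2)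
    {z1 t1 : ℝ} (hz : pD p.1 p.2.1 p.2.2.1 p.2.2.2 < z1) (ht : pT p.1 p.2.1 p.2.2.1 p.2.2.2 < t1)
    (hK : ser S.kc (.ofReal (px p.1 p.2.1 p.2.2.1 p.2.2.2)) (.ofReal z1) (.ofReal (1 + z1))
      (.ofReal t1) ≠ ∞)
    (hA : ser S.ac (.ofReal (px p.1 p.2.1 p.2.2.1 p.2.2.2)) (.ofReal z1) (.ofReal (1 + z1))
      (.ofReal t1) ≠ ∞)
    (v : E4) (hv : fderiv ℝ psi p v = 0) : v = 0 := by
  obtain ⟨hk, -, -⟩ := S.hAS _ _ _ _ h.good
  have hx0 : 0 < px p.1 p.2.1 p.2.2.1 p.2.2.2 := h.good.x_pos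
  set x := px p.1 p.2.1 p.2.2.1 p.2.2.2 with hxdef
  -- the components of the derivative
  have dx := ((cd_px (n := 1)).differentiable (by simp) p)
  have db := ((cd_pb (n := 1)).differentiable (by simp) p)
  have dD := (cd_pD (n := 1) hx0.ne' hk.ne').differentiableAt (by simp)
  have dT := (cd_pT (p := p) (n := 1) hx0.ne').differentiableAt (by simp)
  have hcomp : fderiv ℝ psi p v = (fderiv ℝ (fun p : E4 => px p.1 p.2.1 p.2.2.1 p.2.2.2) p v,
      fderiv ℝ (fun p : E4 => pb p.1 p.2.1 p.2.2.1 p.2.2.2) p v,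
      fderiv ℝ (fun p : E4 => pD p.1 p.2.1 p.2.2.1 p.2.2.2) p v,
      fderiv ℝ (fun p : E4 => pT p.1 p.2.1 p.2.2.1 p.2.2.2) p v) := by
    have h := dx.hasFDerivAt.prodMk (db.hasFDerivAt.prodMk (dD.hasFDerivAt.prodMk dT.hasFDerivAt))
    have e : fderiv ℝ psi p = _ := HasFDerivAt.fderiv h
    rw [e]
    rfl
  rw [hcomp, Prod.mk_eq_zero, Prod.mk_eq_zero, Prod.mk_eq_zero] at hv
  obtain ⟨v1, v2, v3, v4⟩ := hv
  -- the local inverse of `Psi`
  obtain ⟨g, hg, hg0, hgr, -⟩ := exists_inv (cd_Psi (n := 1)).contDiffAt (by simp) (Psi_inj h.str)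
  have hgr' := hgr
  have hgd : HasFDerivAt g (fderiv ℝ g (Psi p)) (Psi p) :=
    (hg.differentiableAt (by simp)).hasFDerivAt
  set w : E4 := (0, 0, v.2.2.1, v.2.2.2) with hw
  have hlinew : HasDerivAt (fun τ : ℝ => Psi p + τ • w) w 0 := by
    have := ((hasDerivAt_id (0 : ℝ)).smul_const w).const_add (Psi p)
    simpa using this
  have hPw : fderiv ℝ Psi p v = w := by rw [fd_Psi, v1, v2]
  set c : ℝ → E4 := fun τ => g (Psi p + τ • w) with hc
  have hc0 : c 0 = p := by simp only [hc, zero_smul, add_zero, hg0]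
  -- the derivative of the curve
  have hcd : HasDerivAt c v 0 := by
    have h1 : HasDerivAt c (fderiv ℝ g (Psi p) w) 0 := by
      have : HasFDerivAt g (fderiv ℝ g (Psi p)) (Psi p + (0 : ℝ) • w) := by
        rw [zero_smul, add_zero]; exact hgd
      exact this.comp_hasDerivAt 0 hlinew
    have h2 : fderiv ℝ Psi p (fderiv ℝ g (Psi p) w) = w := by
      have e1 : HasFDerivAt Psi (fderiv ℝ Psi p) (g (Psi p)) := by
        rw [hg0]
        exact ((cd_Psi (n := 1)).differentiable (by simp) p).hasFDerivAt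
      have e2 : HasFDerivAt (fun q => Psi (g q)) ((fderiv ℝ Psi p).comp (fderiv ℝ g (Psi p)))
        (Psi p) := e1.comp _ hgd
      have e3 : HasFDerivAt (fun q : E4 => q) ((fderiv ℝ Psi p).comp (fderiv ℝ g (Psi p)))
          (Psi p) := e2.congr_of_eventuallyEq (hgr.mono fun q hq => hq.symm)
      have e4 := e3.unique (hasFDerivAt_id (Psi p))
      have := congrArg (fun L : E4 →L[ℝ] E4 => L w) e4
      simpa using this
    have h3 : fderiv ℝ g (Psi p) w = v := by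
      have : fderiv ℝ g (Psi p) w - v = 0 := by
        apply Psi_inj h.str
        rw [map_sub, h2, hPw, sub_self]
      exact sub_eq_zero.1 this
    rwa [h3] at h1
  have hcc : Filter.Tendsto c (𝓝 0) (𝓝 p) := by
    have := hcd.continuousAt.tendsto
    rwa [hc0] at this
  -- the curve stays in the admissible set
  have hev : ∀ᶠ τ in 𝓝 (0 : ℝ), px (c τ).1 (c τ).2.1 (c τ).2.2.1 (c τ).2.2.2 = x ∧
      pb (c τ).1 (c τ).2.1 (c τ).2.2.1 (c τ).2.2.2 = 1 ∧ (c τ).2.2.1 = p.2.2.1 + τ * v.2.2.1 ∧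
      (c τ).2.2.2 = p.2.2.2 + τ * v.2.2.2 := by
    have ht : Filter.Tendsto (fun τ : ℝ => Psi p + τ • w) (𝓝 0) (𝓝 (Psi p)) := by
      have := hlinew.continuousAt.tendsto
      simpa using this
    filter_upwards [ht.eventually hgr] with τ hτ
    have e1 := congrArg Prod.fst hτ
    have e2 := congrArg (fun q : E4 => q.2.1) hτ
    have e3 := congrArg (fun q : E4 => q.2.2.1) hτ
    have e4 := congrArg (fun q : E4 => q.2.2.2) hτ
    refine ⟨?_, ?_, ?_, ?_⟩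
    · refine (show px (c τ).1 (c τ).2.1 (c τ).2.2.1 (c τ).2.2.2 =
        (Psi p + τ • w).1 from e1).trans ?_
      simp [hw, Psi, hxdef]
    · refine (show pb (c τ).1 (c τ).2.1 (c τ).2.2.1 (c τ).2.2.2 =
        (Psi p + τ • w).2.1 from e2).trans ?_
      simp [hw, Psi, h.good.b_eq]
    · refine (show (c τ).2.2.1 = (Psi p + τ • w).2.2.1 from e3).trans ?_
      simp [hw, Psi]
    · refine (show (c τ).2.2.2 = (Psi p + τ • w).2.2.2 from e4).trans ?_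
      simp [hw, Psi]
  set q : ℝ × ℝ := (pD p.1 p.2.1 p.2.2.1 p.2.2.2, pT p.1 p.2.1 p.2.2.1 p.2.2.2) with hq
  have hT0 : 0 < pT p.1 p.2.1 p.2.2.1 p.2.2.2 := mul_pos h.t_pos (pow_pos hk 3)
  have dK : DifferentiableAt ℝ (KK S x) q := ser_diff S.kc hx0 hD hz hT0 ht hK
  have dA : DifferentiableAt ℝ (AA S x) q := ser_diff S.ac hx0 hD hz hT0 ht hA
  obtain ⟨eY, ek, ey, et⟩ := of_good S h.good hD.le
  obtain ⟨-, -, dyf, dtf⟩ := diffs hx0 hD dK dA (by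
    show kf S x q ≠ 0
    rw [hq, hxdef, ek]; exact hk.ne')
  -- the image curve
  have hD' : ∀ᶠ p' : E4 in 𝓝 p, 0 < pD p'.1 p'.2.1 p'.2.2.1 p'.2.2.2 :=
    (cd_pD (n := 1) hx0.ne' hk.ne').continuousAt.eventually (lt_mem_nhds hD)
  have hq' : HasDerivAt (fun τ : ℝ => (pD (c τ).1 (c τ).2.1 (c τ).2.2.1 (c τ).2.2.2,
      pT (c τ).1 (c τ).2.1 (c τ).2.2.1 (c τ).2.2.2)) ((0 : ℝ), (0 : ℝ)) 0 := by
    have e1 : HasDerivAt (fun τ : ℝ => pD (c τ).1 (c τ).2.1 (c τ).2.2.1 (c τ).2.2.2) 0 0 := by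
      have : HasFDerivAt (fun p : E4 => pD p.1 p.2.1 p.2.2.1 p.2.2.2)
          (fderiv ℝ (fun p : E4 => pD p.1 p.2.1 p.2.2.1 p.2.2.2) p) (c 0) := by
        rw [hc0]; exact dD.hasFDerivAt
      have h2 := this.comp_hasDerivAt 0 hcd
      rwa [v3] at h2
    have e2 : HasDerivAt (fun τ : ℝ => pT (c τ).1 (c τ).2.1 (c τ).2.2.1 (c τ).2.2.2) 0 0 := by
      have : HasFDerivAt (fun p : E4 => pT p.1 p.2.1 p.2.2.1 p.2.2.2)
          (fderiv ℝ (fun p : E4 => pT p.1 p.2.1 p.2.2.1 p.2.2.2) p) (c 0) := by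
        rw [hc0]; exact dT.hasFDerivAt
      have h2 := this.comp_hasDerivAt 0 hcd
      rwa [v4] at h2
    exact e1.prodMk e2
  have hgood : ∀ᶠ τ in 𝓝 (0 : ℝ), yf S x (pD (c τ).1 (c τ).2.1 (c τ).2.2.1 (c τ).2.2.2,
      pT (c τ).1 (c τ).2.1 (c τ).2.2.1 (c τ).2.2.2) = p.2.2.1 + τ * v.2.2.1 ∧
      tf S x (pD (c τ).1 (c τ).2.1 (c τ).2.2.1 (c τ).2.2.2,
      pT (c τ).1 (c τ).2.1 (c τ).2.2.1 (c τ).2.2.2) = p.2.2.2 + τ * v.2.2.2 := by
    filter_upwards [hev, hcc.eventually h.near, hcc.eventually hD'] with τ h1 h2 h3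
    obtain ⟨a1, a2, a3, a4⟩ := h1
    obtain ⟨-, -, b3, b4⟩ := of_good S (h2 a2).good h3.le
    rw [a1] at b3 b4
    rw [b3, b4]
    exact ⟨a3, a4⟩
  have fy : v.2.2.1 = 0 := by
    have e1 : HasDerivAt (fun τ : ℝ => yf S x (pD (c τ).1 (c τ).2.1 (c τ).2.2.1 (c τ).2.2.2,
      pT (c τ).1 (c τ).2.1 (c τ).2.2.1 (c τ).2.2.2)) 0 0 := by
      have : HasFDerivAt (yf S x) (fderiv ℝ (yf S x) q) (pD (c 0).1 (c 0).2.1 (c 0).2.2.1
        (c 0).2.2.2, pT (c 0).1 (c 0).2.1 (c 0).2.2.1 (c 0).2.2.2) := by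
        rw [hc0]; exact dyf.hasFDerivAt
      have h2 := this.comp_hasDerivAt 0 hq'
      rwa [show fderiv ℝ (yf S x) q (0, 0) = 0 from map_zero _] at h2
    have e2 : HasDerivAt (fun τ : ℝ => p.2.2.1 + τ * v.2.2.1) v.2.2.1 0 := by
      have := ((hasDerivAt_id (0 : ℝ)).mul_const v.2.2.1).const_add p.2.2.1
      simpa using this
    exact (e2.congr_of_eventuallyEq (hgood.mono fun τ hτ => hτ.1)).unique e1
  have ft : v.2.2.2 = 0 := by
    have e1 : HasDerivAt (fun τ : ℝ => tf S x (pD (c τ).1 (c τ).2.1 (c τ).2.2.1 (c τ).2.2.2,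
      pT (c τ).1 (c τ).2.1 (c τ).2.2.1 (c τ).2.2.2)) 0 0 := by
      have : HasFDerivAt (tf S x) (fderiv ℝ (tf S x) q) (pD (c 0).1 (c 0).2.1 (c 0).2.2.1
        (c 0).2.2.2, pT (c 0).1 (c 0).2.1 (c 0).2.2.1 (c 0).2.2.2) := by
        rw [hc0]; exact dtf.hasFDerivAt
      have h2 := this.comp_hasDerivAt 0 hq'
      rwa [show fderiv ℝ (tf S x) q (0, 0) = 0 from map_zero _] at h2
    have e2 : HasDerivAt (fun τ : ℝ => p.2.2.2 + τ * v.2.2.2) v.2.2.2 0 := by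
      have := ((hasDerivAt_id (0 : ℝ)).mul_const v.2.2.2).const_add p.2.2.2
      simpa using this
    exact (e2.congr_of_eventuallyEq (hgood.mono fun τ hτ => hτ.2)).unique e1
  apply Psi_inj h.str
  rw [hPw, hw, fy, ft]
  rfl

/-- The local inverse of `(px, pb, pD, pT)` at a strictly subcritical point. -/
theorem local_inv (S : Sys) {p : E4} (h : Int p) (hD : 0 < pD p.1 p.2.1 p.2.2.1 p.2.2.2)
    {z1 t1 : ℝ} (hz : pD p.1 p.2.1 p.2.2.1 p.2.2.2 < z1) (ht : pT p.1 p.2.1 p.2.2.1 p.2.2.2 < t1)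
    (hK : ser S.kc (.ofReal (px p.1 p.2.1 p.2.2.1 p.2.2.2)) (.ofReal z1) (.ofReal (1 + z1))
      (.ofReal t1) ≠ ∞)
    (hA : ser S.ac (.ofReal (px p.1 p.2.1 p.2.2.1 p.2.2.2)) (.ofReal z1) (.ofReal (1 + z1))
      (.ofReal t1) ≠ ∞) (n : WithTop ℕ∞) (hn : n ≠ 0) :
    ∃ g : E4 → E4, ContDiffAt ℝ n g (psi p) ∧ g (psi p) = p ∧
      (∀ᶠ q in 𝓝 (psi p), psi (g q) = q ∧ (q.2.1 = 1 → Int (g q))) ∧
      (∀ᶠ p' in 𝓝 p, g (psi p') = p') := by
  obtain ⟨hk, -, -⟩ := S.hAS _ _ _ _ h.good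
  obtain ⟨g, hg, hg0, hgr, hgl⟩ := exists_inv (cd_psi (n := n) h.good.x_pos.ne' hk.ne') hn
    (psi_inj S h hD hz ht hK hA)
  refine ⟨g, hg, hg0, ?_, hgl⟩
  have hc : Filter.Tendsto g (𝓝 (psi p)) (𝓝 p) := by
    have := hg.continuousAt.tendsto
    rwa [hg0] at this
  filter_upwards [hgr, hc.eventually h.near] with q h1 h2
  refine ⟨h1, fun h3 => h2 ?_⟩
  have := congrArg (fun q : E4 => q.2.1) h1
  exact this.trans h3

end

end K5P
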