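import Pool.Agent.Lib.K5P.PDefs

/-!
# K5P.PConc : concavity of `Y'`

PROOFS. `ser_conv`: by monotonicity (`ser_mono`) we may assume equality in `hz`, `hT`. Term by term: the functions `z_u ^ j`, `(1 + z_u) ^ k`, `T_u ^ l` of `u ∈ [0, 1]` are nonnegative, nondecreasing and convex, so their product is convex
(`ConvexOn.mul`, or directly: for `0 ≤ a0 ≤ a1`, `0 ≤ b0 ≤ b1` and `a ≤ (1 - u) a0 + u a1`, `b ≤ (1 - u) b0 + u b1`: `a b ≤ (1 - u) a0 b0 + u a1 b1`, because `((1 - u) a0 + u a1)((1 - u) b0 + u b1) = (1 - u) a0 b0 + u a1 b1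
- u (1 - u)(a1 - a0)(b1 - b0)`; induction for powers). Sum over the terms: in `ENNReal` with `ENNReal.ofReal (1 - u)`, `ENNReal.ofReal u` as factors, then `toReal` (all finite by `hfin` and monotonicity).
`Yp_conc`: `z / (1 + z)` is concave, `x z^2 / (1 + x z) = z - z / (1 + x z)` is convex, `x (1 + z)^2 (2 T + T^2)` by the product rule above and monotonicity in `T`, `ser_conv` for `KK`.
`K_zero`: `Good x 1 0 0` (`px = x`, `pb = 1`, `pj = 1`), `pkap = 1`, `pY = 0`, `pT = 0`, `pD = 0`; `S.hAS`: `Dm (ofReal x) 0 0 = 0`; `S.hMeq` gives `0 = (1 + 0) (0 + U + .. + 2 * ser kc ..)`, so the series is 0.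
`Yp_path`: for `0 < z ≤ z1` let `u = z / z1`; `Yp_conc` with `z0 = 0`, `T0 = 0`: `Yp S (x, 0, 0) = 0` by `K_zero`, so `Yp S (x, z, τ z) ≥ u * Yp S (x, z1, τ z1) > 0`.
-/

set_option autoImplicit false

namespace K5P

open K5N
open scoped ENNReal Topology

/-- `a` lies below the chord of the nonnegative nondecreasing values `a0`, `a1`. -/
private structure PConcAux.Cv (u a a0 a1 : ℝ) : Prop where
  n0 : 0 ≤ a0
  le : a0 ≤ a1
  n : 0 ≤ a
  ch : a ≤ (1 - u) * a0 + u * a1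

private theorem PConcAux.mul {u a a0 a1 b b0 b1 : ℝ} (hu : 0 ≤ u) (hu1 : u ≤ 1)
    (ha : PConcAux.Cv u a a0 a1) (hb : PConcAux.Cv u b b0 b1) :
    PConcAux.Cv u (a * b) (a0 * b0) (a1 * b1) := by
  refine ⟨mul_nonneg ha.n0 hb.n0, mul_le_mul ha.le hb.le hb.n0 (ha.n0.trans ha.le),
    mul_nonneg ha.n hb.n, ?_⟩
  have h1 : 0 ≤ u * (1 - u) * ((a1 - a0) * (b1 - b0)) :=
    mul_nonneg (mul_nonneg hu (by linarith)) (mul_nonneg (by linarith [ha.le])
      (by linarith [hb.le]))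
  calc a * b ≤ ((1 - u) * a0 + u * a1) * ((1 - u) * b0 + u * b1) :=
        mul_le_mul ha.ch hb.ch hb.n (ha.n.trans ha.ch)
    _ = (1 - u) * (a0 * b0) + u * (a1 * b1) - u * (1 - u) * ((a1 - a0) * (b1 - b0)) := by ring
    _ ≤ (1 - u) * (a0 * b0) + u * (a1 * b1) := by linarith

private theorem PConcAux.one (u : ℝ) : PConcAux.Cv u 1 1 1 :=
  ⟨zero_le_one, le_rfl, zero_le_one, by linarith⟩

private theorem PConcAux.pow {u a a0 a1 : ℝ} (hu : 0 ≤ u) (hu1 : u ≤ 1)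
    (ha : PConcAux.Cv u a a0 a1) (n : ℕ) : PConcAux.Cv u (a ^ n) (a0 ^ n) (a1 ^ n) := by
  induction n with
  | zero => simpa using PConcAux.one u
  | succ n ih =>
    rw [pow_succ, pow_succ, pow_succ]
    exact PConcAux.mul hu hu1 ih ha

private theorem PConcAux.inv {u a b : ℝ} (ha : 0 < a) (hb : 0 < b) (hu : 0 ≤ u) (hu1 : u ≤ 1) :
    1 / ((1 - u) * a + u * b) ≤ (1 - u) * (1 / a) + u * (1 / b) := by
  have hm : 0 < (1 - u) * a + u * b := by
    rcases eq_or_lt_of_le hu with h | h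
    · rw [← h]; linarith
    · have h1 : 0 < u * b := mul_pos h hb
      have h2 : 0 ≤ (1 - u) * a := mul_nonneg (by linarith) ha.le
      linarith
  have h1 : (1 - u) * (1 / a) + u * (1 / b) - 1 / ((1 - u) * a + u * b) =
      u * (1 - u) * (a - b) ^ 2 / (a * b * ((1 - u) * a + u * b)) := by
    field_simp
    ring
  have h2 : 0 ≤ u * (1 - u) * (a - b) ^ 2 / (a * b * ((1 - u) * a + u * b)) :=
    div_nonneg (mul_nonneg (mul_nonneg hu (by linarith)) (sq_nonneg _))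
      (mul_nonneg (mul_nonneg ha.le hb.le) hm.le)
  linarith

theorem ser_conv (c : ℕ → ℕ → ℕ → ℕ → ℝ≥0∞) {x z0 z1 zu T0 T1 Tu u : ℝ} (hx : 0 ≤ x)
    (h0 : 0 ≤ z0) (h01 : z0 ≤ z1) (k0 : 0 ≤ T0) (k01 : T0 ≤ T1) (hu : 0 ≤ u) (hu1 : u ≤ 1)
    (hz : zu ≤ (1 - u) * z0 + u * z1) (hT : Tu ≤ (1 - u) * T0 + u * T1)
    (hfin : ser c (.ofReal x) (.ofReal z1) (.ofReal (1 + z1)) (.ofReal T1) ≠ ∞) :
    (ser c (.ofReal x) (.ofReal zu) (.ofReal (1 + zu)) (.ofReal Tu)).toReal ≤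
      (1 - u) * (ser c (.ofReal x) (.ofReal z0) (.ofReal (1 + z0)) (.ofReal T0)).toReal +
      u * (ser c (.ofReal x) (.ofReal z1) (.ofReal (1 + z1)) (.ofReal T1)).toReal := by
  have _ := hx
  have hu' : 0 ≤ 1 - u := by linarith
  have hfin0 : ser c (.ofReal x) (.ofReal z0) (.ofReal (1 + z0)) (.ofReal T0) ≠ ∞ :=
    ne_top_of_le_ne_top hfin (ser_mono c le_rfl (ENNReal.ofReal_le_ofReal h01)
      (ENNReal.ofReal_le_ofReal (by linarith)) (ENNReal.ofReal_le_ofReal k01))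
  have n0 : 0 ≤ (1 - u) * z0 + u * z1 :=
    add_nonneg (mul_nonneg hu' h0) (mul_nonneg hu (h0.trans h01))
  have m0 : 0 ≤ (1 - u) * T0 + u * T1 :=
    add_nonneg (mul_nonneg hu' k0) (mul_nonneg hu (k0.trans k01))
  have key : ser c (.ofReal x) (.ofReal zu) (.ofReal (1 + zu)) (.ofReal Tu) ≤
      ENNReal.ofReal (1 - u) *
        ser c (.ofReal x) (.ofReal z0) (.ofReal (1 + z0)) (.ofReal T0) +
      ENNReal.ofReal u * ser c (.ofReal x) (.ofReal z1) (.ofReal (1 + z1)) (.ofReal T1) := by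
    refine (ser_mono c le_rfl (ENNReal.ofReal_le_ofReal hz)
      (ENNReal.ofReal_le_ofReal (add_le_add_right hz 1)) (ENNReal.ofReal_le_ofReal hT)).trans ?_
    unfold ser
    rw [← ENNReal.tsum_mul_left, ← ENNReal.tsum_mul_left, ← ENNReal.tsum_add]
    refine ENNReal.tsum_le_tsum fun m => ?_
    have c1 : PConcAux.Cv u ((1 - u) * z0 + u * z1) z0 z1 := ⟨h0, h01, n0, le_rfl⟩
    have c2 : PConcAux.Cv u (1 + ((1 - u) * z0 + u * z1)) (1 + z0) (1 + z1) :=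
      ⟨by linarith, by linarith, by linarith, by linarith⟩
    have c3 : PConcAux.Cv u ((1 - u) * T0 + u * T1) T0 T1 := ⟨k0, k01, m0, le_rfl⟩
    have c4 := PConcAux.mul hu hu1 (PConcAux.mul hu hu1 (PConcAux.pow hu hu1 c1 m.2.1)
      (PConcAux.pow hu hu1 c2 m.2.2.1)) (PConcAux.pow hu hu1 c3 m.2.2.2)
    have p0 : 0 ≤ 1 + z0 := by linarith
    have p1 : 0 ≤ 1 + z1 := by linarith
    have pu : 0 ≤ 1 + ((1 - u) * z0 + u * z1) := by linarith
    have q1 : 0 ≤ z1 := h0.trans h01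
    have r1 : 0 ≤ T1 := k0.trans k01
    have e : ∀ z T : ℝ, 0 ≤ z → 0 ≤ T →
        c m.1 m.2.1 m.2.2.1 m.2.2.2 * ENNReal.ofReal x ^ m.1 * ENNReal.ofReal z ^ m.2.1 *
          ENNReal.ofReal (1 + z) ^ m.2.2.1 * ENNReal.ofReal T ^ m.2.2.2 =
        c m.1 m.2.1 m.2.2.1 m.2.2.2 * ENNReal.ofReal x ^ m.1 *
          ENNReal.ofReal (z ^ m.2.1 * (1 + z) ^ m.2.2.1 * T ^ m.2.2.2) := by
      intro z T hz hT
      rw [ENNReal.ofReal_mul (by positivity), ENNReal.ofReal_mul (by positivity),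
        ENNReal.ofReal_pow hz, ENNReal.ofReal_pow (by positivity), ENNReal.ofReal_pow hT]
      ring
    rw [e _ _ n0 m0, e _ _ h0 k0, e _ _ q1 r1]
    have f : ENNReal.ofReal (((1 - u) * z0 + u * z1) ^ m.2.1 *
        (1 + ((1 - u) * z0 + u * z1)) ^ m.2.2.1 * ((1 - u) * T0 + u * T1) ^ m.2.2.2) ≤
        ENNReal.ofReal (1 - u) *
          ENNReal.ofReal (z0 ^ m.2.1 * (1 + z0) ^ m.2.2.1 * T0 ^ m.2.2.2) +
        ENNReal.ofReal u *
          ENNReal.ofReal (z1 ^ m.2.1 * (1 + z1) ^ m.2.2.1 * T1 ^ m.2.2.2) := by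
      rw [← ENNReal.ofReal_mul hu', ← ENNReal.ofReal_mul hu, ← ENNReal.ofReal_add
        (by positivity) (by positivity)]
      exact ENNReal.ofReal_le_ofReal c4.ch
    calc _ ≤ c m.1 m.2.1 m.2.2.1 m.2.2.2 * ENNReal.ofReal x ^ m.1 * (ENNReal.ofReal (1 - u) *
          ENNReal.ofReal (z0 ^ m.2.1 * (1 + z0) ^ m.2.2.1 * T0 ^ m.2.2.2) +
        ENNReal.ofReal u *
          ENNReal.ofReal (z1 ^ m.2.1 * (1 + z1) ^ m.2.2.1 * T1 ^ m.2.2.2)) := by gcongr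
      _ = _ := by ring
  have h1 := ENNReal.toReal_mono (ENNReal.add_ne_top.2
    ⟨ENNReal.mul_ne_top ENNReal.ofReal_ne_top hfin0,
      ENNReal.mul_ne_top ENNReal.ofReal_ne_top hfin⟩) key
  rw [ENNReal.toReal_add (ENNReal.mul_ne_top ENNReal.ofReal_ne_top hfin0)
      (ENNReal.mul_ne_top ENNReal.ofReal_ne_top hfin), ENNReal.toReal_mul, ENNReal.toReal_mul,
    ENNReal.toReal_ofReal hu', ENNReal.toReal_ofReal hu] at h1
  exact h1

theorem Yp_conc (S : Sys) {x z0 z1 T0 T1 Tu u : ℝ} (hx : 0 < x)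
    (h0 : 0 ≤ z0) (h01 : z0 ≤ z1) (k0 : 0 ≤ T0) (k01 : T0 ≤ T1) (hu : 0 ≤ u) (hu1 : u ≤ 1)
    (hT0 : 0 ≤ Tu) (hT : Tu ≤ (1 - u) * T0 + u * T1)
    (hfin : ser S.kc (.ofReal x) (.ofReal z1) (.ofReal (1 + z1)) (.ofReal T1) ≠ ∞) :
    (1 - u) * Yp S (x, z0, T0) + u * Yp S (x, z1, T1) ≤
      Yp S (x, (1 - u) * z0 + u * z1, Tu) := by
  have hu' : 0 ≤ 1 - u := by linarith
  have hz1 : 0 ≤ z1 := h0.trans h01
  have hT1 : 0 ≤ T1 := k0.trans k01
  have n0 : 0 ≤ (1 - u) * z0 + u * z1 := add_nonneg (mul_nonneg hu' h0) (mul_nonneg hu hz1)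
  have hK := ser_conv S.kc hx.le h0 h01 k0 k01 hu hu1 le_rfl hT hfin
  -- the first term
  have f : ∀ (c z : ℝ), 0 < c → 0 ≤ z → z / (1 + c * z) = (1 - 1 / (1 + c * z)) / c := by
    intro c z hc hz
    have : 0 < 1 + c * z := by positivity
    field_simp
    ring
  have conc : ∀ c : ℝ, 0 < c → (1 - u) * (z0 / (1 + c * z0)) + u * (z1 / (1 + c * z1)) ≤
      ((1 - u) * z0 + u * z1) / (1 + c * ((1 - u) * z0 + u * z1)) := by
    intro c hc
    rw [f c z0 hc h0, f c z1 hc hz1, f c _ hc n0]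
    have h1 := PConcAux.inv (a := 1 + c * z0) (b := 1 + c * z1) (by positivity) (by positivity)
      hu hu1
    have h2 : (1 - u) * (1 + c * z0) + u * (1 + c * z1) =
        1 + c * ((1 - u) * z0 + u * z1) := by ring
    rw [h2] at h1
    have h3 : (1 - u) * ((1 - 1 / (1 + c * z0)) / c) + u * ((1 - 1 / (1 + c * z1)) / c) =
        (1 - ((1 - u) * (1 / (1 + c * z0)) + u * (1 / (1 + c * z1)))) / c := by ring
    rw [h3]
    exact div_le_div_of_nonneg_right (by linarith) hc.le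
  have a1 := conc 1 one_pos
  simp only [one_mul] at a1
  -- the second term
  have g : ∀ z : ℝ, 0 ≤ z → x * z ^ 2 / (1 + x * z) = z - z / (1 + x * z) := by
    intro z hz
    have : 0 < 1 + x * z := by positivity
    field_simp
    ring
  have a2 := conc x hx
  -- the third term
  have c1 : PConcAux.Cv u (1 + ((1 - u) * z0 + u * z1)) (1 + z0) (1 + z1) :=
    ⟨by linarith, by linarith, by linarith, by linarith⟩
  have c2 : PConcAux.Cv u Tu T0 T1 := ⟨k0, k01, hT0, hT⟩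
  have c3 := PConcAux.pow hu hu1 c2 2
  have c4 : PConcAux.Cv u (2 * Tu + Tu ^ 2) (2 * T0 + T0 ^ 2) (2 * T1 + T1 ^ 2) :=
    ⟨by positivity, by linarith [c3.le], by positivity, by linarith [c3.ch]⟩
  have c5 := PConcAux.mul hu hu1 (PConcAux.pow hu hu1 c1 2) c4
  have a3 := mul_le_mul_of_nonneg_left c5.ch hx.le
  unfold Yp KK
  simp only
  rw [g _ h0, g _ hz1, g _ n0]
  nlinarith [a1, a2, a3, hK, hT]

theorem K_zero (S : Sys) {x : ℝ} (hx : 0 < x) :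
    ser S.kc (.ofReal x) (.ofReal 0) (.ofReal (1 + 0)) (.ofReal 0) = 0 := by
  have ex : px x 1 0 0 = x := by unfold px; ring
  have eb : pb x 1 0 0 = 1 := by unfold pb; ring
  have ej : pj x 1 0 0 = 1 := by unfold pj; ring
  have ew1 : pw1 x 1 0 0 = x := by unfold pw1; ring
  have ew2 : pw2 x 1 0 0 = x * (x + 1) := by unfold pw2; ring
  have ek : pkap x 1 0 0 = 1 := by
    unfold pkap
    rw [ew1, ex]
    exact div_self hx.ne'
  have eT : pT x 1 0 0 = 0 := by unfold pT; ring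
  have eY : pY x 1 0 0 = 0 := by unfold pY; rw [eT]; ring
  have eD : pD x 1 0 0 = 0 := by
    unfold pD
    rw [ew2, ek, ex]
    field_simp
    ring
  have hg : Good x 1 0 0 := by
    refine ⟨hx, one_pos, le_rfl, le_rfl, ?_, eb, ?_, ?_⟩
    · rw [ex]; exact hx
    · rw [ej]; exact zero_le_one
    · rw [ej]; norm_num
  obtain ⟨-, h1, -⟩ := S.hAS x 1 0 0 hg
  rw [ex, eT, eY, eD, ENNReal.ofReal_zero] at h1
  obtain ⟨U, -, h2, -⟩ := S.hMeq (ENNReal.ofReal x) 0 0 (by simpa using hx)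
    ENNReal.ofReal_ne_top (by simp) (by simp) (by rw [h1]; simp)
  rw [h1] at h2
  rw [ENNReal.ofReal_zero, add_zero, ENNReal.ofReal_one]
  have h3 := h2.symm
  rw [mul_eq_zero] at h3
  rcases h3 with h3 | h3
  · simp at h3
  · rw [add_eq_zero, mul_eq_zero] at h3
    rcases h3.2 with h4 | h4
    · simp at h4
    · simpa using h4

theorem Yp_path (S : Sys) {x z1 : ℝ} {τ : ℝ → ℝ} (hx : 0 < x) (hz1 : 0 < z1)
    (hτ0 : ∀ z, 0 ≤ z → z ≤ z1 → 0 ≤ τ z)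
    (hτ : ∀ u, 0 ≤ u → u ≤ 1 → τ (u * z1) ≤ u * τ z1)
    (hfin : ser S.kc (.ofReal x) (.ofReal z1) (.ofReal (1 + z1)) (.ofReal (τ z1)) ≠ ∞)
    (hY : 0 < Yp S (x, z1, τ z1)) : ∀ z, 0 < z → z ≤ z1 → 0 < Yp S (x, z, τ z) := by
  intro z hz hzz
  have hu : 0 < z / z1 := div_pos hz hz1
  have hu1 : z / z1 ≤ 1 := (div_le_one hz1).2 hzz
  have e : z / z1 * z1 = z := div_mul_cancel₀ z hz1.ne'
  have h1 := hτ (z / z1) hu.le hu1
  rw [e] at h1
  have h2 := Yp_conc S (T0 := 0) (T1 := τ z1) (Tu := τ z) hx le_rfl hz1.le le_rfl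
    (hτ0 z1 hz1.le le_rfl) hu.le hu1 (hτ0 z hz.le hzz) (by rw [mul_zero, zero_add]; exact h1) hfin
  have h3 : Yp S (x, 0, 0) = 0 := by
    unfold Yp KK
    simp only
    rw [K_zero S hx]
    simp
  rw [h3, mul_zero, zero_add, zero_add, e] at h2
  exact lt_of_lt_of_le (mul_pos hu hY) h2

end K5P
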