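import Pool.Agent.Lib.K5P.PDefs

/-!
# K5P.PDiff : differentiability in the three variables

PROOFS. `ser_diff3`: the proof of `K5N.ser_diff` (file K5N/SerDiff.lean) with the additional variable `x`: terms `a m * x ^ i * z ^ j * (1 + z) ^ k * T ^ l`, the open set `Ioo 0 x2 ×ˢ Ioo 0 z2 ×ˢ Ioo 0 T2`, the bound
`(1 / (x1 - x2) + 2 / (z1 - z2) + 1 / (T1 - T2)) * f m (x1, z1, T1)`, `hasFDerivAt_tsum_of_isPreconnected`.
`fin3_mono`: monotonicity. `kf_ge`: `Yp ≥ 0`, `AA ≥ 0`. `diffs3`: as `K5N.CL.diffs`: quotients of differentiable functions, `1 + z ≠ 0`, `1 + x z ≠ 0`, `kf ≠ 0`.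
-/

set_option autoImplicit false

namespace K5P

open K5N
open scoped ENNReal Topology

theorem ser_diff3 (c : ℕ → ℕ → ℕ → ℕ → ℝ≥0∞) {x z T x1 z1 T1 : ℝ} (hx : 0 < x) (hxx : x < x1)
    (hz : 0 < z) (hzz : z < z1) (hT : 0 < T) (hTT : T < T1)
    (hfin : ser c (.ofReal x1) (.ofReal z1) (.ofReal (1 + z1)) (.ofReal T1) ≠ ∞) :
    DifferentiableAt ℝ (fun q : ℝ × ℝ × ℝ =>
      (ser c (.ofReal q.1) (.ofReal q.2.1) (.ofReal (1 + q.2.1)) (.ofReal q.2.2)).toReal)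
      (x, z, T) := by
  have hx1 : 0 < x1 := hx.trans hxx
  have hz1 : 0 < z1 := hz.trans hzz
  have ht1 : 0 < T1 := hT.trans hTT
  -- the coefficients are finite
  have hc : ∀ m : ℕ × ℕ × ℕ × ℕ, c m.1 m.2.1 m.2.2.1 m.2.2.2 ≠ ∞ := by
    intro m h
    apply hfin
    unfold ser
    refine ENNReal.tsum_eq_top_of_eq_top ⟨m, ?_⟩
    rw [h]
    have p1 : ENNReal.ofReal x1 ^ m.1 ≠ 0 := pow_ne_zero _ (by simpa using hx1)
    have p2 : ENNReal.ofReal z1 ^ m.2.1 ≠ 0 := pow_ne_zero _ (by simpa using hz1)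
    have p3 : ENNReal.ofReal (1 + z1) ^ m.2.2.1 ≠ 0 := pow_ne_zero _ (by
      have : 0 < 1 + z1 := by positivity
      simpa using this)
    have p4 : ENNReal.ofReal T1 ^ m.2.2.2 ≠ 0 := pow_ne_zero _ (by simpa using ht1)
    rw [ENNReal.top_mul p1, ENNReal.top_mul p2, ENNReal.top_mul p3, ENNReal.top_mul p4]
  set a : ℕ × ℕ × ℕ × ℕ → ℝ := fun m => (c m.1 m.2.1 m.2.2.1 m.2.2.2).toReal with ha
  have ha0 : ∀ m, 0 ≤ a m := fun m => ENNReal.toReal_nonneg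
  set f : ℕ × ℕ × ℕ × ℕ → ℝ × ℝ × ℝ → ℝ :=
    fun m p => a m * p.1 ^ m.1 * p.2.1 ^ m.2.1 * (1 + p.2.1) ^ m.2.2.1 * p.2.2 ^ m.2.2.2 with hf
  -- real form of the series
  have hterm : ∀ p : ℝ × ℝ × ℝ, 0 ≤ p.1 → 0 ≤ p.2.1 → 0 ≤ p.2.2 → ∀ m : ℕ × ℕ × ℕ × ℕ,
      (c m.1 m.2.1 m.2.2.1 m.2.2.2 * ENNReal.ofReal p.1 ^ m.1 * ENNReal.ofReal p.2.1 ^ m.2.1 *
        ENNReal.ofReal (1 + p.2.1) ^ m.2.2.1 * ENNReal.ofReal p.2.2 ^ m.2.2.2).toReal = f m p := by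
    intro p h0 h1 h2 m
    simp only [hf, ha, ENNReal.toReal_mul, ENNReal.toReal_pow, ENNReal.toReal_ofReal h0,
      ENNReal.toReal_ofReal h1, ENNReal.toReal_ofReal h2,
      ENNReal.toReal_ofReal (by positivity : (0 : ℝ) ≤ 1 + p.2.1)]
  have hser : ∀ p : ℝ × ℝ × ℝ, 0 ≤ p.1 → 0 ≤ p.2.1 → 0 ≤ p.2.2 →
      (ser c (.ofReal p.1) (.ofReal p.2.1) (.ofReal (1 + p.2.1)) (.ofReal p.2.2)).toReal =
        ∑' m, f m p := by
    intro p h0 h1 h2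
    unfold ser
    rw [ENNReal.tsum_toReal_eq]
    · exact tsum_congr (hterm p h0 h1 h2)
    · intro m
      exact ENNReal.mul_ne_top (ENNReal.mul_ne_top (ENNReal.mul_ne_top (ENNReal.mul_ne_top (hc m)
        (ENNReal.pow_ne_top ENNReal.ofReal_ne_top)) (ENNReal.pow_ne_top ENNReal.ofReal_ne_top))
        (ENNReal.pow_ne_top ENNReal.ofReal_ne_top)) (ENNReal.pow_ne_top ENNReal.ofReal_ne_top)
  have hsum : ∀ p : ℝ × ℝ × ℝ, 0 ≤ p.1 → 0 ≤ p.2.1 → 0 ≤ p.2.2 → p.1 ≤ x1 → p.2.1 ≤ z1 →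
      p.2.2 ≤ T1 → Summable fun m => f m p := by
    intro p h0 h1 h2 h5 h3 h4
    have hh : ser c (.ofReal p.1) (.ofReal p.2.1) (.ofReal (1 + p.2.1)) (.ofReal p.2.2) ≠ ∞ := by
      refine ne_top_of_le_ne_top hfin (ser_mono c ?_ ?_ ?_ ?_)
      · exact ENNReal.ofReal_le_ofReal h5
      · exact ENNReal.ofReal_le_ofReal h3
      · exact ENNReal.ofReal_le_ofReal (by linarith)
      · exact ENNReal.ofReal_le_ofReal h4
    have := ENNReal.summable_toReal hh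
    exact this.congr (hterm p h0 h1 h2)
  obtain ⟨x2, hx2, hx21⟩ := exists_between hxx
  obtain ⟨z2, hz2, hz21⟩ := exists_between hzz
  obtain ⟨t2, ht2, ht21⟩ := exists_between hTT
  set s : Set (ℝ × ℝ × ℝ) := Set.Ioo 0 x2 ×ˢ (Set.Ioo 0 z2 ×ˢ Set.Ioo 0 t2) with hs
  have hso : IsOpen s := isOpen_Ioo.prod (isOpen_Ioo.prod isOpen_Ioo)
  have hsc : IsPreconnected s := isPreconnected_Ioo.prod (isPreconnected_Ioo.prod isPreconnected_Ioo)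
  have hmem : (x, z, T) ∈ s := ⟨⟨hx, hx2⟩, ⟨hz, hz2⟩, ⟨hT, ht2⟩⟩
  set L1 : ℝ × ℝ × ℝ →L[ℝ] ℝ := ContinuousLinearMap.fst ℝ ℝ (ℝ × ℝ) with hL1
  set L2 : ℝ × ℝ × ℝ →L[ℝ] ℝ :=
    (ContinuousLinearMap.fst ℝ ℝ ℝ).comp (ContinuousLinearMap.snd ℝ ℝ (ℝ × ℝ)) with hL2
  set L3 : ℝ × ℝ × ℝ →L[ℝ] ℝ :=
    (ContinuousLinearMap.snd ℝ ℝ ℝ).comp (ContinuousLinearMap.snd ℝ ℝ (ℝ × ℝ)) with hL3
  set f' : ℕ × ℕ × ℕ × ℕ → ℝ × ℝ × ℝ → (ℝ × ℝ × ℝ →L[ℝ] ℝ) := fun m p =>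
    (a m * ((m.1 : ℝ) * p.1 ^ (m.1 - 1)) * p.2.1 ^ m.2.1 * (1 + p.2.1) ^ m.2.2.1 *
      p.2.2 ^ m.2.2.2) • L1 +
    (a m * p.1 ^ m.1 * ((m.2.1 : ℝ) * p.2.1 ^ (m.2.1 - 1) * (1 + p.2.1) ^ m.2.2.1 +
      p.2.1 ^ m.2.1 * ((m.2.2.1 : ℝ) * (1 + p.2.1) ^ (m.2.2.1 - 1))) * p.2.2 ^ m.2.2.2) • L2 +
    (a m * p.1 ^ m.1 * p.2.1 ^ m.2.1 * (1 + p.2.1) ^ m.2.2.1 *
      ((m.2.2.2 : ℝ) * p.2.2 ^ (m.2.2.2 - 1))) • L3 with hf'
  set u : ℕ × ℕ × ℕ × ℕ → ℝ := fun m =>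
    (1 / (x1 - x2) + 2 / (z1 - z2) + 1 / (T1 - t2)) * f m (x1, z1, T1) with hu
  have husum : Summable u :=
    (hsum (x1, z1, T1) hx1.le hz1.le ht1.le le_rfl le_rfl le_rfl).mul_left _
  have hderiv : ∀ m p, p ∈ s → HasFDerivAt (f m) (f' m p) p := by
    intro m p _
    have e0 : HasFDerivAt (fun q : ℝ × ℝ × ℝ => q.1) L1 p := hasFDerivAt_fst
    have e1 : HasFDerivAt (fun q : ℝ × ℝ × ℝ => q.2.1) L2 p :=
      (hasFDerivAt_fst (𝕜 := ℝ) (p := p.2)).comp p (hasFDerivAt_snd (𝕜 := ℝ) (p := p))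
    have e2 : HasFDerivAt (fun q : ℝ × ℝ × ℝ => q.2.2) L3 p :=
      (hasFDerivAt_snd (𝕜 := ℝ) (p := p.2)).comp p (hasFDerivAt_snd (𝕜 := ℝ) (p := p))
    have g0 := e0.pow m.1
    have g1 := e1.pow m.2.1
    have g2 := (e1.const_add 1).pow m.2.2.1
    have g3 := e2.pow m.2.2.2
    have g := (((g0.const_mul (a m)).mul g1).mul g2).mul g3
    refine g.congr_fderiv ?_
    refine ContinuousLinearMap.ext fun v => ?_
    simp only [hf', _root_.add_apply, _root_.smul_apply, smul_eq_mul, nsmul_eq_mul, Pi.mul_apply]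
    ring
  have hbound : ∀ m p, p ∈ s → ‖f' m p‖ ≤ u m := by
    intro m p hp
    obtain ⟨⟨hp5, hp6⟩, ⟨hp1, hp2⟩, ⟨hp3, hp4⟩⟩ := hp
    have b0 := SerDiff.pow_bound' hp5.le hp6.le hx21 m.1
    have b1 := SerDiff.pow_bound' hp1.le hp2.le hz21 m.2.1
    have b2 : (m.2.2.1 : ℝ) * (1 + p.2.1) ^ (m.2.2.1 - 1) ≤ (1 + z1) ^ m.2.2.1 / (z1 - z2) := by
      have := SerDiff.pow_bound' (by linarith : (0 : ℝ) ≤ 1 + p.2.1)
        (by linarith : 1 + p.2.1 ≤ 1 + z2) (by linarith : 1 + z2 < 1 + z1) m.2.2.1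
      rwa [show 1 + z1 - (1 + z2) = z1 - z2 by ring] at this
    have b3 := SerDiff.pow_bound' hp3.le hp4.le ht21 m.2.2.2
    have c0 : p.1 ^ m.1 ≤ x1 ^ m.1 := pow_le_pow_left₀ hp5.le (by linarith) _
    have c1 : p.2.1 ^ m.2.1 ≤ z1 ^ m.2.1 := pow_le_pow_left₀ hp1.le (by linarith) _
    have c2 : (1 + p.2.1) ^ m.2.2.1 ≤ (1 + z1) ^ m.2.2.1 :=
      pow_le_pow_left₀ (by linarith) (by linarith) _
    have c3 : p.2.2 ^ m.2.2.2 ≤ T1 ^ m.2.2.2 := pow_le_pow_left₀ hp3.le (by linarith) _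
    have hd0 : 0 < x1 - x2 := by linarith
    have hd1 : 0 < z1 - z2 := by linarith
    have hd2 : 0 < T1 - t2 := by linarith
    have n0 : 0 ≤ p.1 ^ m.1 := by positivity
    have n1 : 0 ≤ p.2.1 ^ m.2.1 := by positivity
    have n2 : (0 : ℝ) ≤ (1 + p.2.1) ^ m.2.2.1 := by positivity
    have n3 : 0 ≤ p.2.2 ^ m.2.2.2 := by positivity
    have nf : ‖L1‖ ≤ 1 := ContinuousLinearMap.norm_fst_le ℝ ℝ (ℝ × ℝ)
    have ns : ‖L2‖ ≤ 1 := by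
      refine (ContinuousLinearMap.opNorm_comp_le _ _).trans ?_
      have h1 := ContinuousLinearMap.norm_fst_le ℝ ℝ ℝ
      have h2 := ContinuousLinearMap.norm_snd_le ℝ ℝ (ℝ × ℝ)
      exact mul_le_one₀ h1 (norm_nonneg _) h2
    have nt : ‖L3‖ ≤ 1 := by
      refine (ContinuousLinearMap.opNorm_comp_le _ _).trans ?_
      have h1 := ContinuousLinearMap.norm_snd_le ℝ ℝ ℝ
      have h2 := ContinuousLinearMap.norm_snd_le ℝ ℝ (ℝ × ℝ)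
      exact mul_le_one₀ h1 (norm_nonneg _) h2
    have hm := ha0 m
    have k0 : a m * ((m.1 : ℝ) * p.1 ^ (m.1 - 1)) * p.2.1 ^ m.2.1 * (1 + p.2.1) ^ m.2.2.1 *
        p.2.2 ^ m.2.2.2 ≤ 1 / (x1 - x2) * f m (x1, z1, T1) := by
      have h3 : a m * ((m.1 : ℝ) * p.1 ^ (m.1 - 1)) * p.2.1 ^ m.2.1 * (1 + p.2.1) ^ m.2.2.1 *
          p.2.2 ^ m.2.2.2 ≤
          a m * (x1 ^ m.1 / (x1 - x2)) * z1 ^ m.2.1 * (1 + z1) ^ m.2.2.1 * T1 ^ m.2.2.2 := by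
        gcongr
      refine h3.trans (le_of_eq ?_)
      simp only [hf]
      field_simp
    have k1 : a m * p.1 ^ m.1 * ((m.2.1 : ℝ) * p.2.1 ^ (m.2.1 - 1) * (1 + p.2.1) ^ m.2.2.1 +
        p.2.1 ^ m.2.1 * ((m.2.2.1 : ℝ) * (1 + p.2.1) ^ (m.2.2.1 - 1))) * p.2.2 ^ m.2.2.2 ≤
        2 / (z1 - z2) * f m (x1, z1, T1) := by
      have h1 : (m.2.1 : ℝ) * p.2.1 ^ (m.2.1 - 1) * (1 + p.2.1) ^ m.2.2.1 ≤
          z1 ^ m.2.1 / (z1 - z2) * (1 + z1) ^ m.2.2.1 := by gcongr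
      have h2 : p.2.1 ^ m.2.1 * ((m.2.2.1 : ℝ) * (1 + p.2.1) ^ (m.2.2.1 - 1)) ≤
          z1 ^ m.2.1 * ((1 + z1) ^ m.2.2.1 / (z1 - z2)) := by gcongr
      have h3 : a m * p.1 ^ m.1 * ((m.2.1 : ℝ) * p.2.1 ^ (m.2.1 - 1) * (1 + p.2.1) ^ m.2.2.1 +
          p.2.1 ^ m.2.1 * ((m.2.2.1 : ℝ) * (1 + p.2.1) ^ (m.2.2.1 - 1))) * p.2.2 ^ m.2.2.2 ≤
          a m * x1 ^ m.1 * (z1 ^ m.2.1 / (z1 - z2) * (1 + z1) ^ m.2.2.1 +
            z1 ^ m.2.1 * ((1 + z1) ^ m.2.2.1 / (z1 - z2))) * T1 ^ m.2.2.2 := by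
        gcongr
      refine h3.trans (le_of_eq ?_)
      simp only [hf]
      field_simp
      ring
    have k2 : a m * p.1 ^ m.1 * p.2.1 ^ m.2.1 * (1 + p.2.1) ^ m.2.2.1 *
        ((m.2.2.2 : ℝ) * p.2.2 ^ (m.2.2.2 - 1)) ≤ 1 / (T1 - t2) * f m (x1, z1, T1) := by
      have h3 : a m * p.1 ^ m.1 * p.2.1 ^ m.2.1 * (1 + p.2.1) ^ m.2.2.1 *
          ((m.2.2.2 : ℝ) * p.2.2 ^ (m.2.2.2 - 1)) ≤
          a m * x1 ^ m.1 * z1 ^ m.2.1 * (1 + z1) ^ m.2.2.1 * (T1 ^ m.2.2.2 / (T1 - t2)) := by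
        gcongr
      refine h3.trans (le_of_eq ?_)
      simp only [hf]
      field_simp
    have q0 : 0 ≤ a m * ((m.1 : ℝ) * p.1 ^ (m.1 - 1)) * p.2.1 ^ m.2.1 * (1 + p.2.1) ^ m.2.2.1 *
        p.2.2 ^ m.2.2.2 := by positivity
    have q1 : 0 ≤ a m * p.1 ^ m.1 * ((m.2.1 : ℝ) * p.2.1 ^ (m.2.1 - 1) * (1 + p.2.1) ^ m.2.2.1 +
        p.2.1 ^ m.2.1 * ((m.2.2.1 : ℝ) * (1 + p.2.1) ^ (m.2.2.1 - 1))) * p.2.2 ^ m.2.2.2 := by
      positivity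
    have q2 : 0 ≤ a m * p.1 ^ m.1 * p.2.1 ^ m.2.1 * (1 + p.2.1) ^ m.2.2.1 *
        ((m.2.2.2 : ℝ) * p.2.2 ^ (m.2.2.2 - 1)) := by positivity
    calc ‖f' m p‖ ≤ ‖_ • L1‖ + ‖_ • L2‖ + ‖_ • L3‖ := norm_add₃_le
      _ ≤ (a m * ((m.1 : ℝ) * p.1 ^ (m.1 - 1)) * p.2.1 ^ m.2.1 * (1 + p.2.1) ^ m.2.2.1 *
            p.2.2 ^ m.2.2.2) * 1 +
          (a m * p.1 ^ m.1 * ((m.2.1 : ℝ) * p.2.1 ^ (m.2.1 - 1) * (1 + p.2.1) ^ m.2.2.1 +
            p.2.1 ^ m.2.1 * ((m.2.2.1 : ℝ) * (1 + p.2.1) ^ (m.2.2.1 - 1))) *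
            p.2.2 ^ m.2.2.2) * 1 +
          (a m * p.1 ^ m.1 * p.2.1 ^ m.2.1 * (1 + p.2.1) ^ m.2.2.1 *
            ((m.2.2.2 : ℝ) * p.2.2 ^ (m.2.2.2 - 1))) * 1 := by
          rw [norm_smul, norm_smul, norm_smul, Real.norm_of_nonneg q0, Real.norm_of_nonneg q1,
            Real.norm_of_nonneg q2]
          gcongr
      _ ≤ u m := by
          simp only [hu, mul_one]
          linarith
  have hmain := hasFDerivAt_tsum_of_isPreconnected husum hso hsc hderiv hbound hmem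
    (hsum (x, z, T) hx.le hz.le hT.le hxx.le hzz.le hTT.le) hmem
  have hev : (fun q : ℝ × ℝ × ℝ =>
      (ser c (.ofReal q.1) (.ofReal q.2.1) (.ofReal (1 + q.2.1)) (.ofReal q.2.2)).toReal)
      =ᶠ[nhds (x, z, T)] fun p => ∑' m, f m p := by
    filter_upwards [hso.mem_nhds hmem] with p hp
    exact hser p hp.1.1.le hp.2.1.1.le hp.2.2.1.le
  exact (hmain.congr_of_eventuallyEq hev).differentiableAt

theorem Fin3.mono {S : Sys} {x z T x' z' T' : ℝ} (h : Fin3 S (x, z, T)) (hx : 0 < x')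
    (hxx : x' ≤ x) (hz : 0 < z') (hzz : z' ≤ z) (hT : 0 < T') (hTT : T' ≤ T) :
    Fin3 S (x', z', T') := by
  obtain ⟨x1, z1, T1, h1, h2, h3, h4, h5⟩ := h.ex
  exact ⟨hx, hz, hT, x1, z1, T1, lt_of_le_of_lt hxx h1, lt_of_le_of_lt hzz h2,
    lt_of_le_of_lt hTT h3, h4, h5⟩

theorem Fin3.nhds {S : Sys} {q : ℝ × ℝ × ℝ} (h : Fin3 S q) : ∀ᶠ q' in 𝓝 q, Fin3 S q' := by
  obtain ⟨x1, z1, T1, h1, h2, h3, h4, h5⟩ := h.ex
  have c1 : ContinuousAt (fun p : ℝ × ℝ × ℝ => p.1) q := continuous_fst.continuousAt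
  have c2 : ContinuousAt (fun p : ℝ × ℝ × ℝ => p.2.1) q :=
    (continuous_fst.comp continuous_snd).continuousAt
  have c3 : ContinuousAt (fun p : ℝ × ℝ × ℝ => p.2.2) q :=
    (continuous_snd.comp continuous_snd).continuousAt
  filter_upwards [c1.eventually (lt_mem_nhds h.hx), c2.eventually (lt_mem_nhds h.hz),
    c3.eventually (lt_mem_nhds h.hT), c1.eventually (gt_mem_nhds h1),
    c2.eventually (gt_mem_nhds h2), c3.eventually (gt_mem_nhds h3)] with p a1 a2 a3 a4 a5 a6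
  exact ⟨a1, a2, a3, x1, z1, T1, a4, a5, a6, h4, h5⟩

theorem kf_ge {S : Sys} {q : ℝ × ℝ × ℝ} (h : Fin3 S q) (hY : 0 < Yp S q) :
    1 ≤ kf S q ∧ 0 < yf S q ∧ yf S q ≤ q.2.1 ∧ 0 < tf S q ∧ tf S q ≤ q.2.2 := by
  have hx := h.hx
  have hz := h.hz
  have hT := h.hT
  have hA : 0 ≤ AA S q := ENNReal.toReal_nonneg
  have hK : 0 ≤ KK S q := ENNReal.toReal_nonneg
  have hN : 0 ≤ Nf S q := by
    unfold Nf
    positivity
  have hk : 1 ≤ kf S q := by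
    unfold kf
    have h1 : 0 ≤ Yp S q * (1 + q.1 * (1 + q.2.1)) := by positivity
    have h2 : 0 ≤ q.2.2 * (1 + 3 * q.1 * (1 + q.2.1) + q.1 ^ 2 * Nf S q) := by positivity
    linarith
  have hk0 : 0 < kf S q := by linarith
  have hYz : Yp S q ≤ q.2.1 := by
    have h1 : q.2.1 / (1 + q.2.1) ≤ q.2.1 := div_le_self hz.le (by linarith)
    have h2 : 0 ≤ q.1 * q.2.1 ^ 2 / (1 + q.1 * q.2.1) := by positivity
    have h3 : 0 ≤ q.1 * (1 + q.2.1) ^ 2 * (2 * q.2.2 + q.2.2 ^ 2) := by positivity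
    unfold Yp
    linarith
  refine ⟨hk, ?_, ?_, ?_, ?_⟩
  · unfold yf
    positivity
  · unfold yf
    exact (div_le_self hY.le (one_le_pow₀ hk)).trans hYz
  · unfold tf
    positivity
  · unfold tf
    exact div_le_self hT.le (one_le_pow₀ hk)

theorem diffs3 {S : Sys} {q : ℝ × ℝ × ℝ} (h : Fin3 S q) (hk : kf S q ≠ 0) :
    DifferentiableAt ℝ (KK S) q ∧ DifferentiableAt ℝ (AA S) q ∧ DifferentiableAt ℝ (Yp S) q ∧
    DifferentiableAt ℝ (kf S) q ∧ DifferentiableAt ℝ (yf S) q ∧ DifferentiableAt ℝ (tf S) q := by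
  obtain ⟨x1, z1, T1, g1, g2, g3, g4, g5⟩ := h.ex
  have hx := h.hx
  have hz := h.hz
  have hT := h.hT
  have hK : DifferentiableAt ℝ (KK S) q := ser_diff3 S.kc hx g1 hz g2 hT g3 g4
  have hA : DifferentiableAt ℝ (AA S) q := ser_diff3 S.ac hx g1 hz g2 hT g3 g5
  have d0 : DifferentiableAt ℝ (fun p : ℝ × ℝ × ℝ => p.1) q := differentiableAt_fst
  have d1 : DifferentiableAt ℝ (fun p : ℝ × ℝ × ℝ => p.2.1) q :=
    DifferentiableAt.fst differentiableAt_snd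
  have d2 : DifferentiableAt ℝ (fun p : ℝ × ℝ × ℝ => p.2.2) q :=
    DifferentiableAt.snd differentiableAt_snd
  have h1 : (1 + q.2.1) ≠ 0 := by positivity
  have h2 : (1 + q.1 * q.2.1) ≠ 0 := by positivity
  have dY : DifferentiableAt ℝ (Yp S) q := by
    unfold Yp
    simp only [div_eq_mul_inv]
    have i1 : DifferentiableAt ℝ (fun p : ℝ × ℝ × ℝ => (1 + p.2.1)⁻¹) q :=
      DifferentiableAt.inv (d1.const_add 1) h1
    have i2 : DifferentiableAt ℝ (fun p : ℝ × ℝ × ℝ => (1 + p.1 * p.2.1)⁻¹) q :=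
      DifferentiableAt.inv ((d0.mul d1).const_add 1) h2
    refine DifferentiableAt.sub (DifferentiableAt.sub (DifferentiableAt.sub
      (DifferentiableAt.sub ?_ ?_) ?_) ?_) ?_
    · exact d1.mul i1
    · exact (d0.mul (d1.fun_pow 2)).mul i2
    · exact (d0.mul ((d1.const_add 1).fun_pow 2)).mul ((d2.const_mul 2).add (d2.fun_pow 2))
    · exact hK.const_mul 2
    · exact d2.const_mul 2
  have dN : DifferentiableAt ℝ (Nf S) q := by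
    unfold Nf
    exact ((d1.const_add 1).fun_pow 3).mul ((d2.const_add 1).add hA)
  have dk : DifferentiableAt ℝ (kf S) q := by
    unfold kf
    refine DifferentiableAt.add (DifferentiableAt.const_add 1 ?_) ?_
    · exact dY.mul ((d0.mul (d1.const_add 1)).const_add 1)
    · refine d2.mul (DifferentiableAt.add (DifferentiableAt.const_add 1 ?_) ?_)
      · exact (d0.const_mul 3).mul (d1.const_add 1)
      · exact (d0.fun_pow 2).mul dN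
  refine ⟨hK, hA, dY, dk, ?_, ?_⟩
  · unfold yf
    simp only [div_eq_mul_inv]
    have i1 : DifferentiableAt ℝ (fun p : ℝ × ℝ × ℝ => (kf S p ^ 2)⁻¹) q :=
      DifferentiableAt.inv (dk.fun_pow 2) (pow_ne_zero _ hk)
    exact dY.mul i1
  · unfold tf
    simp only [div_eq_mul_inv]
    have i1 : DifferentiableAt ℝ (fun p : ℝ × ℝ × ℝ => (kf S p ^ 3)⁻¹) q :=
      DifferentiableAt.inv (dk.fun_pow 3) (pow_ne_zero _ hk)
    exact d2.mul i1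

end K5P
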