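import Pool.Agent.Lib.K5P.PInv
import Pool.Agent.Lib.K5P.PDiff

/-!
# K5P.PLim : limits of subcritical points are subcritical inside the domain of finiteness

PROOF. `p n = (r n, s n, y n, t n)`, `q0 = (x, z, T)`. By `inv_pt` `y n = yf S (q n)`, `t n = tf S (q n)`; by `diffs3` (`kf S q0 ≥ 1` by `kf_ge`) these converge to `y0 = yf S q0 > 0`, `t0 = tf S q0 > 0` (`kf_ge`). From `pb = 1`, `s n > 0`:
`1 - y n (s n + 2 r n) - .. > 0`, so `s n < 1 / y n`, `r n < 1 / y n`: for large `n` the sequence `(r n, s n)` is in the compact set `Icc 0 (2 / y0) ×ˢ Icc 0 (2 / y0)`; also `px (p n) ≤ r n`, `1 ≤ s n`. A subsequence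
(`IsCompact.tendsto_subseq`) converges to `(r0, s0)` with `r0 ≥ x > 0`, `s0 ≥ 1`. The polynomials `px`, `pb`, `pj` are continuous, so `(r0, s0, y0, t0)` is `Good` with `px = x` (nonstrict inequalities pass to the limit). `pkap > 0` there by
`S.hAS`, so `pD`, `pT` are continuous at this point and `Th (r0, s0, y0, t0) = lim q n = q0`. If `4 r s (..)^2 < pj^2` it is subcritical. Otherwise equality holds, it is `Crit`, and `Sys.cl S` (with `0 < pD = z`,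
the numbers `z1 > z`, `T1 > T` of `Fin3 S q0`, and finiteness at `x ≤ x1` by `ser_mono`) gives `False`.
-/

set_option autoImplicit false

namespace K5P

open K5N
open scoped ENNReal Topology

namespace PLimAux

theorem c_px : Continuous fun p : ℝ × ℝ × ℝ × ℝ => px p.1 p.2.1 p.2.2.1 p.2.2.2 := by
  unfold px
  fun_prop

theorem c_pb : Continuous fun p : ℝ × ℝ × ℝ × ℝ => pb p.1 p.2.1 p.2.2.1 p.2.2.2 := by
  unfold pb
  fun_prop

theorem c_pj : Continuous fun p : ℝ × ℝ × ℝ × ℝ => pj p.1 p.2.1 p.2.2.1 p.2.2.2 := by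
  unfold pj
  fun_prop

theorem c_pw1 : Continuous fun p : ℝ × ℝ × ℝ × ℝ => pw1 p.1 p.2.1 p.2.2.1 p.2.2.2 := by
  unfold pw1
  fun_prop

theorem c_pw2 : Continuous fun p : ℝ × ℝ × ℝ × ℝ => pw2 p.1 p.2.1 p.2.2.1 p.2.2.2 := by
  unfold pw2
  fun_prop

theorem c_sub : Continuous fun p : ℝ × ℝ × ℝ × ℝ =>
    4 * p.1 * p.2.1 * (p.2.2.1 + 3 * p.2.2.2 * (p.1 + p.2.1)) ^ 2 := by
  fun_prop

theorem ca_kap {p : ℝ × ℝ × ℝ × ℝ} (h : px p.1 p.2.1 p.2.2.1 p.2.2.2 ≠ 0) :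
    ContinuousAt (fun p : ℝ × ℝ × ℝ × ℝ => pkap p.1 p.2.1 p.2.2.1 p.2.2.2) p := by
  unfold pkap
  exact c_pw1.continuousAt.div c_px.continuousAt h

theorem ca_Th {p : ℝ × ℝ × ℝ × ℝ} (h : px p.1 p.2.1 p.2.2.1 p.2.2.2 ≠ 0)
    (hk : pkap p.1 p.2.1 p.2.2.1 p.2.2.2 ≠ 0) : ContinuousAt Th p := by
  unfold Th
  refine c_px.continuousAt.prodMk (ContinuousAt.prodMk ?_ ?_)
  · unfold pD
    exact (((c_pw2.continuousAt.div ((ca_kap h).pow 2) (pow_ne_zero 2 hk)).sub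
      c_px.continuousAt).div (c_px.continuousAt.pow 2) (pow_ne_zero 2 h)).sub continuousAt_const
  · unfold pT
    have c : ContinuousAt (fun p : ℝ × ℝ × ℝ × ℝ => p.2.2.2) p := by fun_prop
    exact c.mul ((ca_kap h).pow 3)

theorem bound {p : ℝ × ℝ × ℝ × ℝ} (h : SubP p) {m : ℝ} (hm : 0 < m) (hy : m ≤ p.2.2.1) :
    (p.1, p.2.1) ∈ Set.Icc (0 : ℝ) (1 / (2 * m)) ×ˢ Set.Icc (0 : ℝ) (1 / (2 * m)) := by
  have hj : 0 ≤ pj p.1 p.2.1 p.2.2.1 p.2.2.2 := h.j_nonneg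
  have hr : 0 < p.1 := h.r_pos
  have hs : 0 < p.2.1 := h.s_pos
  have ht : 0 < p.2.2.2 := h.t_pos
  unfold pj at hj
  have h1 : 0 ≤ 3 * p.2.2.2 * (p.1 ^ 2 + 4 * p.1 * p.2.1 + p.2.1 ^ 2) := by positivity
  have h2 : p.1 + p.2.1 ≤ 1 / (2 * m) := by
    rw [le_div_iff₀ (by positivity)]
    nlinarith
  exact ⟨⟨hr.le, by linarith⟩, ⟨hs.le, by linarith⟩⟩

/-- The closed conditions give a subcritical point over `q0`. -/
theorem limit_sub (S : Sys) {q0 : ℝ × ℝ × ℝ} (hF : Fin3 S q0) {p0 : ℝ × ℝ × ℝ × ℝ}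
    (hr : 0 ≤ p0.1) (hs : 0 ≤ p0.2.1) (hy : 0 < p0.2.2.1) (ht : 0 < p0.2.2.2)
    (hx : px p0.1 p0.2.1 p0.2.2.1 p0.2.2.2 = q0.1)
    (hb : pb p0.1 p0.2.1 p0.2.2.1 p0.2.2.2 = 1)
    (hj : 0 ≤ pj p0.1 p0.2.1 p0.2.2.1 p0.2.2.2)
    (hsub : 4 * p0.1 * p0.2.1 * (p0.2.2.1 + 3 * p0.2.2.2 * (p0.1 + p0.2.1)) ^ 2 ≤
      pj p0.1 p0.2.1 p0.2.2.1 p0.2.2.2 ^ 2)
    (hTh : Good p0.1 p0.2.1 p0.2.2.1 p0.2.2.2 → Th p0 = q0) :
    SubP p0 ∧ Th p0 = q0 := by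
  have hr' : 0 < p0.1 := by
    refine lt_of_le_of_ne hr fun h0 => ?_
    have h1 := hF.hx
    rw [← hx] at h1
    unfold px at h1
    rw [← h0] at h1
    norm_num at h1
  have hs' : 0 < p0.2.1 := by
    refine lt_of_le_of_ne hs fun h0 => ?_
    unfold pb at hb
    rw [← h0] at hb
    norm_num at hb
  have hG : Good p0.1 p0.2.1 p0.2.2.1 p0.2.2.2 :=
    ⟨hr', hs', hy.le, ht.le, by rw [hx]; exact hF.hx, hb, hj, hsub⟩
  have hT := hTh hG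
  refine ⟨?_, hT⟩
  refine ⟨hG, hy, ht, lt_of_le_of_ne hsub fun he => ?_⟩
  obtain ⟨x1, z1, T1, g1, g2, g3, g4, g5⟩ := hF.ex
  have e2 : pD p0.1 p0.2.1 p0.2.2.1 p0.2.2.2 = q0.2.1 := congrArg (fun q => q.2.1) hT
  have e3 : pT p0.1 p0.2.1 p0.2.2.1 p0.2.2.2 = q0.2.2 := congrArg (fun q => q.2.2) hT
  have hxl : ENNReal.ofReal (px p0.1 p0.2.1 p0.2.2.1 p0.2.2.2) ≤ ENNReal.ofReal x1 := by
    rw [hx]
    exact ENNReal.ofReal_le_ofReal g1.le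
  refine S.cl ⟨hG, hy, ht, he⟩ (by rw [e2]; exact hF.hz) (z1 := z1) (t1 := T1)
    (by rw [e2]; exact g2) (by rw [e3]; exact g3) ?_ ?_
  · exact ne_top_of_le_ne_top g4 (ser_mono _ hxl le_rfl le_rfl le_rfl)
  · exact ne_top_of_le_ne_top g5 (ser_mono _ hxl le_rfl le_rfl le_rfl)

end PLimAux

open PLimAux

theorem lim_pt (S : Sys) {q : ℕ → ℝ × ℝ × ℝ} {q0 : ℝ × ℝ × ℝ}
    (hq : Filter.Tendsto q Filter.atTop (𝓝 q0)) (hF : Fin3 S q0) (hY : 0 < Yp S q0)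
    {p : ℕ → ℝ × ℝ × ℝ × ℝ} (hp : ∀ n, SubP (p n)) (hT : ∀ n, Th (p n) = q n) :
    ∃ p0 : ℝ × ℝ × ℝ × ℝ, SubP p0 ∧ Th p0 = q0 := by
  obtain ⟨hk1, hy0, -, ht0, -⟩ := kf_ge hF hY
  have hk0 : kf S q0 ≠ 0 := by
    intro h0
    rw [h0] at hk1
    linarith
  obtain ⟨-, -, -, -, dy, dt⟩ := diffs3 hF hk0
  have ty : Filter.Tendsto (fun n => (p n).2.2.1) Filter.atTop (𝓝 (yf S q0)) := by
    refine (dy.continuousAt.tendsto.comp hq).congr fun n => ?_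
    obtain ⟨-, -, -, -, -, -, -, h, -, -⟩ := inv_pt S (hp n)
    rw [hT n] at h
    exact h
  have tt : Filter.Tendsto (fun n => (p n).2.2.2) Filter.atTop (𝓝 (tf S q0)) := by
    refine (dt.continuousAt.tendsto.comp hq).congr fun n => ?_
    obtain ⟨-, -, -, -, -, -, -, -, h, -⟩ := inv_pt S (hp n)
    rw [hT n] at h
    exact h
  have hev : ∀ᶠ n in Filter.atTop, (fun n => ((p n).1, (p n).2.1)) n ∈
      Set.Icc (0 : ℝ) (1 / (2 * (yf S q0 / 2))) ×ˢ Set.Icc (0 : ℝ) (1 / (2 * (yf S q0 / 2))) := by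
    filter_upwards [ty.eventually (lt_mem_nhds (half_lt_self hy0))] with n hn
    exact bound (hp n) (half_pos hy0) hn.le
  obtain ⟨a, ha, φ, hφ, hlim⟩ := (isCompact_Icc.prod isCompact_Icc).tendsto_subseq' hev.frequently
  have hφt := hφ.tendsto_atTop
  have hp0 : Filter.Tendsto (fun n => p (φ n)) Filter.atTop
      (𝓝 ((a.1, a.2, yf S q0, tf S q0) : ℝ × ℝ × ℝ × ℝ)) := by
    have h1 : Filter.Tendsto (fun n => (p (φ n)).1) Filter.atTop (𝓝 a.1) :=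
      (continuous_fst.tendsto a).comp hlim
    have h2 : Filter.Tendsto (fun n => (p (φ n)).2.1) Filter.atTop (𝓝 a.2) :=
      (continuous_snd.tendsto a).comp hlim
    exact h1.prodMk_nhds (h2.prodMk_nhds ((ty.comp hφt).prodMk_nhds (tt.comp hφt)))
  have hqφ : Filter.Tendsto (fun n => Th (p (φ n))) Filter.atTop (𝓝 q0) :=
    (hq.comp hφt).congr fun n => (hT (φ n)).symm
  refine ⟨(a.1, a.2, yf S q0, tf S q0), limit_sub S hF ha.1.1 ha.2.1 hy0 ht0 ?_ ?_ ?_ ?_ ?_⟩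
  · exact tendsto_nhds_unique ((c_px.tendsto _).comp hp0) ((continuous_fst.tendsto q0).comp hqφ)
  · refine tendsto_nhds_unique ((c_pb.tendsto _).comp hp0) ?_
    exact tendsto_const_nhds.congr fun n => (hp (φ n)).b_eq.symm
  · exact ge_of_tendsto' ((c_pj.tendsto _).comp hp0) fun n => (hp (φ n)).j_nonneg
  · exact le_of_tendsto_of_tendsto' ((c_sub.tendsto _).comp hp0)
      (((c_pj.pow 2).tendsto _).comp hp0) fun n => (hp (φ n)).sub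
  · intro hG
    obtain ⟨hk, -, -⟩ := S.hAS _ _ _ _ hG
    exact tendsto_nhds_unique ((ca_Th hG.x_pos.ne' hk.ne').tendsto.comp hp0) hqφ

end K5P
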