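import Pool.Agent.Lib.K5P.PLoc
import Pool.Agent.Lib.K5P.PLim
import Pool.Agent.Lib.K5P.PConc

/-!
# K5P.PEx : the point of `(x, z, T)`

PROOFS. `start`: `near0` gives for small `y = t` a point with `px = x` near `(x, 1, 0, 0)`; there `pkap` is near 1, `pD` is near `pD x 1 0 0 = 0` and `pT = t κ^3` is small (continuity at `(x, 1, 0, 0)`: `px = x ≠ 0`, `pkap = 1 ≠ 0`).
`exists_pt`: let `p1` be the point of `start` with `ε ≤ z, T` (`q1 = Th p1 = (x, z1, T1)`, `0 < z1 < z`, `0 < T1 < T` by `inv_pt`), and `γ u = (x, (1 - u) z1 + u z, (1 - u) T1 + u T)` for `u ∈ [0, 1]`. Every `γ u` satisfies `Fin3 S`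
(`Fin3.mono`) and `0 < Yp S (γ u)` (`Yp_conc`: both end values are positive, `inv_pt` at `p1`). The set `A` of the `u` such that some subcritical `p` has `Th p = γ u` contains 0, is closed in `[0, 1]` (`lim_pt` with sequences), and if `u ∈ A`
then all `u'` near `u` are in `A` (`loc`). So `A = [0, 1]` (`IsClosed.Icc_subset_of_forall_mem_nhdsWithin`), `γ 1 = (x, z, T)`.
`PP_spec`: `PP_eq` or the definition. `PP_diff`: `loc` at `PP q`, and `P q' = PP q'` for `q'` near `q` by `PP_eq`. `PP_K`: `inv_pt`. `PP_lim`: by `kf_ge` and `inv_pt` the point `PP (x, z, T) = (r, s, y, t)` has `0 < y ≤ z < δ`,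
`0 < t ≤ T < δ`; `near0` gives a point with the same `y, t` and `px = x` near `(x, 1)`, and `good_unique` shows that it is the same.
-/

set_option autoImplicit false

namespace K5P

open K5N
open scoped ENNReal Topology

namespace PExAux

theorem cpx (x : ℝ) : ContinuousAt (fun p : ℝ × ℝ × ℝ × ℝ => px p.1 p.2.1 p.2.2.1 p.2.2.2)
    (x, 1, 0, 0) := by
  unfold px; fun_prop

theorem cpw1 (x : ℝ) : ContinuousAt (fun p : ℝ × ℝ × ℝ × ℝ => pw1 p.1 p.2.1 p.2.2.1 p.2.2.2)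
    (x, 1, 0, 0) := by
  unfold pw1; fun_prop

theorem cpw2 (x : ℝ) : ContinuousAt (fun p : ℝ × ℝ × ℝ × ℝ => pw2 p.1 p.2.1 p.2.2.1 p.2.2.2)
    (x, 1, 0, 0) := by
  unfold pw2; fun_prop

theorem px0 (x : ℝ) : px x 1 0 0 = x := by unfold px; ring
theorem pw10 (x : ℝ) : pw1 x 1 0 0 = x := by unfold pw1; ring
theorem pw20 (x : ℝ) : pw2 x 1 0 0 = x * (x + 1) := by unfold pw2; ring

theorem pkap0 {x : ℝ} (hx : x ≠ 0) : pkap x 1 0 0 = 1 := by
  unfold pkap; rw [px0, pw10]; exact div_self hx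

theorem pD0 {x : ℝ} (hx : x ≠ 0) : pD x 1 0 0 = 0 := by
  unfold pD; rw [px0, pw20, pkap0 hx]; field_simp; ring

theorem pT0 (x : ℝ) : pT x 1 0 0 = 0 := by
  unfold pT; ring

theorem ckap {x : ℝ} (hx : x ≠ 0) :
    ContinuousAt (fun p : ℝ × ℝ × ℝ × ℝ => pkap p.1 p.2.1 p.2.2.1 p.2.2.2) (x, 1, 0, 0) := by
  unfold pkap
  apply (cpw1 x).div (cpx x)
  show px x 1 0 0 ≠ 0
  rw [px0]; exact hx

theorem cT {x : ℝ} (hx : x ≠ 0) :
    ContinuousAt (fun p : ℝ × ℝ × ℝ × ℝ => pT p.1 p.2.1 p.2.2.1 p.2.2.2) (x, 1, 0, 0) := by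
  unfold pT
  exact ContinuousAt.mul (by fun_prop) ((ckap hx).pow 3)

theorem cD {x : ℝ} (hx : x ≠ 0) :
    ContinuousAt (fun p : ℝ × ℝ × ℝ × ℝ => pD p.1 p.2.1 p.2.2.1 p.2.2.2) (x, 1, 0, 0) := by
  unfold pD
  refine ((((cpw2 x).div ((ckap hx).pow 2) ?_).sub (cpx x)).div ((cpx x).pow 2) ?_).sub
    continuousAt_const
  · show pkap x 1 0 0 ^ 2 ≠ 0
    rw [pkap0 hx]; norm_num
  · show px x 1 0 0 ^ 2 ≠ 0
    rw [px0]; exact pow_ne_zero _ hx

/-- continuity at the starting point -/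
theorem near {x ε : ℝ} (hx : 0 < x) (hε : 0 < ε) : ∃ η > 0, ∀ r s y t : ℝ,
    |r - x| < η → |s - 1| < η → |y| < η → |t| < η → pD r s y t < ε ∧ pT r s y t < ε := by
  have h1 : ∀ᶠ p : ℝ × ℝ × ℝ × ℝ in 𝓝 (x, 1, 0, 0),
      pD p.1 p.2.1 p.2.2.1 p.2.2.2 < ε :=
    (cD hx.ne').eventually_lt continuousAt_const (by
      show pD x 1 0 0 < ε
      rw [pD0 hx.ne']; exact hε)
  have h2 : ∀ᶠ p : ℝ × ℝ × ℝ × ℝ in 𝓝 (x, 1, 0, 0),
      pT p.1 p.2.1 p.2.2.1 p.2.2.2 < ε :=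
    (cT hx.ne').eventually_lt continuousAt_const (by
      show pT x 1 0 0 < ε
      rw [pT0]; exact hε)
  obtain ⟨η, hη, h⟩ := Metric.eventually_nhds_iff.1 (h1.and h2)
  refine ⟨η, hη, fun r s y t a b c d => ?_⟩
  have := @h (r, s, y, t) (by
    simp only [Prod.dist_eq, Real.dist_eq, sub_zero, max_lt_iff]
    exact ⟨a, b, c, d⟩)
  exact this

end PExAux

theorem start (S : Sys) {x ε : ℝ} (hx : 0 < x) (hε : 0 < ε) :
    ∃ p : ℝ × ℝ × ℝ × ℝ, SubP p ∧ (Th p).1 = x ∧ (Th p).2.1 < ε ∧ (Th p).2.2 < ε := by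
  obtain ⟨η, hη, h⟩ := PExAux.near hx hε
  obtain ⟨δ, hδ, h'⟩ := near0 hx hη
  have hm : 0 < min η δ := lt_min hη hδ
  have hmη : min η δ / 2 < η := by linarith [min_le_left η δ]
  have hmδ : min η δ / 2 < δ := by linarith [min_le_right η δ]
  obtain ⟨r, s, hG, hlt, hpx, hr, hs⟩ := h' (min η δ / 2) (min η δ / 2) (by linarith) hmδ
    (by linarith) hmδ
  have ha : |min η δ / 2| < η := by rw [abs_of_pos (by linarith)]; exact hmη
  obtain ⟨a, b⟩ := h r s _ _ hr hs ha ha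
  exact ⟨(r, s, min η δ / 2, min η δ / 2),
    { toGood := hG, y_pos := by linarith, t_pos := by linarith, lt := hlt }, hpx, a, b⟩

/-- Existence of the subcritical point. -/
theorem exists_pt (S : Sys) {q : ℝ × ℝ × ℝ} (hF : Fin3 S q) (hY : 0 < Yp S q) :
    ∃ p : ℝ × ℝ × ℝ × ℝ, SubP p ∧ Th p = q := by
  obtain ⟨x, z, T⟩ := q
  have hx : 0 < x := hF.hx
  have hz : 0 < z := hF.hz
  have hT : 0 < T := hF.hT
  obtain ⟨p1, hp1, h1, h2, h3⟩ := start S hx (lt_min hz hT)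
  obtain ⟨-, -, hD, hTT, -, -, -, -, -, hYp⟩ := inv_pt S hp1
  obtain ⟨x1, z1, T1, hq1⟩ : ∃ (a b c : ℝ), Th p1 = (a, b, c) := ⟨_, _, _, rfl⟩
  rw [hq1] at h1 h2 h3 hD hTT hYp
  simp only at h1 h2 h3 hD hTT hYp
  subst h1
  have hz1 : z1 ≤ z := (h2.trans_le (min_le_left _ _)).le
  have hT1 : T1 ≤ T := (h3.trans_le (min_le_right _ _)).le
  let γ : ℝ → ℝ × ℝ × ℝ := fun u => (x1, (1 - u) * z1 + u * z, (1 - u) * T1 + u * T)
  have hγc : Continuous γ := by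
    show Continuous fun u => (x1, (1 - u) * z1 + u * z, (1 - u) * T1 + u * T)
    fun_prop
  have hkfin : ser S.kc (.ofReal x1) (.ofReal z) (.ofReal (1 + z)) (.ofReal T) ≠ ∞ := by
    obtain ⟨x2, z2, T2, a, b, c, d, -⟩ := hF.ex
    simp only at a b c
    exact ne_top_of_le_ne_top d (ser_mono _ (ENNReal.ofReal_le_ofReal a.le)
      (ENNReal.ofReal_le_ofReal b.le) (ENNReal.ofReal_le_ofReal (by linarith))
      (ENNReal.ofReal_le_ofReal c.le))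
  have hFin : ∀ u, 0 ≤ u → u ≤ 1 → Fin3 S (γ u) := by
    intro u h0 h1
    apply Fin3.mono hF hx le_rfl
    · nlinarith [mul_nonneg h0 (sub_nonneg.2 hz1)]
    · nlinarith [mul_nonneg (sub_nonneg.2 h1) (sub_nonneg.2 hz1)]
    · nlinarith [mul_nonneg h0 (sub_nonneg.2 hT1)]
    · nlinarith [mul_nonneg (sub_nonneg.2 h1) (sub_nonneg.2 hT1)]
  have hYu : ∀ u, 0 ≤ u → u ≤ 1 → 0 < Yp S (γ u) := by
    intro u h0 h1
    have h := Yp_conc S hx hD.le hz1 hTT.le hT1 h0 h1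
      (Tu := (1 - u) * T1 + u * T)
      (by nlinarith [mul_nonneg h0 (sub_nonneg.2 hT1)]) le_rfl hkfin
    refine lt_of_lt_of_le ?_ h
    rcases h0.eq_or_lt with h0 | h0
    · subst h0; simpa using hYp
    · have := mul_nonneg (sub_nonneg.2 h1) hYp.le
      have := mul_pos h0 hY
      linarith
  have h1A : (1 : ℝ) ∈ {u : ℝ | ∃ p, SubP p ∧ Th p = γ u} := by
    have key : Set.Icc (0:ℝ) 1 ⊆ {u : ℝ | ∃ p, SubP p ∧ Th p = γ u} := by
      apply IsClosed.Icc_subset_of_forall_mem_nhdsWithin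
      · apply IsSeqClosed.isClosed
        intro v u hv hu
        have huI : u ∈ Set.Icc (0:ℝ) 1 :=
          isClosed_Icc.mem_of_tendsto hu (Filter.Eventually.of_forall fun n => (hv n).2)
        choose p hp hpT using fun n => (hv n).1
        exact ⟨lim_pt S ((hγc.tendsto u).comp hu) (hFin u huI.1 huI.2) (hYu u huI.1 huI.2)
          hp hpT, huI⟩
      · refine ⟨p1, hp1, ?_⟩
        rw [hq1]; simp [γ]
      · rintro u ⟨⟨p, hp, hpT⟩, hu0, hu1⟩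
        have hF' : Fin3 S (Th p) := hpT ▸ hFin u hu0 hu1.le
        obtain ⟨P, -, -, hP⟩ := loc S hp hF'
        rw [hpT] at hP
        apply mem_nhdsWithin_of_mem_nhds
        filter_upwards [(hγc.tendsto u).eventually hP] with w hw
        exact ⟨_, hw⟩
    exact key ⟨zero_le_one, le_rfl⟩
  obtain ⟨p, hp, hpT⟩ := h1A
  refine ⟨p, hp, hpT.trans ?_⟩
  simp [γ]

theorem PP_spec (S : Sys) {q : ℝ × ℝ × ℝ} (hF : Fin3 S q) (hY : 0 < Yp S q) :
    SubP (PP q) ∧ Th (PP q) = q := by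
  obtain ⟨p, hp, hpT⟩ := exists_pt S hF hY
  rw [PP_eq S hp hpT]
  exact ⟨hp, hpT⟩

theorem PP_diff (S : Sys) {q : ℝ × ℝ × ℝ} (hF : Fin3 S q) (hY : 0 < Yp S q) :
    DifferentiableAt ℝ PP q := by
  obtain ⟨hp, hpT⟩ := PP_spec S hF hY
  have hF' : Fin3 S (Th (PP q)) := by rw [hpT]; exact hF
  obtain ⟨P, -, hd, hP⟩ := loc S hp hF'
  rw [hpT] at hd hP
  refine hd.congr_of_eventuallyEq ?_
  filter_upwards [hP] with q' hq'
  exact PP_eq S hq'.1 hq'.2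

theorem PP_K (S : Sys) {q : ℝ × ℝ × ℝ} (hF : Fin3 S q) (hY : 0 < Yp S q) :
    pK (PP q).1 (PP q).2.1 (PP q).2.2.1 (PP q).2.2.2 = KK S q ∧
    pA (PP q).1 (PP q).2.1 (PP q).2.2.1 (PP q).2.2.2 = AA S q := by
  obtain ⟨hp, hpT⟩ := PP_spec S hF hY
  obtain ⟨-, -, -, -, h1, h2, -⟩ := inv_pt S hp
  rw [hpT] at h1 h2
  exact ⟨h1.symm, h2.symm⟩

theorem PP_lim (S : Sys) {x ε : ℝ} (hx : 0 < x) (hε : 0 < ε) :
    ∃ δ > 0, ∀ z T : ℝ, z < δ → T < δ → Fin3 S (x, z, T) → 0 < Yp S (x, z, T) →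
      |(PP (x, z, T)).1 - x| < ε ∧ |(PP (x, z, T)).2.1 - 1| < ε ∧
      |(PP (x, z, T)).2.2.1| < ε ∧ |(PP (x, z, T)).2.2.2| < ε := by
  obtain ⟨δ, hδ, h⟩ := near0 hx hε
  refine ⟨min δ ε, lt_min hδ hε, fun z T hz hT hF hY => ?_⟩
  obtain ⟨hp, hpT⟩ := PP_spec S hF hY
  obtain ⟨-, -, -, -, -, -, -, hy, ht, -⟩ := inv_pt S hp
  obtain ⟨-, k1, k2, k3, k4⟩ := kf_ge hF hY
  rw [hpT] at hy ht
  simp only at k2 k4
  obtain ⟨r, s, hG, -, hpx, hr, hs⟩ := h (yf S (x, z, T)) (tf S (x, z, T)) k1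
    (k2.trans_lt (hz.trans_le (min_le_left _ _))) k3 (k4.trans_lt (hT.trans_le (min_le_left _ _)))
  have hG' : Good (PP (x, z, T)).1 (PP (x, z, T)).2.1 (yf S (x, z, T)) (tf S (x, z, T)) := by
    have := hp.toGood
    rwa [← hy, ← ht] at this
  have hpx' : px (PP (x, z, T)).1 (PP (x, z, T)).2.1 (yf S (x, z, T)) (tf S (x, z, T)) = x := by
    have := congrArg Prod.fst hpT
    simp only [Th] at this
    rwa [← hy, ← ht] at this
  obtain ⟨e1, e2⟩ := good_unique hG' hG (hpx'.trans hpx.symm)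
  refine ⟨by rw [e1]; exact hr, by rw [e2]; exact hs, ?_, ?_⟩
  · rw [← hy, abs_of_pos k1]; exact k2.trans_lt (hz.trans_le (min_le_right _ _))
  · rw [← ht, abs_of_pos k3]; exact k4.trans_lt (hT.trans_le (min_le_right _ _))

end K5P
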