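import Pool.Agent.Lib.K5P.QDiff
import Pool.Agent.Lib.K5P.PEx

/-!
# K5P.QPath : the path of subcritical points

PROOFS. `Ok.nhds`: `Dom.nhds`, and `Yp S` is continuous at `qp S x z` (`diffs3`, `kf_ge`) composed with the differentiable map `qp` (`ar_diff`). `Ok.spec`: `PP_spec`, `PP_K`, `br_eq`: `pA = AA = ar`, so `pM = exp a - 1 - a - τ = 0`;
`pT0 = cT0 x τ z KK a = KK + x (1 + z)^2 cG a τ + (3/2) x^6 z^11 - x^4 z^8 / 4` with `cG a τ = e^a - 1 - a - a^2/2 - a (e^a - 1 - a) = - ((a - 1) e^a + 1 - a^2/2)`, which is `T0r S x z` by `kc_fin`.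
`Ok.diff`: `PP_diff` composed with `qp`. `ok_path`: `dom_of` and `Yp_path` with `τ z = tr S x z` (`tr_nonneg`, `tr_conv`; `kc_fin` for the finiteness). `lim0`: `PP_lim`, with `tr S x z → 0` (`tr S x z ≤ (z / z1) tr S x z1` by `tr_conv`, `z1 = Dr S x`); the
four coordinates converge. `net_eq`: `Ok.spec` at `z = Dr S x` and `Dr_spec`. `top_diff`: the map `w ↦ (w, Dr S w)` is differentiable (`Dr_diff`). `Yp_low`: `z = Dr S x ≥ 1`, so `z / (1 + z) ≥ 1 / 2`; the subtracted terms are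
nondecreasing in `x, z, T, K` (`x z^2 / (1 + x z)` too), `Dr S x ≤ Dr S x2`, `tr S x z ≤ tr S x2 z2` (`ar_le`), `KK` at `qp S x z` ≤ `KK` at `qp S x2 z2` (`ser_mono`).
-/

set_option autoImplicit false

namespace K5P

open K5N K5S
open scoped ENNReal Topology

variable {S : Sys2} {x z x1 : ℝ}

theorem Ok.nhds (h : Ok S x z) : ∀ᶠ p : ℝ × ℝ in 𝓝 (x, z), Ok S p.1 p.2 := by
  have hF := h.dom.fin3
  have hk := (kf_ge hF h.pos).1
  have hY : DifferentiableAt ℝ (Yp S.toSys) (qp S x z) :=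
    (diffs3 hF (by linarith)).2.2.1
  have hq := (ar_diff h.dom).2.2.2
  have hc : ContinuousAt (fun p : ℝ × ℝ => Yp S.toSys (qp S p.1 p.2)) (x, z) :=
    ContinuousAt.comp (x := ((x, z) : ℝ × ℝ)) (f := fun p : ℝ × ℝ => qp S p.1 p.2)
      (g := Yp S.toSys) hY.continuousAt hq.continuousAt
  have hpos : (0 : ℝ) < Yp S.toSys (qp S ((x, z) : ℝ × ℝ).1 ((x, z) : ℝ × ℝ).2) := h.pos
  filter_upwards [h.dom.nhds, hc.eventually (lt_mem_nhds hpos)] with p h1 h2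
  exact ⟨h1, h2⟩

theorem Ok.spec (h : Ok S x z) :
    SubP (PX S x z) ∧ Th (PX S x z) = qp S x z ∧
    K5C.pM (PX S x z).1 (PX S x z).2.1 (PX S x z).2.2.1 (PX S x z).2.2.2 = 0 ∧
    K5C.pT0 (PX S x z).1 (PX S x z).2.1 (PX S x z).2.2.1 (PX S x z).2.2.2 = T0r S x z := by
  have hF := h.dom.fin3
  obtain ⟨hs, hT⟩ := PP_spec S.toSys hF h.pos
  obtain ⟨eK, eA⟩ := PP_K S.toSys hF h.pos
  obtain ⟨f1, f2⟩ := h.dom.fin
  obtain ⟨-, eB⟩ := br_eq S h.dom.hx.le h.dom.hz.le f1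
  obtain ⟨-, eC⟩ := kc_fin S h.dom.hx.le h.dom.hz.le f1 f2
  rw [eB] at eA
  have hT' := hT
  unfold Th qp at hT'
  have ex : px (PX S x z).1 (PX S x z).2.1 (PX S x z).2.2.1 (PX S x z).2.2.2 = x :=
    congrArg Prod.fst hT'
  have ez : pD (PX S x z).1 (PX S x z).2.1 (PX S x z).2.2.1 (PX S x z).2.2.2 = z :=
    congrArg (fun q : ℝ × ℝ × ℝ => q.2.1) hT'
  have eT : pT (PX S x z).1 (PX S x z).2.1 (PX S x z).2.2.1 (PX S x z).2.2.2 = tr S x z :=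
    congrArg (fun q : ℝ × ℝ × ℝ => q.2.2) hT'
  have eK' : pK (PX S x z).1 (PX S x z).2.1 (PX S x z).2.2.1 (PX S x z).2.2.2 =
      KK S.toSys (qp S x z) := eK
  have eA' : pA (PX S x z).1 (PX S x z).2.1 (PX S x z).2.2.1 (PX S x z).2.2.2 = ar S x z := eA
  refine ⟨hs, hT, ?_, ?_⟩
  · unfold K5C.pM
    rw [eA', eT]
    unfold tr
    ring
  · unfold K5C.pT0 K5C.cT0 K5C.cG
    rw [eA', eT, eK', ex, ez]
    unfold tr at *
    linear_combination eC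

theorem Ok.diff (h : Ok S x z) : DifferentiableAt ℝ (fun p : ℝ × ℝ => PX S p.1 p.2) (x, z) := by
  have hP : DifferentiableAt ℝ PP (qp S x z) := PP_diff S.toSys h.dom.fin3 h.pos
  have hq := (ar_diff h.dom).2.2.2
  exact DifferentiableAt.comp (x := ((x, z) : ℝ × ℝ)) (f := fun p : ℝ × ℝ => qp S p.1 p.2)
    (g := PP) hP hq

theorem ok_path (hx : 0 < x) (hxx : x < x1) (h : S.Dg (.ofReal x1) ≠ ∞)
    (hY : 0 < Yp S.toSys (qp S x (Dr S x))) : ∀ z, 0 < z → z ≤ Dr S x → Ok S x z := by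
  have h1 : 1 ≤ Dr S x := (Dr_spec S hx (Dg_fin S hxx.le h)).1
  have h0 : 0 < Dr S x := by linarith
  obtain ⟨f1, f2⟩ := (dom_of S hx hxx h h0 le_rfl).fin
  intro z hz hzD
  refine ⟨dom_of S hx hxx h hz hzD, ?_⟩
  exact Yp_path S.toSys (τ := fun z => tr S x z) hx h0 (fun z _ _ => tr_nonneg S x z)
    (fun u hu hu1 => (tr_conv S hx h0.le hu hu1 f1).2) (kc_fin S hx.le h0.le f1 f2).1 hY z hz hzD

theorem lim0 (hx : 0 < x) (hxx : x < x1) (h : S.Dg (.ofReal x1) ≠ ∞)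
    (hY : 0 < Yp S.toSys (qp S x (Dr S x))) :
    Filter.Tendsto (fun z => PX S x z) (𝓝[>] 0) (𝓝 (x, 1, 0, 0)) := by
  have h1 : 1 ≤ Dr S x := (Dr_spec S hx (Dg_fin S hxx.le h)).1
  have h0 : 0 < Dr S x := by linarith
  obtain ⟨f1, -⟩ := (dom_of S hx hxx h h0 le_rfl).fin
  have key : ∀ ε : ℝ, 0 < ε → ∀ᶠ z in 𝓝[>] (0 : ℝ),
      |(PX S x z).1 - x| < ε ∧ |(PX S x z).2.1 - 1| < ε ∧
        |(PX S x z).2.2.1| < ε ∧ |(PX S x z).2.2.2| < ε := by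
    intro ε hε
    obtain ⟨δ, hδ, hP⟩ := PP_lim S.toSys hx hε
    have e1 : ∀ᶠ z in 𝓝[>] (0 : ℝ), 0 < z := eventually_mem_nhdsWithin
    have e2 : ∀ᶠ z in 𝓝[>] (0 : ℝ), z < δ := nhdsWithin_le_nhds (gt_mem_nhds hδ)
    have e3 : ∀ᶠ z in 𝓝[>] (0 : ℝ), z < Dr S x := nhdsWithin_le_nhds (gt_mem_nhds h0)
    have e4 : ∀ᶠ z in 𝓝[>] (0 : ℝ), z / Dr S x * tr S x (Dr S x) < δ := by
      have hc : Continuous (fun z : ℝ => z / Dr S x * tr S x (Dr S x)) := by fun_prop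
      have ht : Filter.Tendsto (fun z : ℝ => z / Dr S x * tr S x (Dr S x)) (𝓝 0) (𝓝 0) :=
        hc.tendsto' 0 0 (by simp)
      exact nhdsWithin_le_nhds (ht.eventually (gt_mem_nhds hδ))
    filter_upwards [e1, e2, e3, e4] with z a1 a2 a3 a4
    have hok := ok_path hx hxx h hY z a1 a3.le
    have ht : tr S x z ≤ z / Dr S x * tr S x (Dr S x) := by
      have := (tr_conv S hx h0.le (u := z / Dr S x) (by positivity)
        (by rw [div_le_one h0]; exact a3.le) f1).2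
      rwa [div_mul_cancel₀ _ h0.ne'] at this
    exact hP z (tr S x z) a2 (lt_of_le_of_lt ht a4) hok.dom.fin3 hok.pos
  have t1 : Filter.Tendsto (fun z => (PX S x z).1) (𝓝[>] 0) (𝓝 x) :=
    Metric.tendsto_nhds.2 fun ε hε => (key ε hε).mono fun z hz => by
      rw [Real.dist_eq]; exact hz.1
  have t2 : Filter.Tendsto (fun z => (PX S x z).2.1) (𝓝[>] 0) (𝓝 1) :=
    Metric.tendsto_nhds.2 fun ε hε => (key ε hε).mono fun z hz => by
      rw [Real.dist_eq]; exact hz.2.1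
  have t3 : Filter.Tendsto (fun z => (PX S x z).2.2.1) (𝓝[>] 0) (𝓝 0) :=
    Metric.tendsto_nhds.2 fun ε hε => (key ε hε).mono fun z hz => by
      rw [Real.dist_eq, sub_zero]; exact hz.2.2.1
  have t4 : Filter.Tendsto (fun z => (PX S x z).2.2.2) (𝓝[>] 0) (𝓝 0) :=
    Metric.tendsto_nhds.2 fun ε hε => (key ε hε).mono fun z hz => by
      rw [Real.dist_eq, sub_zero]; exact hz.2.2.2
  exact t1.prodMk_nhds (t2.prodMk_nhds (t3.prodMk_nhds t4))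

theorem net_eq (hx : 0 < x) (hxx : x < x1) (h : S.Dg (.ofReal x1) ≠ ∞)
    (hY : 0 < Yp S.toSys (qp S x (Dr S x))) :
    K5C.pNet 1 (PX S x (Dr S x)).1 (PX S x (Dr S x)).2.1 (PX S x (Dr S x)).2.2.1
      (PX S x (Dr S x)).2.2.2 = 0 := by
  obtain ⟨h1, -, -, h4⟩ := Dr_spec S hx (Dg_fin S hxx.le h)
  have h0 : 0 < Dr S x := by linarith
  obtain ⟨-, hT, -, hT0⟩ := (ok_path hx hxx h hY (Dr S x) h0 le_rfl).spec
  unfold Th qp at hT
  have ex : px (PX S x (Dr S x)).1 (PX S x (Dr S x)).2.1 (PX S x (Dr S x)).2.2.1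
      (PX S x (Dr S x)).2.2.2 = x := congrArg Prod.fst hT
  have ez : pD (PX S x (Dr S x)).1 (PX S x (Dr S x)).2.1 (PX S x (Dr S x)).2.2.1
      (PX S x (Dr S x)).2.2.2 = Dr S x := congrArg (fun q : ℝ × ℝ × ℝ => q.2.1) hT
  unfold K5C.pNet
  rw [hT0, ex, ez, h4]
  ring

theorem top_diff (hx : 0 < x) (hxx : x < x1) (h : S.Dg (.ofReal x1) ≠ ∞)
    (hY : 0 < Yp S.toSys (qp S x (Dr S x))) :
    DifferentiableAt ℝ (fun w => PX S w (Dr S w)) x := by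
  have h1 : 1 ≤ Dr S x := (Dr_spec S hx (Dg_fin S hxx.le h)).1
  have h0 : 0 < Dr S x := by linarith
  have hd := (ok_path hx hxx h hY (Dr S x) h0 le_rfl).diff
  have he : DifferentiableAt ℝ (fun w : ℝ => ((w, Dr S w) : ℝ × ℝ)) x :=
    differentiableAt_id.prodMk (Dr_diff S hx hxx h)
  exact DifferentiableAt.comp (x := x) (f := fun w : ℝ => ((w, Dr S w) : ℝ × ℝ))
    (g := fun p : ℝ × ℝ => PX S p.1 p.2) hd he

theorem Yp_low {x2 : ℝ} (hx : 0 < x) (hxx : x ≤ x2) (h : S.Dg (.ofReal x2) ≠ ∞)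
    (hb : ser2 S.rc (.ofReal x2) (.ofReal (Dr S x2)) ≠ ∞)
    (hn : x2 * Dr S x2 ^ 2 / (1 + x2 * Dr S x2) + x2 * (1 + Dr S x2) ^ 2 *
      (2 * tr S x2 (Dr S x2) + tr S x2 (Dr S x2) ^ 2) + 2 * KK S.toSys (qp S x2 (Dr S x2)) +
      2 * tr S x2 (Dr S x2) < 1 / 2) : 0 < Yp S.toSys (qp S x (Dr S x)) := by
  have hx2 : 0 < x2 := lt_of_lt_of_le hx hxx
  have hxf : S.Dg (.ofReal x) ≠ ∞ := Dg_fin S hxx h
  obtain ⟨z1, -, -, -⟩ := Dr_spec S hx hxf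
  obtain ⟨z21, -, c2, -⟩ := Dr_spec S hx2 h
  have hzz : Dr S x ≤ Dr S x2 := by
    unfold Dr
    refine ENNReal.toReal_mono h ?_
    rw [S.hDg, S.hDg]
    exact ser2_mono _ (ENNReal.ofReal_le_ofReal hxx) le_rfl
  have hTT : tr S x (Dr S x) ≤ tr S x2 (Dr S x2) := (ar_le S hxx hzz hb).2
  have hKK : KK S.toSys (qp S x (Dr S x)) ≤ KK S.toSys (qp S x2 (Dr S x2)) := by
    unfold KK qp
    simp only
    refine ENNReal.toReal_mono (kc_fin S hx2.le (by linarith) hb c2).1 ?_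
    exact ser_mono _ (ENNReal.ofReal_le_ofReal hxx) (ENNReal.ofReal_le_ofReal hzz)
      (ENNReal.ofReal_le_ofReal (by linarith)) (ENNReal.ofReal_le_ofReal hTT)
  have hT0 : 0 ≤ tr S x (Dr S x) := tr_nonneg S x _
  set K := KK S.toSys (qp S x (Dr S x)) with hK
  set K2 := KK S.toSys (qp S x2 (Dr S x2)) with hK2
  have hYeq : Yp S.toSys (qp S x (Dr S x)) = Dr S x / (1 + Dr S x) -
      x * Dr S x ^ 2 / (1 + x * Dr S x) -
      x * (1 + Dr S x) ^ 2 * (2 * tr S x (Dr S x) + tr S x (Dr S x) ^ 2) - 2 * K -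
      2 * tr S x (Dr S x) := by
    rw [hK]
    rfl
  rw [hYeq]
  clear_value K K2
  set T := tr S x (Dr S x) with hT
  set T2 := tr S x2 (Dr S x2) with hT2
  set w := Dr S x with hw
  set w2 := Dr S x2 with hw2
  clear_value T T2 w w2
  have b1 : 1 / 2 ≤ w / (1 + w) := by
    rw [div_le_div_iff₀ (by norm_num) (by linarith)]
    linarith
  have b2 : x * w ^ 2 / (1 + x * w) ≤ x2 * w2 ^ 2 / (1 + x2 * w2) := by
    have w0 : 0 < w := by linarith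
    have w20 : 0 < w2 := by linarith
    rw [div_le_div_iff₀ (by positivity) (by positivity)]
    have c1 : x * w ^ 2 ≤ x2 * w2 ^ 2 := by gcongr
    have c2 : x * x2 * (w * w2) * w ≤ x * x2 * (w * w2) * w2 := by gcongr
    nlinarith [c1, c2]
  have b3 : x * (1 + w) ^ 2 * (2 * T + T ^ 2) ≤ x2 * (1 + w2) ^ 2 * (2 * T2 + T2 ^ 2) := by
    have w0 : 0 < w := by linarith
    gcongr
  linarith

end K5P
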