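import Pool.Agent.Lib.K5P.Op

/-!
# K5P.Cl : continuation of the admissible points along a path `z ↦ (x, z, tau z)`
-/

namespace K5P

open scoped ENNReal Topology
open K5N K5N.CL Set

noncomputable section

/-- The core series are finite at a strictly larger point. -/
def Inner (S : Sys) (x z T : ℝ) : Prop := ∃ z1 t1 : ℝ, z < z1 ∧ T < t1 ∧
  ser S.kc (.ofReal x) (.ofReal z1) (.ofReal (1 + z1)) (.ofReal t1) ≠ ∞ ∧
  ser S.ac (.ofReal x) (.ofReal z1) (.ofReal (1 + z1)) (.ofReal t1) ≠ ∞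

/-- `p` is a strictly subcritical point over `(x, z, T)`. -/
structure Over (p : E4) (x z T : ℝ) : Prop where
  int : Int p
  hx : px p.1 p.2.1 p.2.2.1 p.2.2.2 = x
  hD : pD p.1 p.2.1 p.2.2.1 p.2.2.2 = z
  hT : pT p.1 p.2.1 p.2.2.1 p.2.2.2 = T

theorem Over.psi_eq {p : E4} {x z T : ℝ} (h : Over p x z T) : psi p = (x, 1, z, T) := by
  unfold psi
  rw [h.hx, h.hD, h.hT, h.int.good.b_eq]

/-- An admissible point over an inner point is strictly subcritical. -/
theorem over_of_good (S : Sys) {p : E4} {x z T : ℝ} (h : GoodP p) (hy : 0 < p.2.2.1)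
    (hx : px p.1 p.2.1 p.2.2.1 p.2.2.2 = x) (hD : pD p.1 p.2.1 p.2.2.1 p.2.2.2 = z)
    (hT : pT p.1 p.2.1 p.2.2.1 p.2.2.2 = T) (hz : 0 < z) (hT0 : 0 < T) (hin : Inner S x z T) :
    Over p x z T := by
  obtain ⟨hk, -, -⟩ := S.hAS _ _ _ _ h
  have ht : 0 < p.2.2.2 := by
    have h1 : 0 < p.2.2.2 * pkap p.1 p.2.1 p.2.2.1 p.2.2.2 ^ 3 := by
      have : pT p.1 p.2.1 p.2.2.1 p.2.2.2 = p.2.2.2 * pkap p.1 p.2.1 p.2.2.1 p.2.2.2 ^ 3 := rfl
      rw [← this, hT]; exact hT0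
    exact pos_of_mul_pos_left h1 (pow_pos hk 3).le
  have hs : 4 * p.1 * p.2.1 * (p.2.2.1 + 3 * p.2.2.2 * (p.1 + p.2.1)) ^ 2 <
      pj p.1 p.2.1 p.2.2.1 p.2.2.2 ^ 2 := by
    refine lt_of_le_of_ne h.sub fun he => ?_
    have hc : Crit p.1 p.2.1 p.2.2.1 p.2.2.2 := ⟨h, hy, ht, he⟩
    obtain ⟨z1, t1, h1, h2, h3, h4⟩ := hin
    refine S.cl hc (by rw [hD]; exact hz) (z1 := z1) (t1 := t1) (by rw [hD]; exact h1)
      (by rw [hT]; exact h2) (by rw [hx]; exact h3) (by rw [hx]; exact h4)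
  have hj : 0 < pj p.1 p.2.1 p.2.2.1 p.2.2.2 := by
    refine lt_of_le_of_ne h.j_nonneg fun h0 => ?_
    rw [← h0] at hs
    have := h.r_pos
    have := h.s_pos
    have : 0 ≤ 4 * p.1 * p.2.1 * (p.2.2.1 + 3 * p.2.2.2 * (p.1 + p.2.1)) ^ 2 := by positivity
    linarith
  exact ⟨⟨h, hy, ht, hj, hs⟩, hx, hD, hT⟩

/-- Values of the inverse. -/
theorem Over.vals (S : Sys) {p : E4} {x z T : ℝ} (h : Over p x z T) (hz : 0 < z) :
    kf S x (z, T) = pkap p.1 p.2.1 p.2.2.1 p.2.2.2 ∧ yf S x (z, T) = p.2.2.1 ∧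
      tf S x (z, T) = p.2.2.2 := by
  obtain ⟨-, h2, h3, h4⟩ := of_good S h.int.good (by rw [h.hD]; exact hz.le)
  rw [h.hx, h.hD, h.hT] at h2 h3 h4
  exact ⟨h2, h3, h4⟩

theorem kf_ge (S : Sys) {x z T : ℝ} (hx : 0 < x) (hz : 0 < z) (hT : 0 < T)
    (hY : 0 < Yf S x (z, T) - 2 * T) : 1 ≤ kf S x (z, T) := by
  have hA : 0 ≤ AA S x (z, T) := ENNReal.toReal_nonneg
  have hN : 0 ≤ Nf S x (z, T) := by
    unfold Nf
    have : (0 : ℝ) ≤ 1 + T + AA S x (z, T) := by linarith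
    exact mul_nonneg (by positivity) this
  unfold kf
  simp only
  have h1 : 0 ≤ (Yf S x (z, T) - 2 * T) * (1 + x * (1 + z)) :=
    mul_nonneg hY.le (by positivity)
  have h2 : 0 ≤ T * (1 + 3 * x * (1 + z) + x ^ 2 * Nf S x (z, T)) := by positivity
  linarith

theorem inner_diffs (S : Sys) {x z T : ℝ} (hx : 0 < x) (hz : 0 < z) (hT : 0 < T)
    (hin : Inner S x z T) (hY : 0 < Yf S x (z, T) - 2 * T) :
    DifferentiableAt ℝ (yf S x) (z, T) ∧ DifferentiableAt ℝ (tf S x) (z, T) ∧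
      DifferentiableAt ℝ (kf S x) (z, T) := by
  obtain ⟨z1, t1, h1, h2, h3, h4⟩ := hin
  have dK : DifferentiableAt ℝ (KK S x) (z, T) := ser_diff S.kc hx hz h1 hT h2 h3
  have dA : DifferentiableAt ℝ (AA S x) (z, T) := ser_diff S.ac hx hz h1 hT h2 h4
  obtain ⟨-, dk, dy, dt⟩ := diffs (q := (z, T)) hx hz dK dA
    (by have := kf_ge S hx hz hT hY; linarith)
  exact ⟨dy, dt, dk⟩

/-- Nearby points. -/
theorem Over.near (S : Sys) {p : E4} {x z T : ℝ} (h : Over p x z T) (hz : 0 < z)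
    (hin : Inner S x z T) (n : WithTop ℕ∞) (hn : n ≠ 0) :
    ∃ g : ℝ × ℝ → E4, ContDiffAt ℝ n g (z, T) ∧ g (z, T) = p ∧
      ∀ᶠ q in 𝓝 (z, T), Over (g q) x q.1 q.2 := by
  obtain ⟨z1, t1, h1, h2, h3, h4⟩ := hin
  obtain ⟨g, hg, hg0, hgr, -⟩ := local_inv S h.int (by rw [h.hD]; exact hz)
    (z1 := z1) (t1 := t1) (by rw [h.hD]; exact h1) (by rw [h.hT]; exact h2)
    (by rw [h.hx]; exact h3) (by rw [h.hx]; exact h4) n hn
  have hp := h.psi_eq
  rw [hp] at hg hg0 hgr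
  have hi : ContDiff ℝ n (fun q : ℝ × ℝ => ((x, 1, q.1, q.2) : E4)) := by fun_prop
  refine ⟨fun q => g (x, 1, q.1, q.2), ?_, hg0, ?_⟩
  · exact ContDiffAt.comp (z, T) hg hi.contDiffAt
  · have ht : Filter.Tendsto (fun q : ℝ × ℝ => ((x, 1, q.1, q.2) : E4)) (𝓝 (z, T))
        (𝓝 (x, 1, z, T)) := (hi.continuous.continuousAt (x := (z, T))).tendsto
    filter_upwards [ht.eventually hgr] with q hq
    obtain ⟨e, hI⟩ := hq
    have e1 := congrArg Prod.fst e
    have e3 := congrArg (fun q : E4 => q.2.2.1) e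
    have e4 := congrArg (fun q : E4 => q.2.2.2) e
    exact ⟨hI rfl, e1, e3, e4⟩

/-- Continuation. -/
theorem cont (S : Sys) {x za zm : ℝ} {tau : ℝ → ℝ} (hx : 0 < x) (hza : 0 < za)
    (hτ : ContinuousOn tau (Icc za zm)) (hτ0 : ∀ z ∈ Icc za zm, 0 < tau z)
    (hin : ∀ z ∈ Icc za zm, Inner S x z (tau z))
    (hY : ∀ z ∈ Icc za zm, 0 < Yf S x (z, tau z) - 2 * tau z)
    (h0 : ∃ p, Over p x za (tau za)) : ∀ z ∈ Icc za zm, ∃ p, Over p x z (tau z) := by
  rcases lt_or_ge zm za with hlt | hle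
  · intro z hz
    exact absurd (hz.1.trans hz.2) (not_le.2 hlt)
  -- the functions of `z`
  have hpair : ContinuousOn (fun z => (z, tau z)) (Icc za zm) := continuousOn_id.prodMk hτ
  have hpos : ∀ z ∈ Icc za zm, 0 < z := fun z hz => hza.trans_le hz.1
  have hky : ∀ z ∈ Icc za zm, 1 ≤ kf S x (z, tau z) := fun z hz =>
    kf_ge S hx (hpos z hz) (hτ0 z hz) (hY z hz)
  have cy : ContinuousOn (fun z => yf S x (z, tau z)) (Icc za zm) := fun z hz =>
    ContinuousAt.comp_continuousWithinAt (f := fun z => (z, tau z)) (g := yf S x)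
      (inner_diffs S hx (hpos z hz) (hτ0 z hz) (hin z hz) (hY z hz)).1.continuousAt (hpair z hz)
  have ct : ContinuousOn (fun z => tf S x (z, tau z)) (Icc za zm) := fun z hz =>
    ContinuousAt.comp_continuousWithinAt (f := fun z => (z, tau z)) (g := tf S x)
      (inner_diffs S hx (hpos z hz) (hτ0 z hz) (hin z hz) (hY z hz)).2.1.continuousAt (hpair z hz)
  have ck : ContinuousOn (fun z => kf S x (z, tau z)) (Icc za zm) := fun z hz =>
    ContinuousAt.comp_continuousWithinAt (f := fun z => (z, tau z)) (g := kf S x)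
      (inner_diffs S hx (hpos z hz) (hτ0 z hz) (hin z hz) (hY z hz)).2.2.continuousAt (hpair z hz)
  have hyp : ∀ z ∈ Icc za zm, 0 < yf S x (z, tau z) := fun z hz =>
    div_pos (hY z hz) (pow_pos (lt_of_lt_of_le one_pos (hky z hz)) 2)
  have htp : ∀ z ∈ Icc za zm, 0 < tf S x (z, tau z) := fun z hz =>
    div_pos (hτ0 z hz) (pow_pos (lt_of_lt_of_le one_pos (hky z hz)) 3)
  -- lower bound of `y`
  obtain ⟨zmin, hzmin, hmin⟩ := isCompact_Icc.exists_isMinOn (nonempty_Icc.2 hle) cy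
  set m := yf S x (zmin, tau zmin) with hm
  have hm0 : 0 < m := hyp zmin hzmin
  set M := 1 / (2 * m) with hM
  -- the compact set
  set K0 : Set (ℝ × ℝ × ℝ) := Icc za zm ×ˢ (Icc 0 M ×ˢ Icc 0 M) with hK0
  have hK0c : IsCompact K0 := isCompact_Icc.prod (isCompact_Icc.prod isCompact_Icc)
  set F : ℝ × ℝ × ℝ → E4 := fun q =>
    (q.2.1, q.2.2, yf S x (q.1, tau q.1), tf S x (q.1, tau q.1)) with hF
  have hfst : MapsTo (Prod.fst : ℝ × ℝ × ℝ → ℝ) K0 (Icc za zm) := fun q hq => hq.1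
  have cF : ContinuousOn F K0 := by
    refine ContinuousOn.prodMk (by fun_prop) (ContinuousOn.prodMk (by fun_prop) ?_)
    exact ContinuousOn.prodMk (cy.comp continuousOn_fst hfst) (ct.comp continuousOn_fst hfst)
  have ckk : ContinuousOn (fun q : ℝ × ℝ × ℝ => kf S x (q.1, tau q.1)) K0 :=
    ck.comp continuousOn_fst hfst
  set H : ℝ × ℝ × ℝ → ℝ × ℝ × ℝ × ℝ × ℝ × ℝ := fun q =>
    (px (F q).1 (F q).2.1 (F q).2.2.1 (F q).2.2.2 - x,
      pb (F q).1 (F q).2.1 (F q).2.2.1 (F q).2.2.2 - 1,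
      pw1 (F q).1 (F q).2.1 (F q).2.2.1 (F q).2.2.2 - kf S x (q.1, tau q.1) * x,
      pw2 (F q).1 (F q).2.1 (F q).2.2.1 (F q).2.2.2 -
        kf S x (q.1, tau q.1) ^ 2 * (x + x ^ 2 * (1 + q.1)),
      pj (F q).1 (F q).2.1 (F q).2.2.1 (F q).2.2.2,
      pj (F q).1 (F q).2.1 (F q).2.2.1 (F q).2.2.2 ^ 2 - 4 * (F q).1 * (F q).2.1 *
        ((F q).2.2.1 + 3 * (F q).2.2.2 * ((F q).1 + (F q).2.1)) ^ 2) with hH
  have cH : ContinuousOn H K0 := by
    have a1 := (cd_px (n := 0)).continuous.comp_continuousOn cF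
    have a2 := (cd_pb (n := 0)).continuous.comp_continuousOn cF
    have a3 := (cd_pw1 (n := 0)).continuous.comp_continuousOn cF
    have a4 := (cd_pw2 (n := 0)).continuous.comp_continuousOn cF
    have a5 := (cd_pj (n := 0)).continuous.comp_continuousOn cF
    have a6 := (by fun_prop : Continuous fun p : E4 =>
      4 * p.1 * p.2.1 * (p.2.2.1 + 3 * p.2.2.2 * (p.1 + p.2.1)) ^ 2).comp_continuousOn cF
    refine (a1.sub continuousOn_const).prodMk ((a2.sub continuousOn_const).prodMk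
      ((a3.sub (ckk.mul continuousOn_const)).prodMk ((a4.sub ((ckk.pow 2).mul
        (by fun_prop))).prodMk (a5.prodMk ((a5.pow 2).sub a6)))))
  set Z : Set (ℝ × ℝ × ℝ × ℝ × ℝ × ℝ) :=
    {0} ×ˢ ({0} ×ˢ ({0} ×ˢ ({0} ×ˢ (Ici 0 ×ˢ Ici 0)))) with hZ
  have hZc : IsClosed Z := isClosed_singleton.prod (isClosed_singleton.prod
    (isClosed_singleton.prod (isClosed_singleton.prod (isClosed_Ici.prod isClosed_Ici))))
  have hCc : IsCompact (K0 ∩ H ⁻¹' Z) :=
    hK0c.of_isClosed_subset (cH.preimage_isClosed_of_isClosed hK0c.isClosed hZc) inter_subset_left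
  have hZmem : ∀ q, q ∈ H ⁻¹' Z ↔ ((H q).1 = 0 ∧ (H q).2.1 = 0 ∧ (H q).2.2.1 = 0 ∧
      (H q).2.2.2.1 = 0 ∧ 0 ≤ (H q).2.2.2.2.1 ∧ 0 ≤ (H q).2.2.2.2.2) := by
    intro q
    simp only [hZ, mem_preimage, mem_prod, mem_singleton_iff, mem_Ici]
  have hclosed : IsClosed ({z | ∃ p, Over p x z (tau z)} ∩ Icc za zm) := by
    have e : {z | ∃ p, Over p x z (tau z)} ∩ Icc za zm = Prod.fst '' (K0 ∩ H ⁻¹' Z) := by
      ext z
      constructor
      · rintro ⟨⟨p, hp⟩, hz⟩
        obtain ⟨v1, v2, v3⟩ := hp.vals S (hpos z hz)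
        obtain ⟨hk, -, -⟩ := S.hAS _ _ _ _ hp.int.good
        have hFp : F (z, p.1, p.2.1) = p := by
          simp only [hF, v2, v3]
        have hb : p.1 + p.2.1 ≤ M := by
          have h1 := hp.int.j_pos
          have h2 : m ≤ p.2.2.1 := by rw [← v2]; exact hmin hz
          have r0 := hp.int.good.r_pos
          have s0 := hp.int.good.s_pos
          have t0 := hp.int.t_pos
          unfold pj at h1
          have h3 : 0 ≤ 3 * p.2.2.2 * (p.1 ^ 2 + 4 * p.1 * p.2.1 + p.2.1 ^ 2) := by positivity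
          rw [hM, le_div_iff₀ (by positivity)]
          nlinarith
        have r0 := hp.int.good.r_pos
        have s0 := hp.int.good.s_pos
        refine ⟨(z, p.1, p.2.1), ⟨⟨hz, ⟨r0.le, by linarith⟩, ⟨s0.le, by linarith⟩⟩, ?_⟩, rfl⟩
        rw [hZmem]
        simp only [hH, hFp]
        refine ⟨sub_eq_zero.2 hp.hx, sub_eq_zero.2 hp.int.good.b_eq, ?_, ?_, hp.int.j_pos.le,
          (sub_pos.2 hp.int.str).le⟩
        · rw [v1, sub_eq_zero, ← hp.hx]
          unfold pkap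
          rw [div_mul_cancel₀ _ hp.int.good.x_pos.ne']
        · rw [v1, sub_eq_zero]
          have hx' := hp.hx
          have hD' := hp.hD
          unfold pD at hD'
          rw [hx'] at hD'
          rw [← hD']
          field_simp
          ring
      · rintro ⟨⟨z', r, s⟩, ⟨hq, hq2⟩, rfl⟩
        obtain ⟨hz, hr, hs⟩ := hq
        simp only at hz hr hs ⊢
        rw [hZmem] at hq2
        simp only [hH, hF] at hq2
        obtain ⟨b1, b2, b3, b4, b5, b6⟩ := hq2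
        set y := yf S x (z', tau z') with hy
        set t := tf S x (z', tau z') with ht
        set k := kf S x (z', tau z') with hk
        have hk1 : 1 ≤ k := hky z' hz
        have hk0 : 0 < k := lt_of_lt_of_le one_pos hk1
        have hx' : px r s y t = x := sub_eq_zero.1 b1
        have hr0 : 0 < r := lt_of_le_of_ne hr.1 fun h => by
          rw [← h] at hx'
          unfold px at hx'
          simp at hx'
          linarith
        have hb' : pb r s y t = 1 := sub_eq_zero.1 b2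
        have hs0 : 0 < s := lt_of_le_of_ne hs.1 fun h => by
          rw [← h] at hb'
          unfold pb at hb'
          simp at hb'
        have hkap : pkap r s y t = k := by
          unfold pkap
          rw [hx', div_eq_iff hx.ne']
          exact sub_eq_zero.1 b3
        have hgood : Good r s y t := ⟨hr0, hs0, (hyp z' hz).le, (htp z' hz).le,
          by rw [hx']; exact hx, hb', b5, sub_nonneg.1 b6⟩
        have hD' : pD r s y t = z' := by
          unfold pD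
          rw [hx', hkap, sub_eq_zero.1 b4]
          field_simp
          ring
        have hT' : pT r s y t = tau z' := by
          unfold pT
          rw [hkap, ht]
          unfold tf
          rw [← hk]
          field_simp
        exact ⟨⟨(r, s, y, t), over_of_good S hgood (hyp z' hz) hx' hD' hT' (hpos z' hz)
          (hτ0 z' hz) (hin z' hz)⟩, hz⟩
    rw [e]
    exact (hCc.image continuous_fst).isClosed
  have hsub : Icc za zm ⊆ {z | ∃ p, Over p x z (tau z)} := by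
    refine hclosed.Icc_subset_of_forall_exists_gt h0 ?_
    rintro z ⟨⟨p, hp⟩, hz⟩ w hw
    have hz' : z ∈ Icc za zm := ⟨hz.1, hz.2.le⟩
    obtain ⟨g, -, -, hg⟩ := hp.near S (hpos z hz') (hin z hz') 1 one_ne_zero
    have ht : Filter.Tendsto (fun z => (z, tau z)) (𝓝[Icc za zm] z) (𝓝 (z, tau z)) := hpair z hz'
    have h1 : ∀ᶠ z' in 𝓝[Icc za zm] z, Over (g (z', tau z')) x z' (tau z') := ht.eventually hg
    have h2 : ∀ᶠ z' in 𝓝[>] z, Over (g (z', tau z')) x z' (tau z') := by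
      have h3 : 𝓝[>] z ≤ 𝓝[Icc za zm] z := by
        rw [nhdsWithin_le_iff]
        filter_upwards [Ioc_mem_nhdsGT hz.2] with z' hz'
        exact ⟨hz.1.trans hz'.1.le, hz'.2⟩
      exact h1.filter_mono h3
    have h4 : ∀ᶠ z' in 𝓝[>] z, z' ∈ Ioc z w := Ioc_mem_nhdsGT hw
    obtain ⟨z', h5, h6⟩ := (h2.and h4).exists
    exact ⟨z', ⟨_, h5⟩, h6⟩
  exact fun z hz => hsub hz

end

end K5P
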