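import Pool.Agent.Lib.K5N.CL

/-!
# K5P.PDefs : the parameter point of `(x, z, T)`

`q = (x, z, T)`, `p = (r, s, y, t)`.
-/

set_option autoImplicit false

namespace K5P

open K5N
open scoped ENNReal Topology

noncomputable section

/-- The value of `K~` at `(x, z, 1 + z, T)`. -/
def KK (S : Sys) (q : ℝ × ℝ × ℝ) : ℝ :=
  (ser S.kc (.ofReal q.1) (.ofReal q.2.1) (.ofReal (1 + q.2.1)) (.ofReal q.2.2)).toReal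

/-- The value of `A~` at `(x, z, 1 + z, T)`. -/
def AA (S : Sys) (q : ℝ × ℝ × ℝ) : ℝ :=
  (ser S.ac (.ofReal q.1) (.ofReal q.2.1) (.ofReal (1 + q.2.1)) (.ofReal q.2.2)).toReal

/-- Both series are finite beyond the point `q`. -/
structure Fin3 (S : Sys) (q : ℝ × ℝ × ℝ) : Prop where
  hx : 0 < q.1
  hz : 0 < q.2.1
  hT : 0 < q.2.2
  ex : ∃ x1 z1 T1 : ℝ, q.1 < x1 ∧ q.2.1 < z1 ∧ q.2.2 < T1 ∧
    ser S.kc (.ofReal x1) (.ofReal z1) (.ofReal (1 + z1)) (.ofReal T1) ≠ ∞ ∧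
    ser S.ac (.ofReal x1) (.ofReal z1) (.ofReal (1 + z1)) (.ofReal T1) ≠ ∞

/-- `Y' = Y - 2 T`. -/
def Yp (S : Sys) (q : ℝ × ℝ × ℝ) : ℝ :=
  q.2.1 / (1 + q.2.1) - q.1 * q.2.1 ^ 2 / (1 + q.1 * q.2.1) -
    q.1 * (1 + q.2.1) ^ 2 * (2 * q.2.2 + q.2.2 ^ 2) - 2 * KK S q - 2 * q.2.2

/-- The value of `N3`. -/
def Nf (S : Sys) (q : ℝ × ℝ × ℝ) : ℝ := (1 + q.2.1) ^ 3 * (1 + q.2.2 + AA S q)

/-- The value of `κ`. -/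
def kf (S : Sys) (q : ℝ × ℝ × ℝ) : ℝ :=
  1 + Yp S q * (1 + q.1 * (1 + q.2.1)) +
    q.2.2 * (1 + 3 * q.1 * (1 + q.2.1) + q.1 ^ 2 * Nf S q)

/-- The value of `y`. -/
def yf (S : Sys) (q : ℝ × ℝ × ℝ) : ℝ := Yp S q / kf S q ^ 2

/-- The value of `t`. -/
def tf (S : Sys) (q : ℝ × ℝ × ℝ) : ℝ := q.2.2 / kf S q ^ 3

/-- Subcritical points. -/
structure Sub (r s y t : ℝ) : Prop extends Good r s y t where
  y_pos : 0 < y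
  t_pos : 0 < t
  lt : 4 * r * s * (y + 3 * t * (r + s)) ^ 2 < pj r s y t ^ 2

/-- Subcritical points. -/
def SubP (p : ℝ × ℝ × ℝ × ℝ) : Prop := Sub p.1 p.2.1 p.2.2.1 p.2.2.2

/-- The map `(r, s, y, t) ↦ (x, D, T)`. -/
def Th (p : ℝ × ℝ × ℝ × ℝ) : ℝ × ℝ × ℝ :=
  (px p.1 p.2.1 p.2.2.1 p.2.2.2, pD p.1 p.2.1 p.2.2.1 p.2.2.2, pT p.1 p.2.1 p.2.2.1 p.2.2.2)

open Classical in
/-- The subcritical point of `(x, z, T)`. -/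
def PP (q : ℝ × ℝ × ℝ) : ℝ × ℝ × ℝ × ℝ :=
  if h : ∃ p : ℝ × ℝ × ℝ × ℝ, SubP p ∧ Th p = q then h.choose else 0

end

end K5P
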