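import Pool.Agent.Lib.K5N.Sys

/-!
# K5P.PImp : the implicit function `(x, b, y, t) ↦ (r, s, y, t)`

PROOF of `imp`. The polynomial map `Γ (r, s, y, t) = (px, pb, y, t)` is smooth; its derivative at `p` maps `(a, b, c, d)` to `(pj a - 2 r k b + .., - 2 s k a + pj b + .., c, d)` with `k = y + 3 t (r + s)` (the dots are combinations of
`c, d`). It is injective: the kernel has `c = d = 0` and then `(pj^2 - 4 r s k^2) a = 0 = (pj^2 - 4 r s k^2) b`. So it is a linear equivalence (`LinearEquiv.ofInjectiveEndo`, `LinearEquiv.toContinuousLinearEquiv`) and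
`ContDiffAt.to_localInverse`, `HasStrictFDerivAt.eventually_right_inverse` (or `ContDiffAt.toOpenPartialHomeomorph`) give the smooth local inverse `g` with `Γ (g v) = v` near `Γ p`.
`near0`: `imp` at `(x, 1, 0, 0)`: `pj = 1`, `px = x`, `pb = 1`. For `v = (x, 1, y, t)` with small `y, t > 0` the point `g v` is near `(x, 1, 0, 0)`, so `r, s > 0`, `pj > 0`, `4 r s (..)^2 < pj^2`.
-/

set_option autoImplicit false

namespace K5P

open K5N
open scoped Topology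

namespace PImpAux

abbrev E := ℝ × ℝ × ℝ × ℝ

/-- The map `(r, s, y, t) ↦ (px, pb, y, t)`. -/
noncomputable def Gam (p : E) : E :=
  (px p.1 p.2.1 p.2.2.1 p.2.2.2, pb p.1 p.2.1 p.2.2.1 p.2.2.2, p.2.2.1, p.2.2.2)

theorem contDiff_Gam : ContDiff ℝ 1 Gam := by
  unfold Gam px pb
  fun_prop

theorem poly_deriv (c0 c1 c2 c3 : ℝ) :
    HasDerivAt (fun τ : ℝ => c0 + c1 * τ + c2 * τ ^ 2 + c3 * τ ^ 3) c1 0 := by
  have h : HasDerivAt (fun τ : ℝ => c0 + c1 * τ + c2 * τ ^ 2 + c3 * τ ^ 3)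
      (c1 * 1 + c2 * (((2 : ℕ) : ℝ) * id 0 ^ (2 - 1) * 1) + c3 * (((3 : ℕ) : ℝ) * id 0 ^ (3 - 1) * 1)) 0 :=
    ((((hasDerivAt_id (0 : ℝ)).const_mul c1).const_add c0).add
    (((hasDerivAt_id (0 : ℝ)).pow 2).const_mul c2)).add
    (((hasDerivAt_id (0 : ℝ)).pow 3).const_mul c3)
  have e : (c1 * 1 + c2 * (((2 : ℕ) : ℝ) * id 0 ^ (2 - 1) * 1) +
      c3 * (((3 : ℕ) : ℝ) * id 0 ^ (3 - 1) * 1)) = c1 := by simp
  rw [e] at h
  exact h

theorem line (p v : E) :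
    HasDerivAt (fun τ : ℝ => Gam (p + τ • v)) (fderiv ℝ Gam p v) 0 := by
  have h1 : HasFDerivAt Gam (fderiv ℝ Gam p) (p + (0 : ℝ) • v) := by
    rw [zero_smul, add_zero]
    exact (contDiff_Gam.contDiffAt.differentiableAt (by norm_num)).hasFDerivAt
  have h2 : HasDerivAt (fun τ : ℝ => p + τ • v) v 0 := by
    have := ((hasDerivAt_id (0 : ℝ)).smul_const v).const_add p
    simpa using this
  exact h1.comp_hasDerivAt (0 : ℝ) h2

theorem inj (r s y t : ℝ) (hd : 4 * r * s * (y + 3 * t * (r + s)) ^ 2 ≠ pj r s y t ^ 2) (v : E)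
    (hv : fderiv ℝ Gam (r, s, y, t) v = 0) : v = 0 := by
  obtain ⟨a, b, c, d⟩ := v
  have h := line (r, s, y, t) (a, b, c, d)
  rw [hv] at h
  have hc : c = 0 := by
    have h1 := ((ContinuousLinearMap.fst ℝ ℝ ℝ).comp
      ((ContinuousLinearMap.snd ℝ ℝ (ℝ × ℝ)).comp
        (ContinuousLinearMap.snd ℝ ℝ (ℝ × ℝ × ℝ)))).hasFDerivAt.comp_hasDerivAt (0 : ℝ) h
    have h2 : HasDerivAt (fun τ : ℝ => y + τ * c) 0 0 := by simpa [Gam, Function.comp_def] using h1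
    have h3 : HasDerivAt (fun τ : ℝ => y + τ * c) c 0 := by
      have := (hasDerivAt_mul_const (x := (0 : ℝ)) c).const_add y
      simpa using this
    exact h3.unique h2
  have hdd : d = 0 := by
    have h1 := ((ContinuousLinearMap.snd ℝ ℝ ℝ).comp
      ((ContinuousLinearMap.snd ℝ ℝ (ℝ × ℝ)).comp
        (ContinuousLinearMap.snd ℝ ℝ (ℝ × ℝ × ℝ)))).hasFDerivAt.comp_hasDerivAt (0 : ℝ) h
    have h2 : HasDerivAt (fun τ : ℝ => t + τ * d) 0 0 := by simpa [Gam, Function.comp_def] using h1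
    have h3 : HasDerivAt (fun τ : ℝ => t + τ * d) d 0 := by
      have := (hasDerivAt_mul_const (x := (0 : ℝ)) d).const_add t
      simpa using this
    exact h3.unique h2
  subst hc
  subst hdd
  have e1 : pj r s y t * a - 2 * r * (y + 3 * t * (r + s)) * b = 0 := by
    have h1 := (ContinuousLinearMap.fst ℝ ℝ (ℝ × ℝ × ℝ)).hasFDerivAt.comp_hasDerivAt (0 : ℝ) h
    have h2 : HasDerivAt (fun τ : ℝ => px (r + τ * a) (s + τ * b) y t) 0 0 := by
      simpa [Gam, Function.comp_def] using h1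
    have h3 := poly_deriv (px r s y t) (pj r s y t * a - 2 * r * (y + 3 * t * (r + s)) * b)
      (-y * a * (a + 2 * b) - t * (a * (2 * r * a + 6 * (r * b + s * a) + 6 * s * b)
        + r * (a ^ 2 + 6 * a * b + 3 * b ^ 2)))
      (-t * a * (a ^ 2 + 6 * a * b + 3 * b ^ 2))
    have h4 : (fun τ : ℝ => px (r + τ * a) (s + τ * b) y t) = fun τ : ℝ => px r s y t +
        (pj r s y t * a - 2 * r * (y + 3 * t * (r + s)) * b) * τ +
      (-y * a * (a + 2 * b) - t * (a * (2 * r * a + 6 * (r * b + s * a) + 6 * s * b)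
        + r * (a ^ 2 + 6 * a * b + 3 * b ^ 2))) * τ ^ 2 +
      (-t * a * (a ^ 2 + 6 * a * b + 3 * b ^ 2)) * τ ^ 3 := by
      funext τ
      simp only [px, pj]
      ring
    rw [h4] at h2
    exact h3.unique h2
  have e2 : -(2 * s * (y + 3 * t * (r + s)) * a) + pj r s y t * b = 0 := by
    have h1 := ((ContinuousLinearMap.fst ℝ ℝ (ℝ × ℝ)).comp
      (ContinuousLinearMap.snd ℝ ℝ (ℝ × ℝ × ℝ))).hasFDerivAt.comp_hasDerivAt (0 : ℝ) h
    have h2 : HasDerivAt (fun τ : ℝ => pb (r + τ * a) (s + τ * b) y t) 0 0 := by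
      simpa [Gam, Function.comp_def] using h1
    have h3 := poly_deriv (pb r s y t) (-(2 * s * (y + 3 * t * (r + s)) * a) + pj r s y t * b)
      (-y * b * (b + 2 * a) - t * (b * (2 * s * b + 6 * (s * a + r * b) + 6 * r * a)
        + s * (b ^ 2 + 6 * a * b + 3 * a ^ 2)))
      (-t * b * (b ^ 2 + 6 * a * b + 3 * a ^ 2))
    have h4 : (fun τ : ℝ => pb (r + τ * a) (s + τ * b) y t) = fun τ : ℝ => pb r s y t +
        (-(2 * s * (y + 3 * t * (r + s)) * a) + pj r s y t * b) * τ +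
      (-y * b * (b + 2 * a) - t * (b * (2 * s * b + 6 * (s * a + r * b) + 6 * r * a)
        + s * (b ^ 2 + 6 * a * b + 3 * a ^ 2))) * τ ^ 2 +
      (-t * b * (b ^ 2 + 6 * a * b + 3 * a ^ 2)) * τ ^ 3 := by
      funext τ
      simp only [pb, pj]
      ring
    rw [h4] at h2
    exact h3.unique h2
  have hd' : pj r s y t ^ 2 - 4 * r * s * (y + 3 * t * (r + s)) ^ 2 ≠ 0 :=
    sub_ne_zero.2 (Ne.symm hd)
  have ha : a = 0 := by
    have : (pj r s y t ^ 2 - 4 * r * s * (y + 3 * t * (r + s)) ^ 2) * a = 0 := by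
      linear_combination pj r s y t * e1 + 2 * r * (y + 3 * t * (r + s)) * e2
    exact (mul_eq_zero.1 this).resolve_left hd'
  have hb : b = 0 := by
    have : (pj r s y t ^ 2 - 4 * r * s * (y + 3 * t * (r + s)) ^ 2) * b = 0 := by
      linear_combination pj r s y t * e2 + 2 * s * (y + 3 * t * (r + s)) * e1
    exact (mul_eq_zero.1 this).resolve_left hd'
  rw [ha, hb]
  rfl

end PImpAux

open PImpAux

theorem imp {r s y t : ℝ} (hd : 4 * r * s * (y + 3 * t * (r + s)) ^ 2 ≠ pj r s y t ^ 2) :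
    ∃ g : ℝ × ℝ × ℝ × ℝ → ℝ × ℝ × ℝ × ℝ,
      ContDiffAt ℝ 1 g (px r s y t, pb r s y t, y, t) ∧
      g (px r s y t, pb r s y t, y, t) = (r, s, y, t) ∧
      ∀ᶠ v in 𝓝 (px r s y t, pb r s y t, y, t),
        px (g v).1 (g v).2.1 (g v).2.2.1 (g v).2.2.2 = v.1 ∧
        pb (g v).1 (g v).2.1 (g v).2.2.1 (g v).2.2.2 = v.2.1 ∧
        (g v).2.2.1 = v.2.2.1 ∧ (g v).2.2.2 = v.2.2.2 := by
  have hinj : Function.Injective (fderiv ℝ Gam (r, s, y, t)) :=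
    (injective_iff_map_eq_zero (fderiv ℝ Gam (r, s, y, t))).2 (fun v hv => inj r s y t hd v hv)
  let e0 : E ≃ₗ[ℝ] E := LinearEquiv.ofInjectiveEndo
    ((fderiv ℝ Gam (r, s, y, t) : E →L[ℝ] E) : E →ₗ[ℝ] E) hinj
  let e : E ≃L[ℝ] E := e0.toContinuousLinearEquiv
  have he : (e : E →L[ℝ] E) = fderiv ℝ Gam (r, s, y, t) := by
    ext <;> rfl
  have hf : HasFDerivAt Gam (e : E →L[ℝ] E) (r, s, y, t) := by
    rw [he]
    exact (contDiff_Gam.contDiffAt.differentiableAt (by norm_num)).hasFDerivAt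
  have hc : ContDiffAt ℝ 1 Gam (r, s, y, t) := contDiff_Gam.contDiffAt
  have h1 : (1 : WithTop ℕ∞) ≠ 0 := one_ne_zero
  refine ⟨hc.localInverse hf h1, hc.to_localInverse hf h1, hc.localInverse_apply_image hf h1, ?_⟩
  have hev := (hc.hasStrictFDerivAt' hf h1).eventually_right_inverse
  filter_upwards [hev] with v hv
  have h2 : Gam (hc.localInverse hf h1 v) = v := hv
  have e1 := congrArg (fun q : E => q.1) h2
  have e2 := congrArg (fun q : E => q.2.1) h2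
  have e3 := congrArg (fun q : E => q.2.2.1) h2
  have e4 := congrArg (fun q : E => q.2.2.2) h2
  exact ⟨e1, e2, e3, e4⟩

theorem near0 {x ε : ℝ} (hx : 0 < x) (hε : 0 < ε) :
    ∃ δ > 0, ∀ y t : ℝ, 0 < y → y < δ → 0 < t → t < δ → ∃ r s : ℝ,
      Good r s y t ∧ 4 * r * s * (y + 3 * t * (r + s)) ^ 2 < pj r s y t ^ 2 ∧
      px r s y t = x ∧ |r - x| < ε ∧ |s - 1| < ε := by
  have hpx : px x 1 0 0 = x := by simp [px]
  have hpb : pb x 1 0 0 = 1 := by simp [pb]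
  have hpj : pj x 1 0 0 = 1 := by simp [pj]
  obtain ⟨g, hg1, hg2, hg3⟩ := imp (r := x) (s := 1) (y := 0) (t := 0) (by rw [hpj]; norm_num)
  rw [hpx, hpb] at hg1 hg2 hg3
  have hcont : Filter.Tendsto g (𝓝 (x, 1, 0, 0)) (𝓝 (x, 1, 0, 0)) := by
    have := hg1.continuousAt
    rw [ContinuousAt, hg2] at this
    exact this
  have hopen : ∀ᶠ q : ℝ × ℝ × ℝ × ℝ in 𝓝 (x, 1, 0, 0),
      |q.1 - x| < ε ∧ |q.2.1 - 1| < ε ∧ 0 < q.1 ∧ 0 < q.2.1 ∧
      0 < pj q.1 q.2.1 q.2.2.1 q.2.2.2 ∧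
      4 * q.1 * q.2.1 * (q.2.2.1 + 3 * q.2.2.2 * (q.1 + q.2.1)) ^ 2 <
        pj q.1 q.2.1 q.2.2.1 q.2.2.2 ^ 2 := by
    have c1 : Continuous (fun q : ℝ × ℝ × ℝ × ℝ => pj q.1 q.2.1 q.2.2.1 q.2.2.2) := by
      unfold pj
      fun_prop
    have o1 : ∀ᶠ q : ℝ × ℝ × ℝ × ℝ in 𝓝 (x, 1, 0, 0), |q.1 - x| < ε :=
      (isOpen_lt (by fun_prop) continuous_const).mem_nhds (by simpa using hε)
    have o2 : ∀ᶠ q : ℝ × ℝ × ℝ × ℝ in 𝓝 (x, 1, 0, 0), |q.2.1 - 1| < ε :=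
      (isOpen_lt (by fun_prop) continuous_const).mem_nhds (by simpa using hε)
    have o3 : ∀ᶠ q : ℝ × ℝ × ℝ × ℝ in 𝓝 (x, 1, 0, 0), 0 < q.1 :=
      (isOpen_lt continuous_const (by fun_prop)).mem_nhds (by simpa using hx)
    have o4 : ∀ᶠ q : ℝ × ℝ × ℝ × ℝ in 𝓝 (x, 1, 0, 0), 0 < q.2.1 :=
      (isOpen_lt continuous_const (by fun_prop)).mem_nhds (by simp)
    have o5 : ∀ᶠ q : ℝ × ℝ × ℝ × ℝ in 𝓝 (x, 1, 0, 0), 0 < pj q.1 q.2.1 q.2.2.1 q.2.2.2 :=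
      (isOpen_lt continuous_const c1).mem_nhds (by simp [hpj])
    have o6 : ∀ᶠ q : ℝ × ℝ × ℝ × ℝ in 𝓝 (x, 1, 0, 0),
        4 * q.1 * q.2.1 * (q.2.2.1 + 3 * q.2.2.2 * (q.1 + q.2.1)) ^ 2 <
          pj q.1 q.2.1 q.2.2.1 q.2.2.2 ^ 2 :=
      (isOpen_lt (by fun_prop) (c1.pow 2)).mem_nhds (by simp [hpj])
    filter_upwards [o1, o2, o3, o4, o5, o6] with q a1 a2 a3 a4 a5 a6
    exact ⟨a1, a2, a3, a4, a5, a6⟩
  have hall := (hcont.eventually hopen).and hg3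
  have hpath : Filter.Tendsto (fun q : ℝ × ℝ => (x, (1 : ℝ), q.1, q.2)) (𝓝 (0, 0))
      (𝓝 (x, 1, 0, 0)) := by
    have : Continuous (fun q : ℝ × ℝ => (x, (1 : ℝ), q.1, q.2)) := by fun_prop
    exact this.tendsto (0, 0)
  obtain ⟨δ, hδ, hball⟩ := Metric.eventually_nhds_iff.1 (hpath.eventually hall)
  refine ⟨δ, hδ, fun y t hy0 hy ht0 ht => ?_⟩
  have hdist : dist (y, t) ((0 : ℝ), (0 : ℝ)) < δ := by
    rw [Prod.dist_eq, max_lt_iff, Real.dist_eq, Real.dist_eq, sub_zero, sub_zero,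
      abs_of_pos hy0, abs_of_pos ht0]
    exact ⟨hy, ht⟩
  obtain ⟨⟨b1, b2, b3, b4, b5, b6⟩, b7, b8, b9, b10⟩ := hball hdist
  simp only at b7 b8 b9 b10
  rw [b9, b10] at b5 b6 b7 b8
  exact ⟨(g (x, 1, y, t)).1, (g (x, 1, y, t)).2.1,
    ⟨b3, b4, hy0.le, ht0.le, by rw [b7]; exact hx, b8, b5.le, b6.le⟩, b6, b7, b1, b2⟩

end K5P
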