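import Pool.Agent.Lib.K5N.Sys

/-!
# K5P.PUniq : the admissible point is unique

PROOF. Let `f1 = y (r + 2 s) + t (r^2 + 6 r s + 3 s^2)`, `f2 = y (s + 2 r) + t (s^2 + 6 r s + 3 r^2)`; so `px = r (1 - f1) = x > 0` and `pb = s (1 - f2) = 1`; primed quantities at `(r', s')`. Note
`f2 - f1 = y (r - s) + 2 t (r^2 - s^2)`.
(A) `r ≤ r'` and `s' ≤ s`. Then `1 - f1 = x / r ≥ x / r' = 1 - f1'` and `1 - f2 = 1 / s ≤ 1 / s' = 1 - f2'`, so `f1 ≤ f1'`, `f2' ≤ f2`; but `(f2' - f1') - (f2 - f1) = y ((r' - r) + (s - s')) + 2 t ((r'^2 - r^2) + (s^2 - s'^2)) ≥ 0`.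
So `f1 = f1'`, `f2 = f2'`, and then `r = r'`, `s = s'`.
(B) `r < r'`, `s < s'` (the other cases are symmetric or in (A)). Let `ρ = r' - r`, `σ = s' - s`, `c' = y + 3 t (r' + s')`. By the equations for `px` (a polynomial identity)
`pj' ρ + D1 = 2 r' c' σ`, `pj' σ + D2 = 2 s' c' ρ`, where `D1 = y (ρ^2 + 2 ρ σ) + t (C''(r, s)(d, d) / 2 + 2 C(ρ, σ))`, `C(r, s) = r^3 + 6 r^2 s + 3 r s^2`, which is a polynomial in `r, s, ρ, σ, y, t` with nonnegative
coefficients, and `D2` is the same with the roles exchanged. If `y = 0 = t`, then `r = x = r'`, a contradiction. Otherwise `D1, D2 > 0`, so `pj' ρ < 2 r' c' σ`, `pj' σ < 2 s' c' ρ`; multiplying, `pj'^2 < 4 r' s' c'^2`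
(`pj' ≥ 0`), against `Good.sub` at `(r', s')`.
-/

set_option autoImplicit false

namespace K5P

open K5N

namespace PUniqAux

/-- Case (A). -/
theorem caseA {r s r' s' y t : ℝ} (h : Good r s y t) (h' : Good r' s' y t)
    (hx : px r s y t = px r' s' y t) (h1 : r ≤ r') (h2 : s' ≤ s) : r = r' ∧ s = s' := by
  have hr := h.r_pos
  have hs := h.s_pos
  have hr' := h'.r_pos
  have hs' := h'.s_pos
  have hy := h.y_nonneg
  have ht := h.t_nonneg
  have hp := h.x_pos
  have hp' := h'.x_pos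
  have hb := h.b_eq
  have hb' := h'.b_eq
  set u := 1 - (y * (r + 2 * s) + t * (r ^ 2 + 6 * r * s + 3 * s ^ 2)) with hu
  set v := 1 - (y * (s + 2 * r) + t * (s ^ 2 + 6 * r * s + 3 * r ^ 2)) with hv
  set u' := 1 - (y * (r' + 2 * s') + t * (r' ^ 2 + 6 * r' * s' + 3 * s' ^ 2)) with hu'
  set v' := 1 - (y * (s' + 2 * r') + t * (s' ^ 2 + 6 * r' * s' + 3 * r' ^ 2)) with hv'
  have e1 : px r s y t = r * u := by
    unfold px; rw [hu]; ring
  have e2 : px r' s' y t = r' * u' := by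
    unfold px; rw [hu']; ring
  have e3 : s * v = 1 := by
    rw [← hb]; unfold pb; rw [hv]; ring
  have e4 : s' * v' = 1 := by
    rw [← hb']; unfold pb; rw [hv']; ring
  have e5 : r * u = r' * u' := by rw [← e1, ← e2, hx]
  have up : 0 < u := by
    rw [e1] at hp
    exact (pos_iff_pos_of_mul_pos hp).1 hr
  have up' : 0 < u' := by
    rw [e2] at hp'
    exact (pos_iff_pos_of_mul_pos hp').1 hr'
  have vp : 0 < v := by
    have : 0 < s * v := by rw [e3]; norm_num
    exact (pos_iff_pos_of_mul_pos this).1 hs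
  have vp' : 0 < v' := by
    have : 0 < s' * v' := by rw [e4]; norm_num
    exact (pos_iff_pos_of_mul_pos this).1 hs'
  have i1 : u' ≤ u := by
    by_contra hc
    push Not at hc
    have : r * u < r' * u' := by
      calc r * u < r * u' := mul_lt_mul_of_pos_left hc hr
        _ ≤ r' * u' := mul_le_mul_of_nonneg_right h1 up'.le
    linarith
  have i2 : v ≤ v' := by
    by_contra hc
    push Not at hc
    have : s' * v' < s * v := by
      calc s' * v' < s' * v := mul_lt_mul_of_pos_left hc hs'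
        _ ≤ s * v := mul_le_mul_of_nonneg_right h2 vp.le
    linarith
  have i3 : (v' - u') - (v - u) ≤ 0 := by
    have a1 : 0 ≤ y * ((r' - r) + (s - s')) := mul_nonneg hy (by linarith)
    have a2 : 0 ≤ t * ((r' ^ 2 - r ^ 2) + (s ^ 2 - s' ^ 2)) := by
      apply mul_nonneg ht
      have b1 : r ^ 2 ≤ r' ^ 2 := by gcongr
      have b2 : s' ^ 2 ≤ s ^ 2 := by gcongr
      linarith
    have a3 : (v' - u') - (v - u) = -(y * ((r' - r) + (s - s'))) -
        2 * (t * ((r' ^ 2 - r ^ 2) + (s ^ 2 - s' ^ 2))) := by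
      rw [hu, hv, hu', hv']; ring
    rw [a3]; linarith
  have j1 : u = u' := by linarith
  have j2 : v = v' := by linarith
  constructor
  · rw [← j1] at e5
    exact mul_right_cancel₀ up.ne' e5
  · rw [← j2] at e4
    exact mul_right_cancel₀ vp.ne' (e3.trans e4.symm)

/-- Case (B). -/
theorem caseB {r s r' s' y t : ℝ} (h : Good r s y t) (h' : Good r' s' y t)
    (hx : px r s y t = px r' s' y t) (h1 : r < r') (h2 : s < s') : False := by
  have hr := h.r_pos
  have hs := h.s_pos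
  have hr' := h'.r_pos
  have hs' := h'.s_pos
  have hy := h.y_nonneg
  have ht := h.t_nonneg
  have hb := h.b_eq
  have hb' := h'.b_eq
  have hj' := h'.j_nonneg
  have hsub := h'.sub
  obtain ⟨ρ, hρ⟩ : ∃ ρ, r' = r + ρ := ⟨r' - r, by ring⟩
  obtain ⟨σ, hσ⟩ : ∃ σ, s' = s + σ := ⟨s' - s, by ring⟩
  have ρp : 0 < ρ := by linarith
  have σp : 0 < σ := by linarith
  set J := pj r' s' y t with hJ
  set c := y + 3 * t * (r' + s') with hc
  have q1 : J * ρ + (y * (ρ ^ 2 + 2 * ρ * σ) +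
      t * ((3 * r + 6 * s) * ρ ^ 2 + (12 * r + 6 * s) * (ρ * σ) + 3 * r * σ ^ 2 +
        2 * (ρ ^ 3 + 6 * ρ ^ 2 * σ + 3 * ρ * σ ^ 2))) = 2 * r' * c * σ := by
    have : px r' s' y t - px r s y t = 0 := by rw [hx]; ring
    rw [hJ, hc]
    unfold pj
    unfold px at this
    subst hρ hσ
    linear_combination this
  have q2 : J * σ + (y * (σ ^ 2 + 2 * σ * ρ) +
      t * ((3 * s + 6 * r) * σ ^ 2 + (12 * s + 6 * r) * (σ * ρ) + 3 * s * ρ ^ 2 +
        2 * (σ ^ 3 + 6 * σ ^ 2 * ρ + 3 * σ * ρ ^ 2))) = 2 * s' * c * ρ := by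
    have : pb r' s' y t - pb r s y t = 0 := by rw [hb, hb']; ring
    rw [hJ, hc]
    unfold pj
    unfold pb at this
    subst hρ hσ
    linear_combination this
  have hyt : 0 < y ∨ 0 < t := by
    by_contra hcon
    push Not at hcon
    have y0 : y = 0 := le_antisymm hcon.1 hy
    have t0 : t = 0 := le_antisymm hcon.2 ht
    unfold px at hx
    rw [y0, t0] at hx
    have : r = r' := by linarith
    linarith
  have D1 : 0 < y * (ρ ^ 2 + 2 * ρ * σ) +
      t * ((3 * r + 6 * s) * ρ ^ 2 + (12 * r + 6 * s) * (ρ * σ) + 3 * r * σ ^ 2 +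
        2 * (ρ ^ 3 + 6 * ρ ^ 2 * σ + 3 * ρ * σ ^ 2)) := by
    have P1 : 0 < ρ ^ 2 + 2 * ρ * σ := by positivity
    have P2 : 0 < (3 * r + 6 * s) * ρ ^ 2 + (12 * r + 6 * s) * (ρ * σ) + 3 * r * σ ^ 2 +
        2 * (ρ ^ 3 + 6 * ρ ^ 2 * σ + 3 * ρ * σ ^ 2) := by positivity
    rcases hyt with hyp | htp
    · have := mul_pos hyp P1
      have := mul_nonneg ht P2.le
      linarith
    · have := mul_nonneg hy P1.le
      have := mul_pos htp P2
      linarith
  have D2 : 0 < y * (σ ^ 2 + 2 * σ * ρ) +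
      t * ((3 * s + 6 * r) * σ ^ 2 + (12 * s + 6 * r) * (σ * ρ) + 3 * s * ρ ^ 2 +
        2 * (σ ^ 3 + 6 * σ ^ 2 * ρ + 3 * σ * ρ ^ 2)) := by
    have P1 : 0 < σ ^ 2 + 2 * σ * ρ := by positivity
    have P2 : 0 < (3 * s + 6 * r) * σ ^ 2 + (12 * s + 6 * r) * (σ * ρ) + 3 * s * ρ ^ 2 +
        2 * (σ ^ 3 + 6 * σ ^ 2 * ρ + 3 * σ * ρ ^ 2) := by positivity
    rcases hyt with hyp | htp
    · have := mul_pos hyp P1
      have := mul_nonneg ht P2.le
      linarith
    · have := mul_nonneg hy P1.le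
      have := mul_pos htp P2
      linarith
  have l1 : J * ρ < 2 * r' * c * σ := by linarith
  have l2 : J * σ < 2 * s' * c * ρ := by linarith
  have l3 : (J * ρ) * (J * σ) < (2 * r' * c * σ) * (2 * s' * c * ρ) := by
    apply mul_lt_mul'' l1 l2
    · exact mul_nonneg hj' ρp.le
    · exact mul_nonneg hj' σp.le
  have l4 : J ^ 2 * (ρ * σ) < (4 * r' * s' * c ^ 2) * (ρ * σ) := by
    calc J ^ 2 * (ρ * σ) = (J * ρ) * (J * σ) := by ring
      _ < (2 * r' * c * σ) * (2 * s' * c * ρ) := l3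
      _ = (4 * r' * s' * c ^ 2) * (ρ * σ) := by ring
  have l5 : J ^ 2 < 4 * r' * s' * c ^ 2 := lt_of_mul_lt_mul_right l4 (by positivity)
  linarith

end PUniqAux

theorem good_unique {r s r' s' y t : ℝ} (h : Good r s y t) (h' : Good r' s' y t)
    (hx : px r s y t = px r' s' y t) : r = r' ∧ s = s' := by
  rcases le_or_gt r r' with h1 | h1
  · rcases le_or_gt s' s with h2 | h2
    · exact PUniqAux.caseA h h' hx h1 h2
    · rcases h1.eq_or_lt with h3 | h3
      · -- `r = r'`, `s < s'`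
        have := PUniqAux.caseA h' h hx.symm h3.symm.le h2.le
        exact ⟨this.1.symm, this.2.symm⟩
      · exact (PUniqAux.caseB h h' hx h3 h2).elim
  · rcases le_or_gt s s' with h2 | h2
    · have := PUniqAux.caseA h' h hx.symm h1.le h2
      exact ⟨this.1.symm, this.2.symm⟩
    · exact (PUniqAux.caseB h' h hx.symm h1 h2).elim

end K5P
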