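import Pool.Agent.Lib.K5P.PDefs
import Pool.Agent.Lib.K5P.PUniq

/-!
# K5P.PInv : the inverse of the parametrisation

PROOFS. `pD_pos`: by `S.hAS` `Dm (px) (pY) (pT) = ofReal (pD)`, finite; `S.hMeq` gives `ofReal pD = (1 + ..) * (ofReal pY + ..) ≥ ofReal pY`, and `pY = y κ^2 + 2 pT > 0` (`κ > 0`, `pT_nonneg`), so `pD > 0`.
`inv_pt`: exactly as `K5N.CL.on_curve`: `S.hAS`, `S.meq_real` (with `D = pD`, `N = pN`), so `KK S (Th p) = pK`, `AA S (Th p) = pA` (`S.vals`), `Yp S (Th p) = pY - 2 pT = y κ^2`; `kf S (Th p) = κ`: this is the identity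
`κ = 1 + y κ^2 (1 + x (1 + D)) + t κ^3 (1 + 3 x (1 + D) + x^2 N)`: with `pw1 = x κ`, `pw2 = κ^2 (x + x^2 (1 + D))`, `pw3 = κ^3 (x + 3 x^2 (1 + D) + x^3 N)` (definitions of `pkap`, `pD`, `pN`) it says `pw1 = x + y pw2 + t pw3`, which is
a polynomial identity under `pb = 1` (multiply by `pb`: `pw1 - y pw2 - t pw3 = px * pb`; check with `ring`, `linear_combination`). Then `yf = y κ^2 / κ^2`, `tf = t κ^3 / κ^3`.
`Th_inj`: `Th p = Th p'` gives the same `y = yf S (Th p)`, `t = tf S (Th p)`, then `good_unique`.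
-/

set_option autoImplicit false

namespace K5P

open K5N
open scoped ENNReal Topology

theorem pD_pos (S : Sys) {r s y t : ℝ} (h : Good r s y t) (hy : 0 < y) : 0 < pD r s y t := by
  obtain ⟨hk, h1, h2⟩ := S.hAS r s y t h
  have hT := pT_nonneg h hk
  have hY : 0 < pY r s y t := by
    unfold pY
    have := mul_pos hy (pow_pos hk 2)
    linarith
  obtain ⟨U, -, hD, -⟩ := S.hMeq (.ofReal (px r s y t)) (.ofReal (pY r s y t)) (.ofReal (pT r s y t))
    (by simpa using h.x_pos) ENNReal.ofReal_ne_top ENNReal.ofReal_ne_top ENNReal.ofReal_ne_top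
    (by rw [h1]; exact ENNReal.ofReal_ne_top)
  have h3 : ENNReal.ofReal (pY r s y t) ≤ ENNReal.ofReal (pD r s y t) := by
    rw [← h1, hD]
    refine le_trans ?_ (le_mul_of_one_le_left' (le_self_add))
    rw [add_assoc, add_assoc]
    exact le_self_add
  by_contra hcon
  rw [ENNReal.ofReal_of_nonpos (not_lt.mp hcon)] at h3
  have h4 : ENNReal.ofReal (pY r s y t) = 0 := le_antisymm h3 bot_le
  rw [ENNReal.ofReal_eq_zero] at h4
  linarith

theorem inv_pt (S : Sys) {p : ℝ × ℝ × ℝ × ℝ} (h : SubP p) :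
    0 < pkap p.1 p.2.1 p.2.2.1 p.2.2.2 ∧ 0 < (Th p).1 ∧ 0 < (Th p).2.1 ∧ 0 < (Th p).2.2 ∧
    KK S (Th p) = pK p.1 p.2.1 p.2.2.1 p.2.2.2 ∧ AA S (Th p) = pA p.1 p.2.1 p.2.2.1 p.2.2.2 ∧
    kf S (Th p) = pkap p.1 p.2.1 p.2.2.1 p.2.2.2 ∧ yf S (Th p) = p.2.2.1 ∧
    tf S (Th p) = p.2.2.2 ∧ 0 < Yp S (Th p) := by
  obtain ⟨r, s, y, t⟩ := p
  have hG : Good r s y t := h.toGood
  have hy : 0 < y := h.y_pos
  have ht : 0 < t := h.t_pos
  obtain ⟨hk, h1, h2⟩ := S.hAS r s y t hG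
  have hD : 0 < pD r s y t := pD_pos S hG hy
  obtain ⟨v0, v1, v2, v3, v4⟩ := S.vals hG hD.le
  have hx := hG.x_pos
  have hT : 0 < pT r s y t := mul_pos ht (pow_pos hk 3)
  have eK : KK S (Th (r, s, y, t)) = pK r s y t := by
    unfold KK Th
    simp only
    rw [v3, ENNReal.toReal_ofReal v1]
  have eA : AA S (Th (r, s, y, t)) = pA r s y t := by
    unfold AA Th
    simp only
    rw [v4, ENNReal.toReal_ofReal v2]
  have eY : Yp S (Th (r, s, y, t)) = y * pkap r s y t ^ 2 := by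
    unfold Yp
    rw [eK]
    unfold Th pK
    simp only
    have e1 : pY r s y t = y * pkap r s y t ^ 2 + 2 * pT r s y t := rfl
    linarith
  have hD1 : (0 : ℝ) < (1 + pD r s y t) ^ 3 := by positivity
  have eN : Nf S (Th (r, s, y, t)) = pN r s y t := by
    unfold Nf
    rw [eA]
    unfold Th pA
    simp only
    field_simp
    ring
  have ek : kf S (Th (r, s, y, t)) = pkap r s y t := by
    unfold kf
    rw [eY, eN]
    unfold Th
    simp only
    have hx' : px r s y t ≠ 0 := hx.ne'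
    have hk' : pkap r s y t ≠ 0 := hk.ne'
    have w1 : pw1 r s y t = pkap r s y t * px r s y t := by
      unfold pkap
      field_simp
    have w2 : pw2 r s y t = pkap r s y t ^ 2 * (px r s y t + px r s y t ^ 2 * (1 + pD r s y t)) := by
      have e1 : 1 + pD r s y t = (pw2 r s y t / pkap r s y t ^ 2 - px r s y t) / px r s y t ^ 2 := by
        unfold pD
        ring
      rw [e1]
      field_simp
      ring
    have w3 : pw3 r s y t = pkap r s y t ^ 3 * (px r s y t + 3 * px r s y t ^ 2 * (1 + pD r s y t) +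
        px r s y t ^ 3 * pN r s y t) := by
      have e1 : pN r s y t = (pw3 r s y t / pkap r s y t ^ 3 - 3 * px r s y t ^ 2 * (1 + pD r s y t) - px r s y t)
          / px r s y t ^ 3 := rfl
      rw [e1]
      field_simp
      ring
    have w0 : pw1 r s y t - y * pw2 r s y t - t * pw3 r s y t = px r s y t * pb r s y t := by
      unfold pw1 pw2 pw3 px pb
      ring
    rw [hG.b_eq, w1, w2, w3] at w0
    have e3 : pT r s y t = t * pkap r s y t ^ 3 := rfl
    rw [e3]
    have e4 : px r s y t * (1 + y * pkap r s y t ^ 2 * (1 + px r s y t * (1 + pD r s y t)) +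
        t * pkap r s y t ^ 3 * (1 + 3 * px r s y t * (1 + pD r s y t) + px r s y t ^ 2 * pN r s y t)) =
        px r s y t * pkap r s y t := by
      linear_combination -w0
    exact mul_left_cancel₀ hx' e4
  refine ⟨hk, hx, hD, hT, eK, eA, ek, ?_, ?_, ?_⟩
  · unfold yf
    rw [eY, ek]
    have hk' : pkap r s y t ≠ 0 := hk.ne'
    simp only
    rw [mul_div_assoc, div_self (pow_ne_zero 2 hk'), mul_one]
  · unfold tf
    rw [ek]
    have hk' : pkap r s y t ≠ 0 := hk.ne'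
    show t * pkap r s y t ^ 3 / pkap r s y t ^ 3 = t
    rw [mul_div_assoc, div_self (pow_ne_zero 3 hk'), mul_one]
  · rw [eY]
    exact mul_pos hy (pow_pos hk 2)

theorem Th_inj (S : Sys) {p p' : ℝ × ℝ × ℝ × ℝ} (h : SubP p) (h' : SubP p')
    (he : Th p = Th p') : p = p' := by
  obtain ⟨-, -, -, -, -, -, -, hy, ht, -⟩ := inv_pt S h
  obtain ⟨-, -, -, -, -, -, -, hy', ht', -⟩ := inv_pt S h'
  obtain ⟨r, s, y, t⟩ := p
  obtain ⟨r', s', y', t'⟩ := p'
  rw [he] at hy ht
  have e1 : y = y' := hy.symm.trans hy'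
  have e2 : t = t' := ht.symm.trans ht'
  subst e1 e2
  have e3 : px r s y t = px r' s' y t := congrArg Prod.fst he
  obtain ⟨e4, e5⟩ := good_unique (h.toGood : Good r s y t) (h'.toGood : Good r' s' y t) e3
  exact Prod.ext e4 (Prod.ext e5 rfl)

theorem PP_eq (S : Sys) {p : ℝ × ℝ × ℝ × ℝ} {q : ℝ × ℝ × ℝ} (h : SubP p) (he : Th p = q) :
    PP q = p := by
  have hex : ∃ p : ℝ × ℝ × ℝ × ℝ, SubP p ∧ Th p = q := ⟨p, h, he⟩
  unfold PP
  rw [dif_pos hex]
  exact Th_inj S hex.choose_spec.1 h (hex.choose_spec.2.trans he.symm)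

end K5P
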