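import Pool.Agent.Lib.K5P.PInv
import Pool.Agent.Lib.K5P.PDiff
import Pool.Agent.Lib.K5P.PImp

/-!
# K5P.PLoc : the parametrisation is locally invertible at a subcritical point

PROOF. `p0 = (r0, s0, y0, t0)`, `q0 = Th p0`, `x0 = px p0`, `v0 = (x0, y0, t0)`. Let `g` be the function of `imp` at `p0` (`pb p0 = 1`) and `G (x, y, t) = g (x, 1, y, t)`: `ContDiffAt ℝ 1 G v0`, `G v0 = p0`, and for `v` near `v0`
`px (G v) = v.1`, `pb (G v) = 1`, the last two coordinates of `G v` are `v.2`, and `SubP (G v)` (all other conditions are strict inequalities that hold at `p0`; they are continuous; note `pj p0 > 0` because `pj ≥ 0` and `pj^2 > 4 r s .. ≥ 0`).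
`Ψ = Th ∘ G` is `ContDiffAt ℝ 1` at `v0`: `px`, `pw1`, `pw2` are polynomials, the denominators `px p0` and `pkap p0` are not 0 (`inv_pt`). `Φ q = (q.1, yf S q, tf S q)` is differentiable at `q0` (`diffs3`, `kf S q0 = pkap p0 ≠ 0`).
By `inv_pt`: `Φ (Ψ v) = v` for `v` near `v0`. So the derivatives satisfy `Φ'(q0) ∘ Ψ'(v0) = id` (`HasFDerivAt.comp`, uniqueness of the derivative of the identity), `Ψ'(v0)` is injective and so surjective (`LinearMap.injective_iff_surjective`),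
and `HasStrictFDerivAt.map_nhds_eq_of_surj` gives `map Ψ (𝓝 v0) = 𝓝 q0`. So for all `q` near `q0` there is a `v` near `v0` (in the neighbourhood where everything above holds) with `q = Ψ v`; then `Φ q = v`, and
`P q := G (Φ q) = G v` is subcritical with `Th (P q) = q`. `P` is differentiable at `q0` by the chain rule (`Φ q0 = v0`).
-/

set_option autoImplicit false

namespace K5P

open K5N
open scoped ENNReal Topology

namespace PLocAux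

/-- The embedding `(x, y, t) ↦ (x, 1, y, t)`. -/
def emb (v : ℝ × ℝ × ℝ) : ℝ × ℝ × ℝ × ℝ := (v.1, 1, v.2.1, v.2.2)

theorem emb_contDiff : ContDiff ℝ 1 emb := by
  unfold emb
  fun_prop

/-- The strict conditions. -/
def Opn : Set (ℝ × ℝ × ℝ × ℝ) :=
  {p | 0 < p.1 ∧ 0 < p.2.1 ∧ 0 < p.2.2.1 ∧ 0 < p.2.2.2 ∧
    0 < px p.1 p.2.1 p.2.2.1 p.2.2.2 ∧ 0 < pj p.1 p.2.1 p.2.2.1 p.2.2.2 ∧
    4 * p.1 * p.2.1 * (p.2.2.1 + 3 * p.2.2.2 * (p.1 + p.2.1)) ^ 2 <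
      pj p.1 p.2.1 p.2.2.1 p.2.2.2 ^ 2}

theorem isOpen_Opn : IsOpen Opn := by
  have h1 : IsOpen {p : ℝ × ℝ × ℝ × ℝ | 0 < p.1} := isOpen_lt (by fun_prop) (by fun_prop)
  have h2 : IsOpen {p : ℝ × ℝ × ℝ × ℝ | 0 < p.2.1} := isOpen_lt (by fun_prop) (by fun_prop)
  have h3 : IsOpen {p : ℝ × ℝ × ℝ × ℝ | 0 < p.2.2.1} := isOpen_lt (by fun_prop) (by fun_prop)
  have h4 : IsOpen {p : ℝ × ℝ × ℝ × ℝ | 0 < p.2.2.2} := isOpen_lt (by fun_prop) (by fun_prop)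
  have h5 : IsOpen {p : ℝ × ℝ × ℝ × ℝ | 0 < px p.1 p.2.1 p.2.2.1 p.2.2.2} := by
    unfold px
    exact isOpen_lt (by fun_prop) (by fun_prop)
  have h6 : IsOpen {p : ℝ × ℝ × ℝ × ℝ | 0 < pj p.1 p.2.1 p.2.2.1 p.2.2.2} := by
    unfold pj
    exact isOpen_lt (by fun_prop) (by fun_prop)
  have h7 : IsOpen {p : ℝ × ℝ × ℝ × ℝ |
      4 * p.1 * p.2.1 * (p.2.2.1 + 3 * p.2.2.2 * (p.1 + p.2.1)) ^ 2 <
        pj p.1 p.2.1 p.2.2.1 p.2.2.2 ^ 2} := by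
    unfold pj
    exact isOpen_lt (by fun_prop) (by fun_prop)
  exact h1.inter (h2.inter (h3.inter (h4.inter (h5.inter (h6.inter h7)))))

theorem mem_Opn {p : ℝ × ℝ × ℝ × ℝ} (h : SubP p) : p ∈ Opn := by
  have h' : Sub p.1 p.2.1 p.2.2.1 p.2.2.2 := h
  refine ⟨h'.r_pos, h'.s_pos, h'.y_pos, h'.t_pos, h'.x_pos, ?_, h'.lt⟩
  refine lt_of_le_of_ne h'.j_nonneg (fun h0 => ?_)
  have h1 := h'.lt
  rw [← h0] at h1
  have h2 : 0 ≤ 4 * p.1 * p.2.1 * (p.2.2.1 + 3 * p.2.2.2 * (p.1 + p.2.1)) ^ 2 := by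
    have := h'.r_pos
    have := h'.s_pos
    positivity
  rw [zero_pow (by norm_num)] at h1
  linarith

theorem subP_of {p : ℝ × ℝ × ℝ × ℝ} (h : p ∈ Opn) (hb : pb p.1 p.2.1 p.2.2.1 p.2.2.2 = 1) :
    SubP p := by
  obtain ⟨h1, h2, h3, h4, h5, h6, h7⟩ := h
  exact
    { r_pos := h1, s_pos := h2, y_nonneg := h3.le, t_nonneg := h4.le, x_pos := h5, b_eq := hb
      j_nonneg := h6.le, sub := h7.le, y_pos := h3, t_pos := h4, lt := h7 }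

theorem Th_contDiffAt {p : ℝ × ℝ × ℝ × ℝ} (hx : px p.1 p.2.1 p.2.2.1 p.2.2.2 ≠ 0)
    (hk : pkap p.1 p.2.1 p.2.2.1 p.2.2.2 ≠ 0) : ContDiffAt ℝ 1 Th p := by
  have h1 : ContDiffAt ℝ 1 (fun p : ℝ × ℝ × ℝ × ℝ => px p.1 p.2.1 p.2.2.1 p.2.2.2) p := by
    unfold px
    fun_prop
  have h2 : ContDiffAt ℝ 1 (fun p : ℝ × ℝ × ℝ × ℝ => pw1 p.1 p.2.1 p.2.2.1 p.2.2.2) p := by
    unfold pw1
    fun_prop
  have h3 : ContDiffAt ℝ 1 (fun p : ℝ × ℝ × ℝ × ℝ => pw2 p.1 p.2.1 p.2.2.1 p.2.2.2) p := by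
    unfold pw2
    fun_prop
  have h4 : ContDiffAt ℝ 1 (fun p : ℝ × ℝ × ℝ × ℝ => pkap p.1 p.2.1 p.2.2.1 p.2.2.2) p :=
    h2.div h1 hx
  have h5 : ContDiffAt ℝ 1 (fun p : ℝ × ℝ × ℝ × ℝ => pT p.1 p.2.1 p.2.2.1 p.2.2.2) p := by
    have h6 : ContDiffAt ℝ 1 (fun p : ℝ × ℝ × ℝ × ℝ => p.2.2.2) p := by fun_prop
    exact h6.mul (h4.pow 3)
  have h7 : ContDiffAt ℝ 1 (fun p : ℝ × ℝ × ℝ × ℝ => pD p.1 p.2.1 p.2.2.1 p.2.2.2) p :=
    (((h3.div (h4.pow 2) (pow_ne_zero 2 hk)).sub h1).div (h1.pow 2) (pow_ne_zero 2 hx)).sub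
      contDiffAt_const
  exact h1.prodMk (h7.prodMk h5)

end PLocAux

open PLocAux

theorem loc (S : Sys) {p0 : ℝ × ℝ × ℝ × ℝ} (h : SubP p0) (hF : Fin3 S (Th p0)) :
    ∃ P : ℝ × ℝ × ℝ → ℝ × ℝ × ℝ × ℝ, P (Th p0) = p0 ∧ DifferentiableAt ℝ P (Th p0) ∧
      ∀ᶠ q in 𝓝 (Th p0), SubP (P q) ∧ Th (P q) = q := by
  classical
  have h' : Sub p0.1 p0.2.1 p0.2.2.1 p0.2.2.2 := h
  obtain ⟨g, hgC, hg0, hgE⟩ := imp (ne_of_lt h'.lt)
  obtain ⟨ik, ix, -, -, -, -, ikf, iy, it, -⟩ := inv_pt S h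
  set v0 : ℝ × ℝ × ℝ := (px p0.1 p0.2.1 p0.2.2.1 p0.2.2.2, p0.2.2.1, p0.2.2.2) with hv0
  have he : emb v0 = (px p0.1 p0.2.1 p0.2.2.1 p0.2.2.2, pb p0.1 p0.2.1 p0.2.2.1 p0.2.2.2,
      p0.2.2.1, p0.2.2.2) := by
    rw [h'.b_eq, hv0]
    rfl
  rw [← he] at hgC hg0 hgE
  set G : ℝ × ℝ × ℝ → ℝ × ℝ × ℝ × ℝ := fun v => g (emb v) with hG
  have hGC : ContDiffAt ℝ 1 G v0 := hgC.comp v0 emb_contDiff.contDiffAt
  have hG0 : G v0 = p0 := hg0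
  have hGE : ∀ᶠ v in 𝓝 v0,
      px (G v).1 (G v).2.1 (G v).2.2.1 (G v).2.2.2 = v.1 ∧
      pb (G v).1 (G v).2.1 (G v).2.2.1 (G v).2.2.2 = 1 ∧
      (G v).2.2.1 = v.2.1 ∧ (G v).2.2.2 = v.2.2 :=
    (emb_contDiff.continuous.continuousAt (x := v0)).tendsto.eventually hgE
  have hopn : ∀ᶠ v in 𝓝 v0, G v ∈ Opn := by
    have h1 : Filter.Tendsto G (𝓝 v0) (𝓝 p0) := by
      have := hGC.continuousAt.tendsto
      rwa [hG0] at this
    exact h1.eventually (isOpen_Opn.mem_nhds (mem_Opn h))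
  have hE : ∀ᶠ v in 𝓝 v0, SubP (G v) ∧ ((Th (G v)).1, yf S (Th (G v)), tf S (Th (G v))) = v := by
    filter_upwards [hGE, hopn] with v hv hv'
    have hs : SubP (G v) := subP_of hv' hv.2.1
    obtain ⟨-, -, -, -, -, -, -, jy, jt, -⟩ := inv_pt S hs
    refine ⟨hs, ?_⟩
    rw [jy, jt]
    exact Prod.ext hv.1 (Prod.ext hv.2.2.1 hv.2.2.2)
  have hΦ0 : ((Th p0).1, yf S (Th p0), tf S (Th p0)) = v0 := by
    rw [iy, it]
    rfl
  have hk0 : kf S (Th p0) ≠ 0 := by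
    rw [ikf]
    exact ik.ne'
  obtain ⟨-, -, -, -, dy, dt⟩ := diffs3 hF hk0
  set Φ : ℝ × ℝ × ℝ → ℝ × ℝ × ℝ := fun q => (q.1, yf S q, tf S q) with hΦ
  have hΦd : DifferentiableAt ℝ Φ (Th p0) :=
    differentiableAt_fst.prodMk (dy.prodMk dt)
  have hΨC : ContDiffAt ℝ 1 (fun v => Th (G v)) v0 := by
    have h1 : ContDiffAt ℝ 1 Th (G v0) := by
      rw [hG0]
      exact Th_contDiffAt h'.x_pos.ne' ik.ne'
    exact h1.comp v0 hGC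
  have hΨs := hΨC.hasStrictFDerivAt one_ne_zero
  have hΨ0 : Th (G v0) = Th p0 := by rw [hG0]
  have hcomp : HasFDerivAt (fun v => Φ (Th (G v)))
      ((fderiv ℝ Φ (Th p0)).comp (fderiv ℝ (fun v => Th (G v)) v0)) v0 := by
    have h1 : HasFDerivAt Φ (fderiv ℝ Φ (Th p0)) (Th (G v0)) := by
      rw [hΨ0]
      exact hΦd.hasFDerivAt
    exact h1.comp v0 hΨs.hasFDerivAt
  have hid : HasFDerivAt (fun v => Φ (Th (G v))) (ContinuousLinearMap.id ℝ (ℝ × ℝ × ℝ)) v0 := by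
    refine (hasFDerivAt_id v0).congr_of_eventuallyEq ?_
    filter_upwards [hE] with v hv
    exact hv.2
  have hinv := hcomp.unique hid
  have hinj : Function.Injective (fderiv ℝ (fun v => Th (G v)) v0) := by
    intro a b hab
    have h1 := congrArg (fun L : (ℝ × ℝ × ℝ) →L[ℝ] (ℝ × ℝ × ℝ) => L a) hinv
    have h2 := congrArg (fun L : (ℝ × ℝ × ℝ) →L[ℝ] (ℝ × ℝ × ℝ) => L b) hinv
    simp only [ContinuousLinearMap.comp_apply, ContinuousLinearMap.id_apply] at h1 h2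
    rw [← h1, ← h2, hab]
  have hsurj : Function.Surjective (fderiv ℝ (fun v => Th (G v)) v0) :=
    (LinearMap.injective_iff_surjective
      (f := ((fderiv ℝ (fun v => Th (G v)) v0 : (ℝ × ℝ × ℝ) →L[ℝ] (ℝ × ℝ × ℝ)) :
        (ℝ × ℝ × ℝ) →ₗ[ℝ] (ℝ × ℝ × ℝ)))).1 hinj
  have hmap := hΨs.map_nhds_eq_of_surj (LinearMap.range_eq_top.2 hsurj)
  rw [hΨ0] at hmap
  have himg : (fun v => Th (G v)) '' {v | SubP (G v) ∧ Φ (Th (G v)) = v} ∈ 𝓝 (Th p0) := by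
    rw [← hmap]
    exact Filter.image_mem_map hE
  refine ⟨fun q => G (Φ q), ?_, ?_, ?_⟩
  · have h1 : Φ (Th p0) = v0 := hΦ0
    change G (Φ (Th p0)) = p0
    rw [h1, hG0]
  · have h1 : DifferentiableAt ℝ G (Φ (Th p0)) := by
      have h2 : Φ (Th p0) = v0 := hΦ0
      rw [h2]
      exact hGC.differentiableAt one_ne_zero
    exact h1.comp (Th p0) hΦd
  · filter_upwards [himg] with q hq
    obtain ⟨v, ⟨hv1, hv2⟩, hvq⟩ := hq
    have h1 : Φ q = v := by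
      rw [← hvq]
      exact hv2
    rw [h1]
    exact ⟨hv1, hvq⟩

end K5P
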