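import Pool.Agent.Lib.K5P.PDefs
import Pool.Agent.Lib.K5S.Sys2
import Pool.Agent.Lib.K5C.Defs

/-!
# K5P.QDefs : the path of points of the graph side
-/

set_option autoImplicit false

namespace K5P

open K5N K5S
open scoped ENNReal Topology

noncomputable section

/-- The branches. -/
def ar (S : Sys2) (x z : ℝ) : ℝ := (ser2 S.rc (.ofReal x) (.ofReal z)).toReal

/-- The marked triangles. -/
def tr (S : Sys2) (x z : ℝ) : ℝ := Real.exp (ar S x z) - 1 - ar S x z

/-- The rooted 3-connected graphs. -/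
def T0r (S : Sys2) (x z : ℝ) : ℝ := (ser2 S.tc (.ofReal x) (.ofReal z)).toReal

/-- The networks. -/
def Dr (S : Sys2) (x : ℝ) : ℝ := (S.Dg (.ofReal x)).toReal

/-- The point `(x, z, T)`. -/
def qp (S : Sys2) (x z : ℝ) : ℝ × ℝ × ℝ := (x, z, tr S x z)

/-- The point `(r, s, y, t)`. -/
def PX (S : Sys2) (x z : ℝ) : ℝ × ℝ × ℝ × ℝ := PP (qp S x z)

/-- The branches and the rooted 3-connected graphs are finite beyond `(x, z)`. -/
structure Dom (S : Sys2) (x z : ℝ) : Prop where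
  hx : 0 < x
  hz : 0 < z
  ex : ∃ x1 z1 : ℝ, x < x1 ∧ z < z1 ∧ ser2 S.rc (.ofReal x1) (.ofReal z1) ≠ ∞ ∧
    ser2 S.tc (.ofReal x1) (.ofReal z1) ≠ ∞

/-- `(x, z)` has a subcritical point. -/
structure Ok (S : Sys2) (x z : ℝ) : Prop where
  dom : Dom S x z
  pos : 0 < Yp S.toSys (qp S x z)

end

end K5P
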