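import Pool.Agent.Lib.K5P.QFin

/-!
# K5P.QDiff : differentiability of the branches, of the marks and of the networks

PROOFS. `ser2_diff`: `ser_diff3` with the family `c' i j k l = if k = 0 ∧ l = 0 then c i j else 0`: `ser c' x z w t = ser2 c x z` for all `w, t` (the terms with `k = l = 0` are those of `ser2`, the other terms are 0; an injection of index types,
`tsum_eq_tsum_of_ne_zero_bij` or `Function.Injective.tsum_eq`), composed with the map `(x, z) ↦ (x, z, 1)`. `ar_diff`, `tr_diff`: `exp` is differentiable. `ser1_diff`, `Dr_diff`: `Dg x = ser2 dc x 1 = ∑' n, (∑' m, dc n m) x^n`; `ser_diff3` with the family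
`c' i j k l = if j = 0 ∧ k = 0 ∧ l = 0 then ∑' m, dc i m else 0` at `(x, 1, 1)` with `x1`, `z1 = 2`, `T1 = 2` (`ser c' x z w t = Dg x`, finite at `x1`).
`T0r_diff`: as `ar_diff`.
-/

set_option autoImplicit false

namespace K5P

open K5N K5S
open scoped ENNReal Topology

namespace QDiffAux

theorem ser_ser2 (c : ℕ → ℕ → ℝ≥0∞) (x z w t : ℝ≥0∞) :
    ser (fun i j k l => if k = 0 ∧ l = 0 then c i j else 0) x z w t = ser2 c x z := by
  unfold ser ser2
  rw [ENNReal.tsum_prod', ENNReal.tsum_prod']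
  refine tsum_congr fun i => ?_
  rw [ENNReal.tsum_prod']
  refine tsum_congr fun j => ?_
  rw [tsum_eq_single ((0, 0) : ℕ × ℕ)]
  · simp
  · intro p hp
    have h : ¬ (p.1 = 0 ∧ p.2 = 0) := fun h => hp (Prod.ext h.1 h.2)
    simp only [if_neg h, zero_mul]

theorem ser_one (c : ℕ → ℕ → ℝ≥0∞) (x z w t : ℝ≥0∞) :
    ser (fun i j k l => if j = 0 ∧ k = 0 ∧ l = 0 then ∑' m, c i m else 0) x z w t =
      ser2 c x 1 := by
  unfold ser ser2
  rw [ENNReal.tsum_prod', ENNReal.tsum_prod']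
  refine tsum_congr fun i => ?_
  rw [tsum_eq_single ((0, 0, 0) : ℕ × ℕ × ℕ)]
  · simp [ENNReal.tsum_mul_right]
  · intro p hp
    have h : ¬ (p.1 = 0 ∧ p.2.1 = 0 ∧ p.2.2 = 0) := fun h =>
      hp (Prod.ext h.1 (Prod.ext h.2.1 h.2.2))
    simp only [if_neg h, zero_mul]

end QDiffAux

open QDiffAux

theorem ser2_diff (c : ℕ → ℕ → ℝ≥0∞) {x z x1 z1 : ℝ} (hx : 0 < x) (hxx : x < x1) (hz : 0 < z)
    (hzz : z < z1) (h : ser2 c (.ofReal x1) (.ofReal z1) ≠ ∞) :
    DifferentiableAt ℝ (fun p : ℝ × ℝ => (ser2 c (.ofReal p.1) (.ofReal p.2)).toReal) (x, z) := by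
  have h1 := ser_diff3 (fun i j k l => if k = 0 ∧ l = 0 then c i j else 0) hx hxx hz hzz
    (T := 1) (T1 := 2) one_pos one_lt_two (by rw [ser_ser2]; exact h)
  have h2 : DifferentiableAt ℝ (fun p : ℝ × ℝ => ((p.1, p.2, (1 : ℝ)) : ℝ × ℝ × ℝ)) (x, z) :=
    differentiableAt_fst.prodMk (differentiableAt_snd.prodMk (differentiableAt_const _))
  have h3 := DifferentiableAt.comp (x, z) (f := fun p : ℝ × ℝ => ((p.1, p.2, (1 : ℝ)) : ℝ × ℝ × ℝ))
    h1 h2
  refine h3.congr_of_eventuallyEq (Filter.Eventually.of_forall fun p => ?_)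
  simp only [Function.comp_apply, ser_ser2]

theorem ar_diff {S : Sys2} {x z : ℝ} (h : Dom S x z) :
    DifferentiableAt ℝ (fun p : ℝ × ℝ => ar S p.1 p.2) (x, z) ∧
    DifferentiableAt ℝ (fun p : ℝ × ℝ => tr S p.1 p.2) (x, z) ∧
    DifferentiableAt ℝ (fun p : ℝ × ℝ => T0r S p.1 p.2) (x, z) ∧
    DifferentiableAt ℝ (fun p : ℝ × ℝ => qp S p.1 p.2) (x, z) := by
  obtain ⟨x1, z1, hxx, hzz, hr, ht⟩ := h.ex
  have h1 : DifferentiableAt ℝ (fun p : ℝ × ℝ => ar S p.1 p.2) (x, z) :=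
    ser2_diff S.rc h.hx hxx h.hz hzz hr
  have h2 : DifferentiableAt ℝ (fun p : ℝ × ℝ => tr S p.1 p.2) (x, z) := by
    unfold tr
    exact (h1.exp.sub (differentiableAt_const _)).sub h1
  have h3 : DifferentiableAt ℝ (fun p : ℝ × ℝ => T0r S p.1 p.2) (x, z) :=
    ser2_diff S.tc h.hx hxx h.hz hzz ht
  exact ⟨h1, h2, h3, differentiableAt_fst.prodMk (differentiableAt_snd.prodMk h2)⟩

theorem Dr_diff (S : Sys2) {x x1 : ℝ} (hx : 0 < x) (hxx : x < x1) (h : S.Dg (.ofReal x1) ≠ ∞) :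
    DifferentiableAt ℝ (Dr S) x := by
  have h1 := ser_diff3 (fun i j k l => if j = 0 ∧ k = 0 ∧ l = 0 then ∑' m, S.dc i m else 0) hx hxx
    (z := 1) (z1 := 2) one_pos one_lt_two (T := 1) (T1 := 2) one_pos one_lt_two
    (by rw [ser_one, ← S.hDg]; exact h)
  have h2 : DifferentiableAt ℝ (fun y : ℝ => ((y, (1 : ℝ), (1 : ℝ)) : ℝ × ℝ × ℝ)) x :=
    differentiableAt_id.prodMk (differentiableAt_const _)
  have h3 := DifferentiableAt.comp x (f := fun y : ℝ => ((y, (1 : ℝ), (1 : ℝ)) : ℝ × ℝ × ℝ)) h1 h2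
  refine h3.congr_of_eventuallyEq (Filter.Eventually.of_forall fun y => ?_)
  simp only [Function.comp_apply, ser_one, Dr, S.hDg]

end K5P
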