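import Pool.Agent.Lib.K5P.QPos
import Pool.Agent.Lib.K5P.PDiff

/-!
# K5P.QFin : the domain

PROOFS. `Dr_spec`: `S.hDg`, `S.hNE` with `y = 1` (`ser2 dc (ofReal x) (ofReal 1)`, `ENNReal.ofReal_one`): `z = Dr S x ≥ 1` and the equation. `br_fin`: `S.hGL` for `x < x1` gives `z = Dr S x`, `t`, `a` with `ser ac .. ≤ ofReal a`,
`exp a - 1 - a ≤ t`, so `S.hBrU` gives `ser2 rc ≤ ofReal a < ∞`. `Dr_lt`: `Dr S x ≤ Dr S x2` by monotonicity (`ser2_mono`); if they are equal to `z ≥ 1`, the equations of `Dr_spec` give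
`x z^2/(1 + x z) + T0r S x z = x2 z^2/(1 + x2 z) + T0r S x2 z`, but the left side is smaller (`x z^2/(1 + x z) = z - z/(1 + x z)` is strictly increasing in `x`, `T0r` is nondecreasing).
`dom_of`: choose `x < x2 < x1`: `z ≤ Dr S x < Dr S x2`, and at `(x2, Dr S x2)` both series are finite (`br_fin`, `Dr_spec`). `Dom.nhds`: take `x < x' < x1`, `z < z' < z1`: open conditions.
`kc_fin`: `S.hT0E` with `a = ar S x z`: the right side is finite, so `ser S.kc` at `(x, z, 1 + z, tr S x z)` is finite; the value: `toReal` of the equation, all real numbers nonnegative: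
`(a - 1) e^a + 1 - a^2/2 ≥ 0` for `a ≥ 0` (its derivative is `a (e^a - 1) ≥ 0`). `Dom.fin3`: `x < x1`, `z < z1`, `tr S x z < tr S x1 z1` by `ar_lt`, the two series at `(x1, z1, 1 + z1, tr S x1 z1)` are finite by `kc_fin`, `br_eq`.
-/

set_option autoImplicit false

namespace K5P

open K5N K5S
open scoped ENNReal Topology

namespace QFinAux

theorem g_nonneg {a : ℝ} (ha : 0 ≤ a) : 0 ≤ (a - 1) * Real.exp a + 1 - a ^ 2 / 2 := by
  rcases le_total a 1 with h1 | h1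
  · have h := Real.exp_bound' ha h1 (n := 3) (by norm_num)
    have h2 : Real.exp a ≤ 1 + a + a ^ 2 / 2 + 2 / 9 * a ^ 3 := by
      refine h.trans (le_of_eq ?_)
      simp only [Finset.sum_range_succ, Finset.sum_range_zero, Nat.factorial]
      norm_num
      ring
    have h3 : (1 - a) * Real.exp a ≤ (1 - a) * (1 + a + a ^ 2 / 2 + 2 / 9 * a ^ 3) :=
      mul_le_mul_of_nonneg_left h2 (by linarith)
    have h4 : 0 ≤ a ^ 3 := by positivity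
    have h5 : 0 ≤ a ^ 4 := by positivity
    nlinarith [h3, h4, h5]
  · have h2 := Real.quadratic_le_exp_of_nonneg ha
    have h3 : (a - 1) * (1 + a + a ^ 2 / 2) ≤ (a - 1) * Real.exp a :=
      mul_le_mul_of_nonneg_left h2 (by linarith)
    have h4 : 0 ≤ a ^ 3 := by positivity
    nlinarith [h3, h4]

end QFinAux

theorem Dr_spec (S : Sys2) {x : ℝ} (hx : 0 < x) (h : S.Dg (.ofReal x) ≠ ∞) :
    1 ≤ Dr S x ∧ S.Dg (.ofReal x) = .ofReal (Dr S x) ∧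
      ser2 S.tc (.ofReal x) (.ofReal (Dr S x)) ≠ ∞ ∧
      T0r S x (Dr S x) = Real.log ((1 + Dr S x) / (1 + 1)) -
        x * Dr S x ^ 2 / (1 + x * Dr S x) := by
  have h1 : ser2 S.dc (.ofReal x) (.ofReal 1) ≠ ∞ := by
    rw [ENNReal.ofReal_one, ← S.hDg]
    exact h
  obtain ⟨z, hz1, hz2, hz3, hz4⟩ := S.hNE x 1 hx zero_le_one h1
  have hz0 : 0 ≤ z := zero_le_one.trans hz1
  have hD : S.Dg (.ofReal x) = .ofReal z := by
    rw [S.hDg, ← hz2, ENNReal.ofReal_one]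
  have hDr : Dr S x = z := by
    unfold Dr
    rw [hD, ENNReal.toReal_ofReal hz0]
  rw [hDr]
  refine ⟨hz1, hD, ?_, ?_⟩
  · rw [hz4]
    exact ENNReal.ofReal_ne_top
  · unfold T0r
    rw [hz4, ENNReal.toReal_ofReal hz3]

theorem br_fin (S : Sys2) {x x1 : ℝ} (hx : 0 < x) (hxx : x < x1) (h : S.Dg (.ofReal x1) ≠ ∞) :
    ser2 S.rc (.ofReal x) (.ofReal (Dr S x)) ≠ ∞ := by
  obtain ⟨z, t, a, k, hz, -, ha, -, hD, hac, ht, -, -⟩ := S.hGL x x1 hx hxx h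
  have hz0 : 0 ≤ z := zero_le_one.trans hz
  have hDr : Dr S x = z := by
    unfold Dr
    rw [hD, ENNReal.toReal_ofReal hz0]
  rw [hDr]
  exact ne_top_of_le_ne_top ENNReal.ofReal_ne_top (S.hBrU x z t a hx.le hz0 ha hac ht)

theorem Dg_fin (S : Sys2) {x x1 : ℝ} (hxx : x ≤ x1) (h : S.Dg (.ofReal x1) ≠ ∞) :
    S.Dg (.ofReal x) ≠ ∞ := by
  rw [S.hDg] at h ⊢
  exact ne_top_of_le_ne_top h (ser2_mono S.dc (ENNReal.ofReal_le_ofReal hxx) le_rfl)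

theorem Dr_lt (S : Sys2) {x x1 : ℝ} (hx : 0 < x) (hxx : x < x1) (h : S.Dg (.ofReal x1) ≠ ∞) :
    Dr S x < Dr S x1 := by
  have hx' : S.Dg (.ofReal x) ≠ ∞ := Dg_fin S hxx.le h
  obtain ⟨a1, -, -, a4⟩ := Dr_spec S hx hx'
  obtain ⟨-, -, b3, b4⟩ := Dr_spec S (hx.trans hxx) h
  have hle : Dr S x ≤ Dr S x1 := by
    unfold Dr
    refine ENNReal.toReal_mono h ?_
    rw [S.hDg, S.hDg]
    exact ser2_mono S.dc (ENNReal.ofReal_le_ofReal hxx.le) le_rfl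
  refine lt_of_le_of_ne hle fun heq => ?_
  rw [← heq] at b3 b4
  have hT : T0r S x (Dr S x) ≤ T0r S x1 (Dr S x) := by
    unfold T0r
    exact ENNReal.toReal_mono b3
      (ser2_mono S.tc (ENNReal.ofReal_le_ofReal hxx.le) le_rfl)
  rw [a4, b4] at hT
  set z := Dr S x with hz
  have hz0 : 0 < z := lt_of_lt_of_le one_pos a1
  have hx1 : 0 < x1 := hx.trans hxx
  have h1 : 0 < 1 + x * z := by positivity
  have h2 : 0 < 1 + x1 * z := by positivity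
  have h3 : x1 * z ^ 2 / (1 + x1 * z) ≤ x * z ^ 2 / (1 + x * z) := by linarith
  rw [div_le_div_iff₀ h2 h1] at h3
  have h4 : 0 < z ^ 2 := by positivity
  have h5 : (x1 - x) * z ^ 2 ≤ 0 := by nlinarith [h3]
  have h6 : 0 < (x1 - x) * z ^ 2 := mul_pos (by linarith) h4
  linarith

theorem kc_fin (S : Sys2) {x z : ℝ} (hx : 0 ≤ x) (hz : 0 ≤ z)
    (h : ser2 S.rc (.ofReal x) (.ofReal z) ≠ ∞) (h' : ser2 S.tc (.ofReal x) (.ofReal z) ≠ ∞) :
    ser S.kc (.ofReal x) (.ofReal z) (.ofReal (1 + z)) (.ofReal (tr S x z)) ≠ ∞ ∧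
      KK S.toSys (qp S x z) + 3 / 2 * x ^ 6 * z ^ 11 = T0r S x z + x ^ 4 * z ^ 8 / 4 +
        x * (1 + z) ^ 2 * ((ar S x z - 1) * Real.exp (ar S x z) + 1 - ar S x z ^ 2 / 2) := by
  have ha : 0 ≤ ar S x z := ar_nonneg S x z
  have hE : ser S.kc (.ofReal x) (.ofReal z) (.ofReal (1 + z)) (.ofReal (tr S x z)) +
        .ofReal (3 / 2 * x ^ 6 * z ^ 11) =
      ser2 S.tc (.ofReal x) (.ofReal z) + .ofReal (x ^ 4 * z ^ 8 / 4) +
        .ofReal (x * (1 + z) ^ 2 * ((ar S x z - 1) * Real.exp (ar S x z) + 1 -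
          ar S x z ^ 2 / 2)) :=
    S.hT0E x z (ar S x z) hx hz ha (ENNReal.ofReal_toReal h).symm
  have hR : ser2 S.tc (.ofReal x) (.ofReal z) + .ofReal (x ^ 4 * z ^ 8 / 4) +
        .ofReal (x * (1 + z) ^ 2 * ((ar S x z - 1) * Real.exp (ar S x z) + 1 -
          ar S x z ^ 2 / 2)) ≠ ∞ :=
    ENNReal.add_ne_top.mpr ⟨ENNReal.add_ne_top.mpr ⟨h', ENNReal.ofReal_ne_top⟩,
      ENNReal.ofReal_ne_top⟩
  have hf : ser S.kc (.ofReal x) (.ofReal z) (.ofReal (1 + z)) (.ofReal (tr S x z)) ≠ ∞ := by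
    refine ne_top_of_le_ne_top hR ?_
    rw [← hE]
    exact le_self_add
  refine ⟨hf, ?_⟩
  have hE2 := congrArg ENNReal.toReal hE
  rw [ENNReal.toReal_add hf ENNReal.ofReal_ne_top,
    ENNReal.toReal_add (ENNReal.add_ne_top.mpr ⟨h', ENNReal.ofReal_ne_top⟩)
      ENNReal.ofReal_ne_top, ENNReal.toReal_add h' ENNReal.ofReal_ne_top,
    ENNReal.toReal_ofReal (by positivity), ENNReal.toReal_ofReal (by positivity),
    ENNReal.toReal_ofReal (mul_nonneg (by positivity) (QFinAux.g_nonneg ha))] at hE2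
  exact hE2

theorem dom_of (S : Sys2) {x x1 z : ℝ} (hx : 0 < x) (hxx : x < x1) (h : S.Dg (.ofReal x1) ≠ ∞)
    (hz : 0 < z) (hzD : z ≤ Dr S x) : Dom S x z := by
  have h2 : x < (x + x1) / 2 := by linarith
  have h3 : (x + x1) / 2 < x1 := by linarith
  have h0 : 0 < (x + x1) / 2 := hx.trans h2
  have hf := Dg_fin S h3.le h
  exact ⟨hx, hz, (x + x1) / 2, Dr S ((x + x1) / 2), h2,
    lt_of_le_of_lt hzD (Dr_lt S hx h2 hf), br_fin S h0 h3 h, (Dr_spec S h0 hf).2.2.1⟩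

theorem Dom.nhds {S : Sys2} {x z : ℝ} (h : Dom S x z) :
    ∀ᶠ p : ℝ × ℝ in 𝓝 (x, z), Dom S p.1 p.2 := by
  obtain ⟨hx, hz, x1, z1, hx1, hz1, h1, h2⟩ := h
  have e1 : ∀ᶠ p : ℝ × ℝ in 𝓝 (x, z), 0 < p.1 :=
    (continuous_fst.tendsto (x, z)).eventually (eventually_gt_nhds hx)
  have e2 : ∀ᶠ p : ℝ × ℝ in 𝓝 (x, z), 0 < p.2 :=
    (continuous_snd.tendsto (x, z)).eventually (eventually_gt_nhds hz)
  have e3 : ∀ᶠ p : ℝ × ℝ in 𝓝 (x, z), p.1 < x1 :=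
    (continuous_fst.tendsto (x, z)).eventually (eventually_lt_nhds hx1)
  have e4 : ∀ᶠ p : ℝ × ℝ in 𝓝 (x, z), p.2 < z1 :=
    (continuous_snd.tendsto (x, z)).eventually (eventually_lt_nhds hz1)
  filter_upwards [e1, e2, e3, e4] with p p1 p2 p3 p4
  exact ⟨p1, p2, x1, z1, p3, p4, h1, h2⟩

theorem Dom.fin {S : Sys2} {x z : ℝ} (h : Dom S x z) :
    ser2 S.rc (.ofReal x) (.ofReal z) ≠ ∞ ∧ ser2 S.tc (.ofReal x) (.ofReal z) ≠ ∞ := by
  obtain ⟨hx, hz, x1, z1, hx1, hz1, h1, h2⟩ := h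
  exact ⟨ne_top_of_le_ne_top h1 (ser2_mono S.rc (ENNReal.ofReal_le_ofReal hx1.le)
    (ENNReal.ofReal_le_ofReal hz1.le)), ne_top_of_le_ne_top h2 (ser2_mono S.tc
    (ENNReal.ofReal_le_ofReal hx1.le) (ENNReal.ofReal_le_ofReal hz1.le))⟩

theorem Dom.fin3 {S : Sys2} {x z : ℝ} (h : Dom S x z) : Fin3 S.toSys (qp S x z) := by
  have hfin := h.fin
  obtain ⟨hx, hz, x1, z1, hx1, hz1, h1, h2⟩ := h
  have hx1' : 0 ≤ x1 := (hx.trans hx1).le
  have hz1' : 0 ≤ z1 := (hz.trans hz1).le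
  refine ⟨hx, hz, (ar_pos S hx hz hfin.1).2, x1, z1, tr S x1 z1, hx1, hz1,
    (ar_lt S hx hx1 hz hz1.le h1).2, (kc_fin S hx1' hz1' h1 h2).1, ?_⟩
  rw [(br_eq S hx1' hz1' h1).1]
  exact ENNReal.ofReal_ne_top

end K5P
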