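import Pool.Agent.Lib.K5P.QDefs

/-!
# K5P.QPos : positivity, strict monotonicity and convexity of the branches

PROOFS. `ac_pos`: the point `r = 1/2, s = 3/2, y = 2/15, t = 0` is `Good` (`px = 4/15`, `pb = 1`, `pj = 7/15`, `4 r s y^2 = 4/75 ≤ 49/225`), `pD = 69/196`, `pT = 0`, `pA = 2043/148877 > 0` (unfold and `norm_num`). By `Sys.vals` `ser S.ac .. (ofReal 0)` is
`ofReal pA ≠ 0`; if all `S.ac i j k 0` were 0, every term would be 0 (`0 ^ l = 0` for `l ≥ 1`).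
`ar_eq`: `ofReal (ar S x z)` is the series if it is finite. `br_eq`: `S.hBrE` with `a = ar S x z` and `toReal`: `AA` at `qp S x z`. `ar_pos`: `a = A(x, z, 1 + z, τ) ≥ A(x, z, 1 + z, 0) > 0` by `ac_pos` (all of `x, z, 1 + z` positive).
`br_zero`: as in the header of K5P/PConc for `K_zero`: at `Good x 1 0 0` `S.hAS` and `S.hMeq` give `N3 = (1 + 0)^3 (1 + 0 + ser ac ..)` with `N3 = ofReal (pN x 1 0 0) = 1` (`pw3 = x (x^2 + 3 x + 1)`), so `ser S.ac (ofReal x) 0 1 0 = 0`, and `S.hBrU` with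
`z = 0, t = 0, a = 0` gives `ser2 S.rc (ofReal x) 0 ≤ 0`.
`ar_lt`: let `a = ar S x z ≤ a1 = ar S x1 z1` (monotonicity) and suppose `a = a1`; then `τ` is the same and by `br_eq` (all coefficients `S.ac 0 j k l` are 0, so every term at `x` is at most `x / x1` times the term at `x1`)
`a = A(x, z, 1 + z, τ) ≤ (x / x1) A(x1, z1, 1 + z1, τ) = (x / x1) a < a`, because `a > 0`. `tr_lt`: `e^a - 1 - a` is strictly increasing for `a ≥ 0`.
`ar_conv`: termwise, for `j ≥ 1`: `(u z)^j ≤ u z^j`; the terms with `j = 0` vanish by `br_zero` (they are the terms of `ser2 S.rc (ofReal x) 0`). `tr_conv`: `ar S x (u z) ≤ u a` and `e^(u a) - 1 - u a ≤ u (e^a - 1 - a)` (convexity of exp: `e^(u a) ≤ (1 - u) + u e^a`).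
-/

set_option autoImplicit false

namespace K5P

open K5N K5S
open scoped ENNReal Topology

namespace QPosAux

theorem exs_mono {a b : ℝ} (ha : 0 ≤ a) (hab : a ≤ b) :
    Real.exp a - 1 - a ≤ Real.exp b - 1 - b := by
  have h1 : 1 ≤ Real.exp a := Real.one_le_exp ha
  have h2 : (b - a) + 1 ≤ Real.exp (b - a) := Real.add_one_le_exp _
  have h3 : Real.exp b = Real.exp a * Real.exp (b - a) := by
    rw [← Real.exp_add]; ring_nf
  have h4 : (0 : ℝ) ≤ b - a := by linarith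
  nlinarith [mul_le_mul_of_nonneg_left h2 (Real.exp_pos a).le, mul_le_mul_of_nonneg_right h1 h4]

theorem exs_strict {a b : ℝ} (ha : 0 ≤ a) (hab : a < b) :
    Real.exp a - 1 - a < Real.exp b - 1 - b := by
  have h1 : 1 ≤ Real.exp a := Real.one_le_exp ha
  have h2 : (b - a) + 1 < Real.exp (b - a) := Real.add_one_lt_exp (by linarith)
  have h3 : Real.exp b = Real.exp a * Real.exp (b - a) := by
    rw [← Real.exp_add]; ring_nf
  have h4 : (0 : ℝ) ≤ b - a := by linarith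
  nlinarith [mul_lt_mul_of_pos_left h2 (Real.exp_pos a), mul_le_mul_of_nonneg_right h1 h4]

theorem exs_scale {a u : ℝ} (hu : 0 ≤ u) (hu1 : u ≤ 1) :
    Real.exp (u * a) - 1 - u * a ≤ u * (Real.exp a - 1 - a) := by
  have h := convexOn_exp.2 (Set.mem_univ 0) (Set.mem_univ a) (sub_nonneg.2 hu1) hu
    (sub_add_cancel 1 u)
  simp only [smul_eq_mul, mul_zero, zero_add, Real.exp_zero, mul_one] at h
  nlinarith [h]

theorem good0 {x : ℝ} (hx : 0 < x) : Good x 1 0 0 where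
  r_pos := hx
  s_pos := one_pos
  y_nonneg := le_rfl
  t_nonneg := le_rfl
  x_pos := by unfold px; simpa using hx
  b_eq := by unfold pb; ring
  j_nonneg := by unfold pj; norm_num
  sub := by unfold pj; norm_num

theorem px0 (x : ℝ) : px x 1 0 0 = x := by unfold px; ring

theorem pkap0 {x : ℝ} (hx : 0 < x) : pkap x 1 0 0 = 1 := by
  unfold pkap pw1
  rw [px0]
  field_simp
  ring

theorem pT0' (x : ℝ) : pT x 1 0 0 = 0 := by unfold pT; ring

theorem pD0 {x : ℝ} (hx : 0 < x) : pD x 1 0 0 = 0 := by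
  unfold pD pw2
  rw [px0, pkap0 hx]
  field_simp
  ring

theorem pN0 {x : ℝ} (hx : 0 < x) : pN x 1 0 0 = 1 := by
  unfold pN pw3
  rw [px0, pkap0 hx, pD0 hx]
  field_simp
  ring

theorem pA0 {x : ℝ} (hx : 0 < x) : pA x 1 0 0 = 0 := by
  unfold pA
  rw [pN0 hx, pD0 hx, pT0']
  norm_num

/-- The term of a series. -/
theorem term_le (c : ℕ → ℕ → ℕ → ℕ → ℝ≥0∞) (x z w t : ℝ≥0∞) (i j k l : ℕ) :
    c i j k l * x ^ i * z ^ j * w ^ k * t ^ l ≤ ser c x z w t := by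
  unfold ser
  exact ENNReal.le_tsum (f := fun m : ℕ × ℕ × ℕ × ℕ =>
    c m.1 m.2.1 m.2.2.1 m.2.2.2 * x ^ m.1 * z ^ m.2.1 * w ^ m.2.2.1 * t ^ m.2.2.2) (i, j, k, l)

theorem term2_le (c : ℕ → ℕ → ℝ≥0∞) (x z : ℝ≥0∞) (i j : ℕ) :
    c i j * x ^ i * z ^ j ≤ ser2 c x z := by
  unfold ser2
  exact ENNReal.le_tsum (f := fun m : ℕ × ℕ => c m.1 m.2 * x ^ m.1 * z ^ m.2) (i, j)

/-- All coefficients with `i = 0` vanish. -/
theorem ser_scale (c : ℕ → ℕ → ℕ → ℕ → ℝ≥0∞) (hc : ∀ j k l, c 0 j k l = 0)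
    {x z w t x1 z1 w1 t1 : ℝ≥0∞} (hx : x ≤ x1) (hz : z ≤ z1) (hw : w ≤ w1) (ht : t ≤ t1) :
    x1 * ser c x z w t ≤ x * ser c x1 z1 w1 t1 := by
  unfold ser
  rw [← ENNReal.tsum_mul_left, ← ENNReal.tsum_mul_left]
  refine ENNReal.tsum_le_tsum fun m => ?_
  obtain ⟨i, j, k, l⟩ := m
  simp only
  rcases i with _ | i
  · rw [hc]; simp
  · calc x1 * (c (i + 1) j k l * x ^ (i + 1) * z ^ j * w ^ k * t ^ l)
        = x * (c (i + 1) j k l * (x ^ i * x1) * z ^ j * w ^ k * t ^ l) := by ring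
      _ ≤ x * (c (i + 1) j k l * (x1 ^ i * x1) * z1 ^ j * w1 ^ k * t1 ^ l) := by gcongr
      _ = x * (c (i + 1) j k l * x1 ^ (i + 1) * z1 ^ j * w1 ^ k * t1 ^ l) := by rw [pow_succ]

theorem ser2_scale (c : ℕ → ℕ → ℝ≥0∞) {x : ℝ≥0∞} (hc : ∀ i, c i 0 * x ^ i = 0)
    {z u : ℝ≥0∞} (hu : u ≤ 1) : ser2 c x (u * z) ≤ u * ser2 c x z := by
  unfold ser2
  rw [← ENNReal.tsum_mul_left]
  refine ENNReal.tsum_le_tsum fun m => ?_
  obtain ⟨i, j⟩ := m
  simp only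
  rcases j with _ | j
  · rw [pow_zero, mul_one, hc]; exact bot_le
  · calc c i (j + 1) * x ^ i * (u * z) ^ (j + 1)
        = u * (u ^ j * (c i (j + 1) * x ^ i * z ^ (j + 1))) := by rw [mul_pow, pow_succ u]; ring
      _ ≤ u * (1 * (c i (j + 1) * x ^ i * z ^ (j + 1))) := by
        gcongr
        exact pow_le_one' hu j
      _ = u * (c i (j + 1) * x ^ i * z ^ (j + 1)) := by rw [one_mul]

end QPosAux

open QPosAux

theorem ser2_mono (c : ℕ → ℕ → ℝ≥0∞) {x z x' z' : ℝ≥0∞} (hx : x ≤ x') (hz : z ≤ z') :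
    ser2 c x z ≤ ser2 c x' z' := by
  unfold ser2
  refine ENNReal.tsum_le_tsum fun m => ?_
  gcongr

theorem ac_pos (S : Sys) : ∃ i j k : ℕ, S.ac i j k 0 ≠ 0 := by
  by_contra hcon
  push Not at hcon
  have hx : px (1 / 2) (3 / 2) (2 / 15) 0 = 4 / 15 := by unfold px; norm_num
  have hk : pkap (1 / 2) (3 / 2) (2 / 15) 0 = pw1 (1 / 2) (3 / 2) (2 / 15) 0 / (4 / 15) := by
    unfold pkap; rw [hx]
  have hw : pw1 (1 / 2) (3 / 2) (2 / 15) 0 = 7 / 20 := by unfold pw1; norm_num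
  rw [hw] at hk
  have hT : pT (1 / 2) (3 / 2) (2 / 15) 0 = 0 := by unfold pT; ring
  have hD : pD (1 / 2) (3 / 2) (2 / 15) 0 = 69 / 196 := by
    unfold pD pw2
    rw [hk, hx]
    norm_num
  have hA : 0 < pA (1 / 2) (3 / 2) (2 / 15) 0 := by
    unfold pA pN pw3
    rw [hk, hx, hD, hT]
    norm_num
  have hG : Good (1 / 2) (3 / 2) (2 / 15) 0 := by
    refine ⟨by norm_num, by norm_num, by norm_num, by norm_num, by rw [hx]; norm_num, ?_, ?_, ?_⟩
    · unfold pb; norm_num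
    · unfold pj; norm_num
    · unfold pj; norm_num
  obtain ⟨_, _, _, _, h5⟩ := S.vals hG (by rw [hD]; norm_num)
  have h6 : ser S.ac (.ofReal (px (1 / 2) (3 / 2) (2 / 15) 0))
      (.ofReal (pD (1 / 2) (3 / 2) (2 / 15) 0)) (.ofReal (1 + pD (1 / 2) (3 / 2) (2 / 15) 0))
      (.ofReal (pT (1 / 2) (3 / 2) (2 / 15) 0)) = 0 := by
    rw [hT, ENNReal.ofReal_zero]
    unfold ser
    rw [ENNReal.tsum_eq_zero]
    rintro ⟨i, j, k, l⟩
    simp only
    rcases l with _ | l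
    · rw [hcon]; simp
    · simp
  rw [h6] at h5
  have h7 := ENNReal.ofReal_pos.2 hA
  rw [← h5] at h7
  exact lt_irrefl _ h7

theorem ar_nonneg (S : Sys2) (x z : ℝ) : 0 ≤ ar S x z := ENNReal.toReal_nonneg

theorem tr_nonneg (S : Sys2) (x z : ℝ) : 0 ≤ tr S x z := by
  unfold tr
  have := Real.add_one_le_exp (ar S x z)
  linarith

theorem br_eq (S : Sys2) {x z : ℝ} (hx : 0 ≤ x) (hz : 0 ≤ z)
    (h : ser2 S.rc (.ofReal x) (.ofReal z) ≠ ∞) :
    ser S.ac (.ofReal x) (.ofReal z) (.ofReal (1 + z)) (.ofReal (tr S x z)) = .ofReal (ar S x z) ∧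
      AA S.toSys (qp S x z) = ar S x z := by
  have h1 : ser2 S.rc (.ofReal x) (.ofReal z) = .ofReal (ar S x z) := by
    unfold ar
    rw [ENNReal.ofReal_toReal h]
  have h2 := S.hBrE x z (ar S x z) hx hz (ar_nonneg S x z) h1
  refine ⟨h2, ?_⟩
  unfold AA qp
  simp only
  have h3 : ser S.ac (.ofReal x) (.ofReal z) (.ofReal (1 + z)) (.ofReal (tr S x z)) =
    .ofReal (ar S x z) := h2
  rw [h3, ENNReal.toReal_ofReal (ar_nonneg S x z)]

theorem ar_pos (S : Sys2) {x z : ℝ} (hx : 0 < x) (hz : 0 < z)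
    (h : ser2 S.rc (.ofReal x) (.ofReal z) ≠ ∞) : 0 < ar S x z ∧ 0 < tr S x z := by
  have h1 := (br_eq S hx.le hz.le h).1
  have ha : 0 < ar S x z := by
    obtain ⟨i, j, k, hc⟩ := ac_pos S.toSys
    have h2 := term_le S.ac (.ofReal x) (.ofReal z) (.ofReal (1 + z)) (.ofReal (tr S x z)) i j k 0
    rw [h1, pow_zero, mul_one] at h2
    rw [← ENNReal.ofReal_pos]
    refine lt_of_lt_of_le ?_ h2
    have e1 : ENNReal.ofReal x ≠ 0 := (ENNReal.ofReal_pos.2 hx).ne'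
    have e2 : ENNReal.ofReal z ≠ 0 := (ENNReal.ofReal_pos.2 hz).ne'
    have e3 : ENNReal.ofReal (1 + z) ≠ 0 := (ENNReal.ofReal_pos.2 (by linarith)).ne'
    exact pos_iff_ne_zero.2 (mul_ne_zero (mul_ne_zero (mul_ne_zero hc (pow_ne_zero _ e1))
      (pow_ne_zero _ e2)) (pow_ne_zero _ e3))
  refine ⟨ha, ?_⟩
  have h3 := exs_strict le_rfl ha
  unfold tr
  simpa using h3

theorem br_zero (S : Sys2) {x : ℝ} (hx : 0 < x) : ser2 S.rc (.ofReal x) 0 = 0 := by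
  obtain ⟨_, _, _, _, h5⟩ := S.vals (good0 hx) (by rw [pD0 hx])
  rw [px0, pD0 hx, pT0', pA0 hx] at h5
  have h6 := S.hBrU x 0 0 0 hx.le le_rfl le_rfl (le_of_eq h5) (by simp)
  rw [ENNReal.ofReal_zero] at h6
  exact le_antisymm h6 (bot_le)

theorem ar_le (S : Sys2) {x z x1 z1 : ℝ} (hx : x ≤ x1) (hz : z ≤ z1)
    (h : ser2 S.rc (.ofReal x1) (.ofReal z1) ≠ ∞) :
    ar S x z ≤ ar S x1 z1 ∧ tr S x z ≤ tr S x1 z1 := by
  have h1 : ar S x z ≤ ar S x1 z1 := by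
    unfold ar
    exact ENNReal.toReal_mono h (ser2_mono _ (ENNReal.ofReal_le_ofReal hx)
      (ENNReal.ofReal_le_ofReal hz))
  exact ⟨h1, exs_mono (ar_nonneg S x z) h1⟩

theorem ar_lt (S : Sys2) {x z x1 z1 : ℝ} (hx : 0 < x) (hxx : x < x1) (hz : 0 < z) (hzz : z ≤ z1)
    (h : ser2 S.rc (.ofReal x1) (.ofReal z1) ≠ ∞) :
    ar S x z < ar S x1 z1 ∧ tr S x z < tr S x1 z1 := by
  obtain ⟨h1, h2⟩ := ar_le S hxx.le hzz h
  have hfin : ser2 S.rc (.ofReal x) (.ofReal z) ≠ ∞ := ne_top_of_le_ne_top h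
    (ser2_mono _ (ENNReal.ofReal_le_ofReal hxx.le) (ENNReal.ofReal_le_ofReal hzz))
  have ha := (ar_pos S hx hz hfin).1
  have hlt : ar S x z < ar S x1 z1 := by
    rcases h1.lt_or_eq with h3 | h3
    · exact h3
    exfalso
    have e1 := (br_eq S hx.le hz.le hfin).1
    have e2 := (br_eq S (hx.trans hxx).le (hz.trans_le hzz).le h).1
    have h4 := ser_scale S.ac S.hac0 (ENNReal.ofReal_le_ofReal hxx.le)
      (ENNReal.ofReal_le_ofReal hzz) (ENNReal.ofReal_le_ofReal (by linarith : 1 + z ≤ 1 + z1))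
      (ENNReal.ofReal_le_ofReal h2)
    rw [e1, e2, ← h3, ← ENNReal.ofReal_mul (hx.trans hxx).le, ← ENNReal.ofReal_mul hx.le,
      ENNReal.ofReal_le_ofReal_iff (mul_nonneg hx.le ha.le)] at h4
    have h5 := le_of_mul_le_mul_right h4 ha
    linarith
  exact ⟨hlt, exs_strict (ar_nonneg S x z) hlt⟩

theorem tr_conv (S : Sys2) {x z u : ℝ} (hx : 0 < x) (hz : 0 ≤ z) (hu : 0 ≤ u) (hu1 : u ≤ 1)
    (h : ser2 S.rc (.ofReal x) (.ofReal z) ≠ ∞) :
    ar S x (u * z) ≤ u * ar S x z ∧ tr S x (u * z) ≤ u * tr S x z := by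
  have h0 : ∀ i, S.rc i 0 * (ENNReal.ofReal x) ^ i = 0 := by
    intro i
    have h1 := term2_le S.rc (.ofReal x) 0 i 0
    rw [br_zero S hx, pow_zero, mul_one] at h1
    exact le_antisymm h1 (bot_le)
  have h1 : ar S x (u * z) ≤ u * ar S x z := by
    have h2 := ser2_scale S.rc h0 (z := .ofReal z) (u := .ofReal u)
      (by rw [← ENNReal.ofReal_one]; exact ENNReal.ofReal_le_ofReal hu1)
    rw [← ENNReal.ofReal_mul hu] at h2
    have h3 := ENNReal.toReal_mono (ENNReal.mul_ne_top ENNReal.ofReal_ne_top h) h2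
    rw [ENNReal.toReal_mul, ENNReal.toReal_ofReal hu] at h3
    exact h3
  refine ⟨h1, ?_⟩
  unfold tr
  exact (exs_mono (ar_nonneg S x (u * z)) h1).trans (exs_scale hu hu1)

end K5P
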